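import Pool.Agent.P.MP_746f10_nt.AZ.Base
import Pool.Agent.P.MP_746f10_nt.AP.TA

/-! The sifted truncated Moebius sum as a divisor sum of small level, with an error that is small
on every interval of length at least the parameter. -/

namespace Pool.Agent.P.MP_746f10_nt.AZ

open Finset Filter
open Pool.Agent.P.MP_746f10_nt.AP
open TAP

namespace A2P

lemma ceil_le_iff {t : ℕ} (ht : 1 ≤ t) (x l : ℕ) : (x + t - 1) / t ≤ l ↔ x ≤ t * l := by
  rw [← Nat.lt_succ_iff, Nat.div_lt_iff_lt_mul ht, Nat.succ_mul, mul_comm l t]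
  omega

lemma sum_dd_Ico (x y : ℕ) {t : ℕ} (ht : 1 ≤ t) : ∃ x' y' : ℕ,
    (y' : ℝ) ≤ y * (1 / t) + 1 ∧ (y : ℝ) * (1 / t) ≤ y' + 1 ∧
    ∀ F : ℕ → ℝ, ∑ m ∈ Ico x (x + y), dd m t * F m = ∑ l ∈ Ico x' (x' + y'), F (t * l) := by
  have ht' : (0 : ℝ) < t := by exact_mod_cast ht
  obtain ⟨a, ha⟩ : ∃ a, a = (x + t - 1) / t := ⟨_, rfl⟩
  obtain ⟨b, hb⟩ : ∃ b, b = (x + y + t - 1) / t := ⟨_, rfl⟩
  have hab : a ≤ b := by
    rw [ha, hb]
    exact Nat.div_le_div_right (by omega)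
  have ia : ∀ l, a ≤ l ↔ x ≤ t * l := fun l => ha ▸ ceil_le_iff ht x l
  have ib : ∀ l, b ≤ l ↔ x + y ≤ t * l := fun l => hb ▸ ceil_le_iff ht (x + y) l
  have a1 : x ≤ t * a := (ia a).1 le_rfl
  have b1 : x + y ≤ t * b := (ib b).1 le_rfl
  have a2 : t * a ≤ x + t - 1 := ha ▸ Nat.mul_div_le _ _
  have b2 : t * b ≤ x + y + t - 1 := hb ▸ Nat.mul_div_le _ _
  obtain ⟨c, rfl⟩ := Nat.exists_eq_add_of_le hab
  rw [mul_add] at b1 b2
  refine ⟨a, c, ?_, ?_, fun F => ?_⟩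
  · have h1 : t * c ≤ y + t := by omega
    have h2 : (t : ℝ) * c ≤ y + t := by exact_mod_cast h1
    rw [mul_one_div, div_add_one ht'.ne', le_div_iff₀ ht']
    linarith
  · have h1 : y ≤ t * c + t := by omega
    have h2 : (y : ℝ) ≤ t * c + t := by exact_mod_cast h1
    rw [mul_one_div, div_le_iff₀ ht']
    linarith
  have e : ∑ m ∈ Ico x (x + y), dd m t * F m = ∑ m ∈ (Ico x (x + y)).filter (t ∣ ·), F m := by
    rw [sum_filter]
    refine sum_congr rfl fun m _ => ?_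
    unfold dd
    split_ifs <;> simp
  rw [e]
  refine sum_nbij' (fun m => m / t) (fun l => t * l) ?_ ?_ ?_ ?_ ?_
  · intro m hm
    obtain ⟨h1, h2⟩ := mem_filter.1 hm
    have h3 := mem_Ico.1 h1
    have h4 := Nat.mul_div_cancel' h2
    refine mem_Ico.2 ⟨(ia _).2 (by omega), not_le.1 fun h => ?_⟩
    have := (ib _).1 h
    omega
  · intro l hl
    have h3 := mem_Ico.1 hl
    refine mem_filter.2 ⟨mem_Ico.2 ⟨(ia _).1 h3.1, not_le.1 fun h => ?_⟩, dvd_mul_right _ _⟩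
    have := (ib _).2 h
    omega
  · intro m hm
    exact Nat.mul_div_cancel' (mem_filter.1 hm).2
  · intro l _
    exact Nat.mul_div_cancel_left l ht
  · intro m hm
    rw [Nat.mul_div_cancel' (mem_filter.1 hm).2]

variable {w z D3 : ℕ} {η : ℝ}

lemma sum_U_le (s : SieveW (PP w z) D3 1 η) {δ W : ℝ} (hδ : 0 ≤ δ) (hδ1 : δ ≤ 1)
    (hW : 0 ≤ W)
    (hI : ∀ x y : ℕ, |∑ m ∈ Ico x (x + y), rr w m - y * VV w| ≤ y * VV w * δ + W) (hwz : w ≤ z)
    (X Y : ℕ) :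
    ∑ l ∈ Ico X (X + Y), rr w l * s.U (dd l) ≤
      (1 + η) * (Y * VV z) + D3 * (2 + W) + Y * δ * Th w z := by
  have hP : ∀ p ∈ PP w z, p.Prime := fun p hp => PP_prime hp
  have hV := VV_pos w
  have hV1 := VV_le_one w
  have h1 : ∑ l ∈ Ico X (X + Y), rr w l * s.U (dd l) =
      ∑ T ∈ (PP w z).powerset, s.up T * ∑ l ∈ Ico X (X + Y), dd l (∏ q ∈ T, q) * rr w l := by
    unfold SieveW.U
    simp_rw [mul_sum (s := (PP w z).powerset)]
    rw [sum_comm]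
    refine sum_congr rfl fun T hT => ?_
    rw [mem_powerset] at hT
    rw [mul_sum]
    refine sum_congr rfl fun l _ => ?_
    rw [prod_dd fun p hp => hP p (hT hp)]
    ring
  have h2 : ∀ T ∈ (PP w z).powerset,
      s.up T * ∑ l ∈ Ico X (X + Y), dd l (∏ q ∈ T, q) * rr w l ≤
      Y * VV w * (s.up T * ∏ p ∈ T, 1 / (p : ℝ)) + (if ∏ q ∈ T, q ≤ D3 then 2 + W else 0) +
        Y * δ * ∏ p ∈ T, 1 / (p : ℝ) := by
    intro T hT
    rw [mem_powerset] at hT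
    have ht := prod_pos' hT
    have hr := rough_prod hT
    have e : ∏ p ∈ T, 1 / (p : ℝ) = 1 / ((∏ q ∈ T, q : ℕ) : ℝ) := by
      rw [prod_div_distrib, prod_const_one, Nat.cast_prod]
    rw [e]
    generalize hs : s.up T = c
    have hc : |c| ≤ 1 := hs ▸ s.abs_up T
    have hc0 : c ≠ 0 → ∏ q ∈ T, q ≤ D3 := fun h => s.supp_up T hT (hs ▸ h)
    generalize ∏ q ∈ T, q = t at ht hc0 hr
    have ht' : (0 : ℝ) < t := by exact_mod_cast ht
    by_cases h0 : c = 0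
    · rw [h0]
      have : (0 : ℝ) ≤ if t ≤ D3 then 2 + W else 0 := by split_ifs <;> positivity
      have : (0 : ℝ) ≤ Y * δ * (1 / t) := by positivity
      linarith
    rw [if_pos (hc0 h0)]
    obtain ⟨x', y', a1, a2, a0⟩ := sum_dd_Ico X Y ht
    rw [a0]
    simp_rw [rr_mul, rr_of_rough hr, one_mul]
    have a3 := hI x' y'
    generalize ∑ l ∈ Ico x' (x' + y'), rr w l = S at a3 ⊢
    have y0 : (0 : ℝ) ≤ y' := Nat.cast_nonneg _
    generalize (y' : ℝ) = y at a1 a2 a3 y0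
    have a4 : |S - Y * (1 / t) * VV w| ≤ 2 + W + Y * δ * (1 / t) := by
      have b1 : y * VV w * δ ≤ Y * δ * (1 / t) + 1 := by
        calc y * VV w * δ ≤ (Y * (1 / t) + 1) * 1 * δ := by gcongr
          _ = Y * δ * (1 / t) + δ := by ring
          _ ≤ _ := by linarith
      have b2 : (Y * (1 / t) - y) * VV w ≤ 1 := by nlinarith
      have b3 : -1 ≤ (Y * (1 / t) - y) * VV w := by nlinarith
      rw [abs_le] at a3 ⊢
      constructor <;> nlinarith [a3.1, a3.2]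
    have a5 : c * (S - Y * (1 / t) * VV w) ≤ 2 + W + Y * δ * (1 / t) := by
      refine (le_abs_self _).trans ?_
      rw [abs_mul]
      exact (mul_le_of_le_one_left (abs_nonneg _) hc).trans a4
    linarith
  rw [h1]
  refine (sum_le_sum h2).trans ?_
  rw [sum_add_distrib, sum_add_distrib, ← mul_sum, ← mul_sum, ← sum_filter, sum_const,
    nsmul_eq_mul, ← prod_one_add]
  have c1 := s.up_le (fun p => 1 / (p : ℝ)) fun p hp => ⟨by positivity, le_rfl,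
    (one_div_le_one_div_of_le (by norm_num) (PP_two hp)).trans (by norm_num)⟩
  have c2 : VV z = VV w * ∏ p ∈ PP w z, (1 - 1 / (p : ℝ)) := prod_PP_split (Nat.zero_le w) hwz _
  have c3 : (((PP w z).powerset.filter fun T => ∏ q ∈ T, q ≤ D3).card : ℝ) ≤ D3 := by
    exact_mod_cast card_level_le hP D3
  have c4 := prod_one_add_le_Th w z 1 (x := fun p => 1 / (p : ℝ)) fun p _ =>
    ⟨by positivity, by simp⟩
  rw [pow_one] at c4
  have c5 := mul_le_mul_of_nonneg_left c1 (by positivity : 0 ≤ Y * VV w)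
  have c6 := mul_le_mul_of_nonneg_right c3 (by positivity : 0 ≤ 2 + W)
  have c7 := mul_le_mul_of_nonneg_left c4 (by positivity : 0 ≤ Y * δ)
  rw [c2]
  linarith

lemma sum_err_le (s : SieveW (PP w z) D3 1 η) (hwz : w ≤ z) (hη : 0 ≤ η) {δ W W' B : ℝ}
    (hδ : 0 ≤ δ) (hδ1 : δ ≤ 1) (hW : 0 ≤ W) (hW' : 0 ≤ W')
    (hB : 2 * η * VV z + δ * Th w z ≤ B)
    (hI : ∀ x y : ℕ, |∑ m ∈ Ico x (x + y), rr w m - y * VV w| ≤ y * VV w * δ + W)
    (hI' : ∀ x y : ℕ, |∑ m ∈ Ico x (x + y), rr z m - y * VV z| ≤ y * VV z * η + W')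
    {D Z : ℕ} (hD : D ≤ Z) (X N : ℕ) :
    ∑ m ∈ Ico X (X + N), ∑ d ∈ TAP.AA z D, dd m d * EE s m ≤
      N * (2 * η * VV z + δ * Th w z) * Th z Z + D * (D3 * (2 + W) + W' + B) := by
  have hV := VV_pos z
  have hT := one_le_Th w z
  have hB0 : 0 ≤ B := le_trans (by positivity) hB
  have h1 : ∀ d ∈ TAP.AA z D, ∑ m ∈ Ico X (X + N), dd m d * EE s m ≤
      N * (2 * η * VV z + δ * Th w z) * (d : ℝ)⁻¹ + (D3 * (2 + W) + W' + B) := by
    intro d hd
    obtain ⟨a1, a2⟩ := mem_AA.1 hd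
    obtain ⟨x', y', b3, -, a0⟩ := sum_dd_Ico X N a1.1
    rw [a0]
    simp_rw [EE_mul s hwz a2, EE_eq s hwz]
    rw [sum_sub_distrib]
    have b1 := sum_U_le s hδ hδ1 hW hI hwz x' y'
    have b2 := (abs_le.1 (hI' x' y')).1
    rw [one_div] at b3
    have b4 := mul_le_mul_of_nonneg_right b3 (by positivity : 0 ≤ 2 * η * VV z + δ * Th w z)
    linarith
  rw [sum_comm]
  refine (sum_le_sum h1).trans ?_
  rw [sum_add_distrib, ← mul_sum, sum_const, nsmul_eq_mul]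
  have h2 : ∑ d ∈ TAP.AA z D, (d : ℝ)⁻¹ ≤ Th z Z := by
    refine (sum_inv_factored (U := PP z Z) (fun p hp => PP_prime hp) _ fun d hd => ?_).trans
      (le_of_eq ?_)
    · obtain ⟨a1, a2⟩ := mem_AA.1 hd
      refine Nat.mem_factoredNumbers'.2 fun p hp h => mem_PP.2 ⟨a2 p hp h, ?_, hp⟩
      exact (Nat.le_of_dvd a1.1 h).trans (a1.2.trans hD)
    · simp only [Th, one_div]
  have h3 : ((TAP.AA z D).card : ℝ) ≤ D := by
    have : (TAP.AA z D).card ≤ (Icc 1 D).card := card_le_card fun d hd => mem_Icc.2 (mem_AA.1 hd).1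
    rw [Nat.card_Icc] at this
    exact_mod_cast this
  gcongr

lemma final {ε u g y V T T' η δ R : ℝ} (hε : 0 < ε) (hu : 0 < u) (hg : 0 < g) (hy : 0 ≤ y)
    (hV0 : 0 ≤ V) (hT0 : 0 ≤ T) (hη : 0 ≤ η) (hδ : 0 ≤ δ)
    (hV : V ≤ 4 * u / g) (hT : T ≤ CM * g) (hT' : T' ≤ CM * u)
    (h1 : 96 * CM * u ^ 2 * η ≤ ε) (h2 : 12 * CM ^ 2 * u * g ^ 2 * δ ≤ ε)
    (hR : 2 * g * R ≤ ε * y) : y * (2 * η * V + δ * T) * T' + R ≤ ε * y / g := by
  have hC := one_le_CM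
  have a1 : y * (2 * η * V + δ * T) * T' ≤ y * (2 * η * (4 * u / g) + δ * (CM * g)) * (CM * u) :=
    (mul_le_mul_of_nonneg_left hT' (by positivity)).trans (by gcongr)
  have a2 : y * (2 * η * (4 * u / g) + δ * (CM * g)) * (CM * u) =
      (96 * CM * u ^ 2 * η + 12 * CM ^ 2 * u * g ^ 2 * δ) * (y / (12 * g)) := by
    field_simp
    ring
  have a3 : (96 * CM * u ^ 2 * η + 12 * CM ^ 2 * u * g ^ 2 * δ) * (y / (12 * g)) ≤
      (ε + ε) * (y / (12 * g)) := by gcongr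
  have a4 : R ≤ 6 * (ε * (y / (12 * g))) := by
    rw [← mul_div_assoc, ← mul_div_assoc, le_div_iff₀ (by positivity)]
    linarith
  have a5 : ε * y / g = 12 * (ε * (y / (12 * g))) := by field_simp
  have a6 : 0 ≤ ε * (y / (12 * g)) := by positivity
  linarith

end A2P

open A2P in
theorem zA2 (h : S_Int) : T_A2 := by
  intro ε hε
  obtain ⟨k0, h⟩ := h
  have hI : ∀ mm w x y : ℕ, 2 ≤ w → |∑ m ∈ Ico x (x + y), rr w m - y * VV w| ≤
      y * VV w * (1 / 2 ^ mm) + (w : ℝ) ^ (4 * (k0 + mm) + 6) := fun mm w x y hw => by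
    have := h mm w x y hw
    rwa [← mul_one_div] at this
  obtain ⟨k1, hs⟩ := exists_sieve 1 zero_le_one
  have hC := one_le_CM
  obtain ⟨c0, hc0⟩ := exists_nat_ge (96 * CM * (20 * (4 * (k0 + k1) + 10)) ^ 2 / ε)
  obtain ⟨mm, hm1, hm2⟩ := ((ev_pow_le_two_pow c0 2).and (eventually_ge_atTop 1)).exists
  obtain ⟨u, hu⟩ : ∃ u : ℕ, u = 20 * (4 * (k0 + k1 + mm) + 6) := ⟨_, rfl⟩
  have hu1 : 1 ≤ u := by omega
  have hu0 : (0 : ℝ) < u := by exact_mod_cast hu1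
  have hη : 96 * CM * (u : ℝ) ^ 2 * (1 / 2 ^ mm) ≤ ε := by
    have a1 : u ≤ 20 * (4 * (k0 + k1) + 10) * mm := by
      rw [hu]
      nlinarith [Nat.zero_le (k0 + k1), Nat.mul_le_mul_left (k0 + k1) hm2]
    have a2 : (u : ℝ) ≤ 20 * (4 * (k0 + k1) + 10) * mm := by exact_mod_cast a1
    have a3 : (c0 : ℝ) * mm ^ 2 ≤ 2 ^ mm := by exact_mod_cast hm1
    rw [div_le_iff₀ hε] at hc0
    rw [mul_one_div, div_le_iff₀ (by positivity)]
    calc 96 * CM * (u : ℝ) ^ 2 ≤ 96 * CM * (20 * (4 * (k0 + k1) + 10) * mm) ^ 2 := by gcongr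
      _ = 96 * CM * (20 * (4 * (k0 + k1) + 10)) ^ 2 * mm ^ 2 := by ring
      _ ≤ c0 * ε * mm ^ 2 := by gcongr
      _ = ε * (c0 * mm ^ 2) := by ring
      _ ≤ _ := by gcongr
  refine ⟨u, hu1, fun Cw => ?_⟩
  obtain ⟨c1, hc1⟩ := exists_nat_ge (12 * CM ^ 2 * u / ε)
  obtain ⟨c2, hc2⟩ := exists_nat_ge (12 / ε)
  obtain ⟨c3, hc3⟩ := exists_nat_ge (2 + CM)
  obtain ⟨Q0, hQ0⟩ := ev_lg ((ev_main u Cw (4 * k0 + 6) c1 c2 hu1).and
    ((ev_pow_le_div c2 1 10 (by norm_num)).and (ev_pow_le_div c3 1 20 (by norm_num))))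
  refine ⟨max Q0 1, fun Q w hQ hw hw' => ?_⟩
  obtain ⟨⟨e1, e2, e3, e4, e5, e6, -⟩, e7, e8⟩ := hQ0 Q (le_of_max_le_left hQ)
  have hQ1 : 1 ≤ Q := le_of_max_le_right hQ
  have hQg := two_pow_lg_le hQ1
  have hwz : w ≤ zz u Q := hw'.trans e5
  have hz : 2 ≤ zz u Q := hw.trans hwz
  obtain ⟨s⟩ := hs mm (zz u Q) (PP w (zz u Q)) hz fun p hp => ⟨PP_prime hp, (mem_PP.1 hp).2.1⟩
  have hgu : lg Q / u * u ≤ lg Q := Nat.div_mul_le_self _ _
  have hgu' : lg Q < lg Q / u * u + u := Nat.lt_div_mul_add hu1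
  have hD : ∀ k, k ≤ k0 + k1 → zz u Q ^ (4 * (k + mm) + 6) ≤ 2 ^ (lg Q / 20) := fun k hk => by
    rw [zz, ← pow_mul]
    refine Nat.pow_le_pow_right (by norm_num) ((Nat.le_div_iff_mul_le (by norm_num)).2 ?_)
    refine le_trans ?_ hgu
    rw [mul_assoc]
    exact Nat.mul_le_mul_left _ (by omega)
  have hW : w ^ (4 * (k0 + Nat.sqrt (lg Q)) + 6) ≤ 2 ^ (lg Q / 20) := by
    refine (Nat.pow_le_pow_left (hw'.trans e1) _).trans ?_
    rw [← pow_mul]
    refine Nat.pow_le_pow_right (by norm_num) ((Nat.le_div_iff_mul_le (by norm_num)).2 ?_)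
    refine le_trans ?_ (Nat.sqrt_le (lg Q))
    have := Nat.div_mul_le_self (Nat.sqrt (lg Q)) 100
    calc _ ≤ Nat.sqrt (lg Q) / 100 * (5 * Nat.sqrt (lg Q)) * 20 := by gcongr; omega
      _ = Nat.sqrt (lg Q) / 100 * 100 * Nat.sqrt (lg Q) := by ring
      _ ≤ _ := by gcongr
  refine ⟨DD Q * _, lam s (DD Q), fun m => ∑ d ∈ TAP.AA (zz u Q) (DD Q), dd m d * EE s m, ?_,
    abs_lam s _, fun g => rough_lam s hwz,
    fun m => sum_nonneg fun d _ => mul_nonneg (dd_bd _ _).1 (EE_nonneg s m), fun x y hy => ?_,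
    fun m hm => pointwise s hwz Q hm⟩
  · refine le_trans ?_ hQg
    refine (Nat.mul_le_mul_right _ (Nat.mul_le_mul_left _ (hD k1 (by omega)))).trans ?_
    rw [DD, om, ← pow_add, ← pow_add]
    exact Nat.pow_le_pow_right (by norm_num) (by omega)
  have hDZ : DD Q ≤ zz u Q ^ u := by
    rw [DD, zz, ← pow_mul]
    exact Nat.pow_le_pow_right (by norm_num) (by omega)
  have hg1 : 1 ≤ lg Q := by omega
  have hg : (0 : ℝ) < lg Q := by exact_mod_cast hg1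
  have hlz : Real.log (zz u Q : ℕ) = (lg Q / u : ℕ) * Real.log 2 := by
    rw [zz, Nat.cast_pow, Real.log_pow, Nat.cast_ofNat]
  have l1 := Real.log_two_gt_d9
  have l2 := Real.log_two_lt_d9
  have hV := VV_pos (zz u Q)
  have hT : Th w (zz u Q) ≤ CM * lg Q := by
    refine (Th_le hwz hz).trans ?_
    have a1 : ((lg Q / u : ℕ) : ℝ) ≤ lg Q := by exact_mod_cast Nat.div_le_self _ _
    have a2 := VV_le_one w
    have a3 := VV_pos w
    rw [hlz]
    calc CM * VV w * ((lg Q / u : ℕ) * Real.log 2) ≤ CM * 1 * (lg Q * 1) := by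
          gcongr
          linarith
      _ = _ := by ring
  have hle : ∀ n : ℕ, (1 : ℝ) / 2 ^ n ≤ 1 := fun n =>
    (div_le_one (by positivity)).2 (one_le_pow₀ one_le_two)
  have hB : 2 * (1 / 2 ^ mm) * VV (zz u Q) + 1 / 2 ^ Nat.sqrt (lg Q) * Th w (zz u Q) ≤
      ((2 ^ (lg Q / 20) : ℕ) : ℝ) := by
    have a1 : (c3 : ℝ) * lg Q ≤ ((2 ^ (lg Q / 20) : ℕ) : ℝ) := by
      rw [pow_one] at e8
      exact_mod_cast e8
    have a2 : (1 : ℝ) ≤ lg Q := by exact_mod_cast hg1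
    have a3 := VV_le_one (zz u Q)
    have a4 := one_le_Th w (zz u Q)
    calc _ ≤ 2 * 1 * 1 + 1 * (CM * lg Q) := by
          gcongr
          · exact hle _
          · exact hle _
      _ ≤ (2 + CM) * lg Q := by linarith
      _ ≤ c3 * lg Q := by gcongr
      _ ≤ _ := a1
  refine (A2P.sum_err_le s hwz (by positivity) (by positivity) (hle _) (by positivity)
    (by positivity) hB (fun x y => hI (Nat.sqrt (lg Q)) w x y hw)
    (fun x y => hI mm (zz u Q) x y hz) hDZ _ _).trans ?_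
  refine A2P.final hε hu0 hg (Nat.cast_nonneg _) hV.le (zero_le_one.trans (one_le_Th _ _))
    (by positivity) (by positivity) ?_ hT (Th_le_pow hz hu1) hη ?_ ?_
  · have a1 := VV_mul_log_le' (zz u Q)
    have a2 : lg Q ≤ 2 * (lg Q / u * u) := by omega
    have a3 : (lg Q : ℝ) ≤ 2 * ((lg Q / u : ℕ) * u) := by exact_mod_cast a2
    rw [hlz] at a1
    rw [le_div_iff₀ hg]
    have a4 : (0 : ℝ) ≤ (lg Q / u : ℕ) := Nat.cast_nonneg _
    generalize ((lg Q / u : ℕ) : ℝ) = v at a1 a3 a4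
    have a5 : VV (zz u Q) * v ≤ 2 := by nlinarith [mul_nonneg hV.le a4]
    nlinarith [mul_le_mul_of_nonneg_left a3 hV.le, mul_le_mul_of_nonneg_right a5 hu0.le]
  · have a3 : (c1 : ℝ) * lg Q ^ 2 ≤ 2 ^ Nat.sqrt (lg Q) := by exact_mod_cast e3
    rw [div_le_iff₀ hε] at hc1
    rw [mul_one_div, div_le_iff₀ (by positivity)]
    calc 12 * CM ^ 2 * u * (lg Q : ℝ) ^ 2 ≤ c1 * ε * lg Q ^ 2 := by gcongr
      _ = ε * (c1 * lg Q ^ 2) := by ring
      _ ≤ _ := by gcongr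
  · have a1 : DD Q * (zz u Q ^ (4 * (k1 + mm) + 6) * (2 + w ^ (4 * (k0 + Nat.sqrt (lg Q)) + 6)) +
        zz u Q ^ (4 * (k0 + mm) + 6) + 2 ^ (lg Q / 20)) ≤
        6 * (DD Q * (2 ^ (lg Q / 20) * 2 ^ (lg Q / 20))) := by
      have b1 := hD k1 (by omega)
      have b2 := hD k0 (by omega)
      have b3 : 1 ≤ 2 ^ (lg Q / 20) := Nat.one_le_two_pow
      generalize 2 ^ (lg Q / 20) = P at b1 b2 b3 hW ⊢
      have b4 : P ≤ P * P := Nat.le_mul_of_pos_right _ b3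
      calc _ ≤ DD Q * (P * (2 * P + P) + P * P + P * P) := by
            gcongr
            · omega
            · exact b2.trans b4
        _ ≤ _ := by nlinarith [Nat.zero_le (DD Q * (P * P))]
    have a2 : c2 * lg Q * (DD Q * (2 ^ (lg Q / 20) * 2 ^ (lg Q / 20))) ≤ y := by
      rw [pow_one] at e7
      refine le_trans ?_ (hQg.trans hy)
      refine (Nat.mul_le_mul_right _ e7).trans ?_
      rw [DD, ← pow_add, ← pow_add, ← pow_add]
      exact Nat.pow_le_pow_right (by norm_num) (by omega)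
    generalize DD Q * (2 ^ (lg Q / 20) * 2 ^ (lg Q / 20)) = M at a1 a2
    have a3 : (c2 : ℝ) * lg Q * M ≤ y := by exact_mod_cast a2
    rw [div_le_iff₀ hε] at hc2
    calc _ ≤ 2 * (lg Q : ℝ) * (6 * M) := by
          refine mul_le_mul_of_nonneg_left ?_ (by positivity)
          exact_mod_cast a1
      _ = 12 * (lg Q * M) := by ring
      _ ≤ c2 * ε * (lg Q * M) := by gcongr
      _ = ε * (c2 * lg Q * M) := by ring
      _ ≤ _ := by gcongr

end Pool.Agent.P.MP_746f10_nt.AZ
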