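import Pool.Agent.P.MP_746f10_nt.AZ.Base

/-! Rough numbers in progressions. -/

namespace Pool.Agent.P.MP_746f10_nt.AZ

open Finset Filter
open Pool.Agent.P.MP_746f10_nt.AP

theorem zAP : T_AP := by
  obtain ⟨k0, hk⟩ := exists_sieve 1 zero_le_one
  refine ⟨k0, fun mm w x y M c hw hM hc => ?_⟩
  have hP : ∀ p ∈ (PP 0 w).filter (fun p => ¬ p ∣ M), p.Prime :=
    fun p hp => PP_prime (mem_filter.1 hp).1
  obtain ⟨s⟩ := hk mm w ((PP 0 w).filter fun p => ¬ p ∣ M) hw
    fun p hp => ⟨hP p hp, (mem_PP.1 (mem_filter.1 hp).1).2.1⟩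
  have h := s.two_sided hP ((Ico x (x + y)).filter fun m => m ≡ c [MOD M]) (fun _ => 1) dd
    (fun p => 1 / (p : ℝ)) (y / M) 1 (by positivity) zero_le_one (fun _ _ => zero_le_one)
    (fun a _ p _ => dd_bd a p)
    (fun p hp => by
      have := PP_two (mem_filter.1 hp).1
      refine ⟨by positivity, le_rfl, ?_⟩
      rw [div_le_iff₀ (by linarith)]; linarith)
    (fun T hT _ => by
      have hT' : ∀ p ∈ T, p.Prime := fun p hp => hP p (hT hp)
      have hq : 0 < ∏ p ∈ T, p := prod_pos fun p hp => (hT' p hp).pos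
      have hco : M.Coprime (∏ p ∈ T, p) := Nat.Coprime.prod_right fun p hp =>
        ((hT' p hp).coprime_iff_not_dvd.2 (mem_filter.1 (hT hp)).2).symm
      obtain ⟨c', h1, h2⟩ := Nat.chineseRemainder hco c 0
      have h3 := count_class (Nat.mul_pos hM hq) c' (Nat.le_add_right x y)
      simp only [one_mul, prod_dd hT']
      refine le_trans (le_of_eq ?_) h3
      rw [prod_div_distrib, prod_const_one, sum_filter]
      congr 2
      · refine sum_congr rfl fun m _ => ?_
        unfold dd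
        rw [← ite_and]
        refine if_congr ?_ rfl rfl
        rw [← Nat.modEq_and_modEq_iff_modEq_mul hco, ← Nat.modEq_zero_iff_dvd]
        exact ⟨fun h => ⟨h.1.trans h1.symm, h.2.trans h2.symm⟩,
          fun h => ⟨h.1.trans h1, h.2.trans h2⟩⟩
      · push_cast
        field_simp
        ring)
  have e : ∀ m ∈ (Ico x (x + y)).filter (fun m => m ≡ c [MOD M]),
      1 * ∏ p ∈ (PP 0 w).filter (fun p => ¬ p ∣ M), (1 - dd m p) = rr w m := fun m hm => by
    rw [one_mul, ← prod_one_sub_dd]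
    refine prod_subset (filter_subset _ _) fun p hp h1 => ?_
    have h2 : p ∣ M := by_contra fun h2 => h1 (mem_filter.2 ⟨hp, h2⟩)
    have h3 := mem_PP.1 hp
    unfold dd
    rw [if_neg fun h4 => hc p h3.2.2 h3.2.1 h2 (((mem_filter.1 hm).2.dvd_iff h2).1 h4), sub_zero]
  rw [sum_congr rfl e] at h
  refine h.trans (le_of_eq ?_)
  unfold VM
  push_cast
  ring

theorem zPR (h : T_AP) : T_PR := by
  obtain ⟨k0, h⟩ := h
  intro Cw
  obtain ⟨N0, hN0⟩ := ev_lg ((ev_o2_om 4 Cw k0).and (tendsto_ss.eventually_ge_atTop 1))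
  refine ⟨N0 + 1, fun a N w e c hN ha hw hw' he he' hc => ?_⟩
  obtain ⟨h1, h2⟩ := hN0 N (by omega)
  have h3 := (h1 w (lg N) hw' (by omega)).trans ((Nat.pow_le_pow_right (by norm_num)
    (Nat.sqrt_le_self _)).trans (two_pow_lg_le (Q := N) (by omega)))
  have hq : 1 ≤ a * e := Nat.mul_pos ha he
  have a0 : (0 : ℝ) < a := by exact_mod_cast ha
  have e0 : (0 : ℝ) < e := by exact_mod_cast he
  have e8 : (2 : ℝ) ^ (8 * ss (lg N)) = (o2 N : ℝ) ^ 8 := by
    rw [o2_eq, Nat.cast_pow, ← pow_mul, mul_comm, Nat.cast_ofNat]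
  have o1 : (2 : ℝ) ≤ o2 N := by
    exact_mod_cast Nat.le_self_pow (n := ss (lg N)) (by omega) 2
  have eo : (e : ℝ) ≤ o2 N := by exact_mod_cast he'
  have h4 : 4 * (w : ℝ) ^ (4 * (k0 + 8 * ss (lg N)) + 6) * (o2 N : ℝ) ^ 8 ≤ N := by
    rw [← e8]
    exact_mod_cast h3
  have key : ∀ c ∈ RR (a * e), |cl (a * N) (a * e) (rr w) c - N / e * VM w (a * e)| ≤
      N / (e * (o2 N : ℝ) ^ 3) / 2 := fun c hc => by
    have h5 := h (8 * ss (lg N)) w (a * N) (a * N) (a * e) c hw hq fun p hp _ h5 h6 =>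
      hp.ne_one (Nat.eq_one_of_dvd_coprimes (mem_RR.1 hc).2 h6 h5)
    rw [← two_mul, Nat.cast_mul, Nat.cast_mul, mul_div_mul_left _ _ a0.ne', e8] at h5
    unfold cl
    rw [filter_congr fun m _ => mod_eq_iff (mem_RR.1 hc).1]
    refine h5.trans ?_
    have h6 := VM_le_one w (a * e)
    generalize (w : ℝ) ^ (4 * (k0 + 8 * ss (lg N)) + 6) = W at *
    generalize (o2 N : ℝ) = o at *
    have h7 : (4 : ℝ) ≤ o ^ 5 := le_trans (by norm_num) (pow_le_pow_left₀ zero_le_two o1 5)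
    have h8 : N / e * VM w (a * e) / o ^ 8 ≤ N / (e * o ^ 3) / 4 := by
      calc _ ≤ N / e * 1 / (o ^ 3 * 4) := by
            rw [show o ^ 8 = o ^ 3 * o ^ 5 by ring]
            gcongr
        _ = _ := by field_simp
    have h9 : W ≤ N / (e * o ^ 3) / 4 := by
      rw [le_div_iff₀ (by norm_num), le_div_iff₀ (by positivity)]
      rcases le_total W 0 with h0 | h0
      · exact (mul_nonpos_of_nonpos_of_nonneg (by linarith) (by positivity)).trans N.cast_nonneg
      refine le_trans ?_ h4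
      have h10 : o ^ 4 ≤ o ^ 8 := pow_le_pow_right₀ (by linarith) (by norm_num)
      calc W * 4 * (e * o ^ 3) ≤ W * 4 * (o * o ^ 3) := by gcongr
        _ = 4 * W * o ^ 4 := by ring
        _ ≤ _ := by gcongr
    linarith
  have t0 : (0 : ℝ) < (a * e).totient := by exact_mod_cast Nat.totient_pos.2 hq
  have h5 : |tot (a * N) (a * e) (rr w) / (a * e).totient - N / e * VM w (a * e)| ≤
      N / (e * (o2 N : ℝ) ^ 3) / 2 := by
    rw [div_sub' t0.ne', abs_div, abs_of_pos t0, div_le_iff₀ t0, tot_eq hq, ← card_RR,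
      ← nsmul_eq_mul, ← sum_const, ← sum_sub_distrib]
    exact (abs_sum_le_sum_abs _ _).trans ((sum_le_card_nsmul _ _ _ key).trans_eq
      (by rw [nsmul_eq_mul, mul_comm]))
  have h6 := abs_le.1 (key c hc)
  have h7 := abs_le.1 h5
  exact abs_le.2 ⟨by linarith, by linarith⟩

end Pool.Agent.P.MP_746f10_nt.AZ
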