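import Pool.Agent.P.MP_746f10_nt.AZ.Base
import Pool.Agent.P.MP_746f10_nt.AP.Int

/-! A positive proportion of the tuples of reduced residues is admissible. -/

namespace Pool.Agent.P.MP_746f10_nt.AZ

open Finset
open Pool.Agent.P.MP_746f10_nt.AP

namespace AdmP

lemma cp_eq {R : ℕ} (hR : 1 ≤ R) (m : ℕ) : cp R m = ∏ p ∈ R.primeFactors, (1 - dd m p) := by
  by_cases h : m.Coprime R
  · rw [cp_of h]
    refine (prod_eq_one fun p hp => ?_).symm
    have h1 := Nat.mem_primeFactors.1 hp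
    unfold dd
    rw [if_neg fun h2 => h1.1.ne_one (Nat.eq_one_of_dvd_coprimes h h2 h1.2.1), sub_zero]
  · obtain ⟨p, hp, h1, h2⟩ := Nat.Prime.not_coprime_iff_dvd.1 h
    rw [cp_of_not h, prod_eq_zero (Nat.mem_primeFactors.2 ⟨hp, h2, by omega⟩)]
    unfold dd
    rw [if_pos h1, sub_self]

lemma expand (P : Finset ℕ) (x : ℕ → ℝ) :
    ∏ p ∈ P, (1 - x p) = ∑ T ∈ P.powerset, (-1) ^ T.card * ∏ p ∈ T, x p := by
  simp only [sub_eq_add_neg, prod_one_add, prod_neg]

/-- the sieve of Legendre -/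
lemma legendre {R : ℕ} (hR : 1 ≤ R) (x y : ℕ) :
    y * (R.totient / R : ℝ) - R.divisors.card ≤ ∑ m ∈ Ico x (x + y), cp R m := by
  have R0 : (0 : ℝ) < R := by exact_mod_cast hR
  have h1 : (R.totient / R : ℝ) = ∏ p ∈ R.primeFactors, (1 - 1 / (p : ℝ)) := by
    have := congrArg (Rat.cast : ℚ → ℝ) (Nat.totient_eq_mul_prod_factors R)
    rw [div_eq_iff R0.ne', mul_comm]
    simpa using this
  have h2 : 2 ^ R.primeFactors.card ≤ R.divisors.card := by
    rw [Nat.card_divisors (by omega), ← prod_const]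
    refine prod_le_prod' fun p hp => ?_
    have h3 := Nat.mem_primeFactors.1 hp
    have := h3.1.factorization_pos_of_dvd h3.2.2 h3.2.1
    omega
  have h3 : ((R.primeFactors.powerset.card : ℕ) : ℝ) ≤ R.divisors.card := by
    rw [card_powerset]
    exact_mod_cast h2
  simp only [cp_eq hR, h1, expand]
  rw [sum_comm, mul_sum, sub_le_comm, ← sum_sub_distrib]
  refine le_trans (sum_le_card_nsmul _ _ 1 fun T hT => ?_) (by rwa [nsmul_eq_mul, mul_one])
  have hT' : ∀ p ∈ T, p.Prime := fun p hp => Nat.prime_of_mem_primeFactors (mem_powerset.1 hT hp)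
  have h4 := count_class (prod_pos fun p hp => (hT' p hp).pos : 0 < ∏ p ∈ T, p) 0
    (Nat.le_add_right x y)
  rw [← mul_sum, mul_left_comm, ← mul_sub]
  refine (le_abs_self _).trans ?_
  rw [abs_mul, abs_pow, abs_neg, abs_one, one_pow, one_mul, abs_sub_comm]
  simp only [prod_dd hT']
  simp only [IntP.dd_eq]
  refine le_trans (le_of_eq ?_) h4
  rw [prod_div_distrib, prod_const_one]
  push_cast
  congr 2
  ring

/-- many reduced residues give a value coprime to a fixed number -/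
lemma many {M : ℕ} (hM : 1 ≤ M) : ∃ a0 : ℕ, ∀ a n : ℕ, a0 ≤ a → (a.totient : ℝ) / (2 * M) ≤
    ((Ico 1 a).filter fun b => (a * n + b).Coprime (a * M)).card := by
  obtain ⟨C, hC, h⟩ := exists_tau_pow_le 4
  refine ⟨⌈4 * M * (4 * C * M ^ 2) ^ 2⌉₊ + 1, fun a n ha => ?_⟩
  have a1 : 1 ≤ a := by omega
  have a2 : 4 * M * (4 * C * M ^ 2) ^ 2 ≤ (a : ℝ) := Nat.ceil_le.1 (by omega)
  have hR : 1 ≤ a * M := Nat.mul_pos a1 hM
  have M0 : (1 : ℝ) ≤ M := by exact_mod_cast hM
  have a0 : (0 : ℝ) < a := by exact_mod_cast a1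
  have h1 := legendre hR (a * n) a
  have h2 := h _ (by omega : a * M ≠ 0)
  have h3 : a ≤ (a * M).divisors.card * a.totient := by
    conv_lhs => rw [← Nat.sum_totient a]
    refine (sum_le_card_nsmul _ _ a.totient fun d hd => Nat.le_of_dvd (Nat.totient_pos.2 a1)
      (Nat.totient_dvd_of_dvd (Nat.dvd_of_mem_divisors hd))).trans (Nat.mul_le_mul_right _
        (card_le_card (Nat.divisors_subset_of_dvd (by omega) (dvd_mul_right _ _))))
  have h4 : a.totient ≤ (a * M).totient := Nat.le_of_dvd (Nat.totient_pos.2 hR)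
    (Nat.totient_dvd_of_dvd (dvd_mul_right _ _))
  have h5 : 1 ≤ (a * M).divisors.card := card_pos.2 ⟨1, Nat.one_mem_divisors.2 (by omega)⟩
  have h6 : ∑ m ∈ Ico (a * n) (a * n + a), cp (a * M) m ≤
      1 + ((Ico 1 a).filter fun b => (a * n + b).Coprime (a * M)).card := by
    rw [sum_Ico_eq_sum_range, Nat.add_sub_cancel_left, range_eq_Ico, sum_eq_sum_Ico_succ_bot a1,
      card_filter]
    push_cast
    exact add_le_add (cp_bd _ _).2 le_rfl
  have h3' : (a : ℝ) ≤ (a * M).divisors.card * a.totient := by exact_mod_cast h3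
  have h4' : (a.totient : ℝ) ≤ (a * M).totient := by exact_mod_cast h4
  have h5' : (1 : ℝ) ≤ (a * M).divisors.card := by exact_mod_cast h5
  have h7 : (a.totient : ℝ) / M ≤ a * ((a * M).totient / (a * M : ℕ) : ℝ) := by
    rw [Nat.cast_mul, ← mul_div_assoc, mul_div_mul_left _ _ a0.ne']
    gcongr
  have f0 : (0 : ℝ) ≤ a.totient := Nat.cast_nonneg _
  rw [Nat.cast_mul] at h2
  generalize ((a * M).divisors.card : ℝ) = t at *
  generalize (a.totient : ℝ) = f at *
  have h8 : 4 * M * t ≤ f := by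
    by_contra h9
    rw [not_le] at h9
    have b1 : t ^ 2 * t ^ 2 ≤ 4 * C * M ^ 2 * t ^ 2 := by
      calc _ = t ^ 4 := by ring
        _ ≤ C * (a * M) := h2
        _ ≤ C * (t * f * M) := by gcongr
        _ ≤ C * (t * (4 * M * t) * M) := by gcongr
        _ = _ := by ring
    have b2 : t ≤ 4 * C * M ^ 2 :=
      le_trans (by nlinarith) (le_of_mul_le_mul_right b1 (by positivity))
    have b3 : (a : ℝ) < 4 * M * (4 * C * M ^ 2) ^ 2 := by
      calc (a : ℝ) ≤ t * f := h3'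
        _ < t * (4 * M * t) := by gcongr
        _ = 4 * M * t ^ 2 := by ring
        _ ≤ _ := by gcongr
    linarith
  have h9 : 2 * t ≤ f / (2 * M) := by
    rw [le_div_iff₀ (by positivity)]
    linarith
  have h10 : f / M = 2 * (f / (2 * M)) := by field_simp
  linarith

/-- large primes are never an obstruction -/
lemma large {k p : ℕ} {a b : Fin k → ℕ} (hp : p.Prime) (hk : k < p)
    (h : ∀ i, (b i).Coprime (a i)) : ∃ n : ℕ, ∀ i, ¬ p ∣ a i * n + b i := by
  by_contra h0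
  push Not at h0
  have h1 : range p ⊆ univ.biUnion fun i => (range p).filter fun r => p ∣ a i * r + b i :=
    fun r hr => let ⟨i, hi⟩ := h0 r; mem_biUnion.2 ⟨i, mem_univ _, mem_filter.2 ⟨hr, hi⟩⟩
  have h2 := (card_le_card h1).trans (card_biUnion_le.trans (sum_le_card_nsmul _ _ 1 fun i _ => by
    rw [card_le_one]
    intro r hr s hs
    obtain ⟨r1, r2⟩ := mem_filter.1 hr
    obtain ⟨s1, s2⟩ := mem_filter.1 hs
    have h3 : ¬ p ∣ a i := fun h3 => hp.ne_one (Nat.eq_one_of_dvd_coprimes (h i)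
      ((Nat.dvd_add_right (h3.mul_right r)).1 r2) h3)
    have h1 : a i * r ≡ a i * s [MOD p] := Nat.ModEq.add_right_cancel' (b i)
      ((Nat.modEq_zero_iff_dvd.2 r2).trans (Nat.modEq_zero_iff_dvd.2 s2).symm)
    exact (h1.cancel_left_of_coprime ((Nat.Prime.coprime_iff_not_dvd hp).2 h3)).eq_of_lt_of_lt
      (mem_range.1 r1) (mem_range.1 s1)))
  simp at h2
  omega

lemma shift {a b M : ℕ} (h : b.Coprime a) (hM : 1 ≤ M) :
    ∃ n, ∀ p, p.Prime → p ∣ M → ¬ p ∣ a * n + b := by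
  refine ⟨∏ q ∈ M.primeFactors.filter (fun q => ¬ q ∣ b), q, fun p hp h1 h2 => ?_⟩
  by_cases h3 : p ∣ b
  · rcases hp.dvd_mul.1 ((Nat.dvd_add_left h3).1 h2) with h4 | h4
    · exact hp.ne_one (Nat.eq_one_of_dvd_coprimes h h3 h4)
    · obtain ⟨q, hq, h5⟩ := (Prime.dvd_finsetProd_iff hp.prime _).1 h4
      have h6 := mem_filter.1 hq
      rw [← (Nat.prime_dvd_prime_iff_eq hp (Nat.prime_of_mem_primeFactors h6.1)).1 h5] at h6
      exact h6.2 h3
  · refine h3 ((Nat.dvd_add_right (Dvd.dvd.mul_left ?_ a)).1 h2)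
    exact dvd_prod_of_mem _ (mem_filter.2 ⟨Nat.mem_primeFactors.2 ⟨hp, h1, by omega⟩, h3⟩)

end AdmP

open AdmP Classical in
/-- admissible tuples with a prescribed first residue -/
theorem adm_fix (k : ℕ) : ∃ (c : ℝ) (Q0 : ℕ), 0 < c ∧ ∀ (a : Fin (k + 1) → ℕ) (b0 : ℕ),
    (∀ i : Fin k, Q0 ≤ a i.succ) → b0 ∈ RU (a 0) → c * ∏ i : Fin k, ((a i.succ).totient : ℝ) ≤
      ((Fintype.piFinset fun i => Ico 1 (a i)).filter fun b => b 0 = b0 ∧ Adm a b).card := by
  have hM : 1 ≤ (k + 1).factorial := Nat.factorial_pos _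
  obtain ⟨Q0, h⟩ := many hM
  refine ⟨(1 / (2 * (k + 1).factorial)) ^ k, Q0, by positivity, fun a b0 ha hb => ?_⟩
  obtain ⟨n, hn⟩ := shift (mem_RU.1 hb).2 hM
  set S : Fin k → Finset ℕ := fun i => (Ico 1 (a i.succ)).filter
    fun b => (a i.succ * n + b).Coprime (a i.succ * (k + 1).factorial) with hS
  have h1 : (Fintype.piFinset S).card ≤
      ((Fintype.piFinset fun i => Ico 1 (a i)).filter fun b => b 0 = b0 ∧ Adm a b).card := by
    refine card_le_card_of_injOn (fun b => (Fin.cons b0 b : Fin (k + 1) → ℕ)) (fun b hb' => ?_)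
      fun b _ b' _ e => (Fin.cons_injective2 e).2
    have h2 := fun i => mem_filter.1 (Fintype.mem_piFinset.1 hb' i)
    refine mem_filter.2 ⟨Fintype.mem_piFinset.2 (Fin.cases (mem_RU.1 hb).1 fun i => (h2 i).1),
      rfl, fun p hp => ?_⟩
    by_cases h3 : p ∣ (k + 1).factorial
    · refine ⟨n, Fin.cases (hn p hp h3) fun i h4 => ?_⟩
      exact hp.ne_one (Nat.eq_one_of_dvd_coprimes (h2 i).2 h4 (h3.mul_left _))
    · refine large hp (not_le.1 fun h4 => h3 (hp.dvd_factorial.2 h4))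
        (Fin.cases (mem_RU.1 hb).2 fun i => ?_)
      exact (coprime_row _ n _).1 (h2 i).2.coprime_mul_right_right
  calc _ = ∏ i : Fin k, ((a i.succ).totient : ℝ) / (2 * (k + 1).factorial) := by
        rw [prod_div_distrib, prod_const, card_univ, Fintype.card_fin, one_div_pow]
        ring
    _ ≤ ∏ i, ((S i).card : ℝ) := prod_le_prod (fun _ _ => by positivity) fun i _ => h _ n (ha i)
    _ ≤ _ := by
        rw [Fintype.card_piFinset] at h1
        exact_mod_cast h1

open Classical in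
/-- all admissible tuples -/
theorem adm_all (k : ℕ) : ∃ (c : ℝ) (Q0 : ℕ), 0 < c ∧ ∀ a : Fin (k + 1) → ℕ,
    (∀ i : Fin k, Q0 ≤ a i.succ) → 2 ≤ a 0 → c * ∏ i, ((a i).totient : ℝ) ≤
      ((Fintype.piFinset fun i => Ico 1 (a i)).filter (Adm a)).card := by
  obtain ⟨c, Q0, hc, h⟩ := adm_fix k
  refine ⟨c, Q0, hc, fun a ha h2 => ?_⟩
  have h1 : (RU (a 0)).card = (a 0).totient := by
    rw [← card_RR]
    congr 1
    ext b
    rw [mem_RU, mem_RR, mem_Ico]
    refine ⟨fun h => ⟨h.1.2, h.2⟩, fun h => ⟨⟨Nat.pos_of_ne_zero ?_, h.1⟩, h.2⟩⟩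
    rintro rfl
    have := h.2
    rw [Nat.coprime_zero_left] at this
    omega
  have h3 : ∑ b0 ∈ RU (a 0), ((Fintype.piFinset fun i => Ico 1 (a i)).filter
      fun b => b 0 = b0 ∧ Adm a b).card ≤
      ((Fintype.piFinset fun i => Ico 1 (a i)).filter (Adm a)).card := by
    simp only [and_comm (b := Adm a _), ← filter_filter]
    rw [sum_card_fiberwise_eq_card_filter]
    exact card_filter_le _ _
  rw [Fin.prod_univ_succ, mul_left_comm, ← h1, ← nsmul_eq_mul]
  refine (card_nsmul_le_sum _ _ _ fun b0 hb => h a b0 ha hb).trans ?_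
  exact_mod_cast h3

end Pool.Agent.P.MP_746f10_nt.AZ
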