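import Pool.Agent.P.MP_746f10_nt.AZ.Base
import Pool.Agent.P.MP_746f10_nt.AP.TIM
import Pool.Agent.P.MP_746f10_nt.AP.Rows

/-! The exceptional numbers in weighted rows. -/

namespace Pool.Agent.P.MP_746f10_nt.AZ

open Finset Filter
open Pool.Agent.P.MP_746f10_nt.AP
open Pool.Agent.P.MP_746f10_nt.AP.TIMP

namespace Bad2P

variable {w E : ℕ} {η : ℝ}

lemma sum_lam_inv (s : SieveW (PP 0 w) E 1 η) :
    ∑ e ∈ Icc 1 E, lam s e * (1 / (e : ℝ)) ≤ (1 + η) * VV w := by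
  have h : ∑ e ∈ Icc 1 E, lam s e * (1 / (e : ℝ)) =
      ∑ T ∈ (PP 0 w).powerset, s.up T * ∏ p ∈ T, 1 / (p : ℝ) := by
    simp only [lam, sum_filter, sum_mul, ite_mul, zero_mul]
    rw [sum_comm]
    refine sum_congr rfl fun T hT => ?_
    have hT' := mem_powerset.1 hT
    rw [sum_ite_eq, prod_div_distrib, prod_const_one, Nat.cast_prod]
    split_ifs with h
    · rfl
    · by_cases h0 : s.up T = 0
      · rw [h0, zero_mul]
      · exact (h (mem_Icc.2 ⟨prod_pos' hT', s.supp_up T hT' h0⟩)).elim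
  rw [h]
  exact s.up_le _ fun p hp => ⟨by positivity, le_rfl,
    (one_div_le_one_div_of_le two_pos (PP_two hp)).trans (by norm_num)⟩

/-- the majorant of the rough numbers with a divisor in `S` -/
noncomputable def ff (s : SieveW (PP 0 w) E 1 η) (S : Finset ℕ) (m : ℕ) : ℝ :=
  ∑ d ∈ S, ∑ e ∈ Icc 1 E, lam s e * dd m (d * e)

lemma term_eq (s : SieveW (PP 0 w) E 1 η) {d : ℕ} (hd : 1 ≤ d) (m : ℕ) :
    ∑ e ∈ Icc 1 E, lam s e * dd m (d * e) = dd m d * s.U (dd (m / d)) := by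
  rw [← sum_lam, mul_sum]
  refine sum_congr rfl fun e _ => ?_
  rw [mul_left_comm]
  congr 1
  unfold dd
  by_cases h : d ∣ m
  · obtain ⟨k, rfl⟩ := h
    rw [if_pos (dvd_mul_right _ _), one_mul, Nat.mul_div_cancel_left _ hd]
    exact if_congr (Nat.mul_dvd_mul_iff_left hd) rfl rfl
  · rw [if_neg h, zero_mul, if_neg fun h' => h ((dvd_mul_right _ _).trans h')]

lemma term_nonneg (s : SieveW (PP 0 w) E 1 η) {d : ℕ} (hd : 1 ≤ d) (m : ℕ) :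
    0 ≤ ∑ e ∈ Icc 1 E, lam s e * dd m (d * e) := by
  rw [term_eq s hd]
  exact mul_nonneg (dd_bd _ _).1 (s.U_nonneg fun p _ => dd_bd _ p)

lemma ff_nonneg (s : SieveW (PP 0 w) E 1 η) {S : Finset ℕ} (hS : ∀ d ∈ S, 1 ≤ d) (m : ℕ) :
    0 ≤ ff s S m := sum_nonneg fun d hd => term_nonneg s (hS d hd) m

lemma one_le_ff (s : SieveW (PP 0 w) E 1 η) {S : Finset ℕ} (hS : ∀ d ∈ S, 1 ≤ d) {m d : ℕ}
    (hm : rough w m) (hd : d ∈ S) (h : d ∣ m) : 1 ≤ ff s S m := by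
  refine le_trans ?_ (single_le_sum (fun d hd => term_nonneg s (hS d hd) m) hd)
  have h1 := err_nonneg s (m / d)
  rw [rr_of_rough fun p hp h2 => hm p hp (h2.trans (Nat.div_dvd_of_dvd h))] at h1
  rw [term_eq s (hS d hd), dd, if_pos h]
  linarith

lemma ff_eq (s : SieveW (PP 0 w) E 1 η) (S : Finset ℕ) (m : ℕ) :
    ff s S m = (∑ d ∈ S, 1 / (d : ℝ)) * ∑ e ∈ Icc 1 E, lam s e * (1 / (e : ℝ)) +
      ∑ e ∈ Icc 1 E, lam s e * ∑ d ∈ S, (dd m (d * e) - 1 / ((d * e : ℕ) : ℝ)) := by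
  rw [ff, sum_comm, mul_sum, ← sum_add_distrib]
  refine sum_congr rfl fun e _ => ?_
  rw [sum_mul, mul_sum, ← sum_add_distrib]
  refine sum_congr rfl fun d _ => ?_
  rw [Nat.cast_mul, ← one_div_mul_one_div]
  ring

/-- the weight of a row, spread over the starting points of the windows that contain it -/
noncomputable def uu (a N : ℕ) (U : ℕ → ℝ) (y : ℕ) : ℝ :=
  if y ∈ Ico (a * (N - 1)) (a * (2 * N - 1)) then U (y / a + 1) else 0

lemma abs_uu {a N : ℕ} {U : ℕ → ℝ} (hU : ∀ n, 0 ≤ U n ∧ U n ≤ 1) (y : ℕ) : |uu a N U y| ≤ 1 := by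
  unfold uu
  split_ifs
  · rw [abs_of_nonneg (hU _).1]
    exact (hU _).2
  · simp

lemma avg {a N : ℕ} (ha : 1 ≤ a) (hN : 2 ≤ N) (U W : ℕ → ℝ) :
    ∑ y ∈ Icc 1 (2 * a * N), uu a N U y * W y =
      ∑ n ∈ Ico N (2 * N), U n * ∑ i ∈ range a, W (a * (n - 1) + i) := by
  have h1 : Ico (a * (N - 1)) (a * (2 * N - 1)) ⊆ Icc 1 (2 * a * N) := fun y hy => by
    have h2 := mem_Ico.1 hy
    have h3 : 1 ≤ a * (N - 1) := Nat.mul_pos ha (by omega)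
    have h4 : a * (2 * N - 1) ≤ a * (2 * N) := Nat.mul_le_mul_left a (by omega)
    exact mem_Icc.2 ⟨by omega, by nlinarith⟩
  simp only [uu, ite_mul, zero_mul]
  rw [sum_ite_mem, inter_eq_right.2 h1,
    ← sum_rows a (N - 1) (2 * N - 1) (by omega) fun y => U (y / a + 1) * W y]
  conv_rhs => rw [show Ico N (2 * N) = Ico (N - 1 + 1) (2 * N - 1 + 1) by congr 1 <;> omega,
    ← sum_Ico_add']
  refine sum_congr rfl fun n _ => ?_
  rw [mul_sum]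
  refine sum_congr rfl fun i hi => ?_
  rw [Nat.mul_add_div ha, Nat.div_eq_of_lt (mem_range.1 hi), add_zero, Nat.add_sub_cancel]

lemma row_win {F : ℕ → ℝ} (hF : ∀ m, 0 ≤ F m) {a n : ℕ} (hn : 1 ≤ n) :
    a * ∑ b ∈ Ico 1 a, F (a * n + b) ≤
      ∑ i ∈ range a, ∑ j ∈ range (2 * a), F (a * (n - 1) + i + j) := by
  refine le_trans (le_of_eq ?_) (card_nsmul_le_sum _ _ (∑ b ∈ Ico 1 a, F (a * n + b))
    fun i hi => ?_)
  · rw [card_range, nsmul_eq_mul]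
  have h1 := mem_range.1 hi
  have h2 : a * n = a * (n - 1) + a := by
    obtain ⟨k, rfl⟩ : ∃ k, n = k + 1 := ⟨n - 1, by omega⟩
    rw [Nat.add_sub_cancel, Nat.mul_succ]
  calc _ = ∑ b ∈ Ico 1 a, F (a * (n - 1) + i + (b + (a - i))) :=
        sum_congr rfl fun b _ => congrArg F (by omega)
    _ = ∑ j ∈ Ico (1 + (a - i)) (a + (a - i)), F (a * (n - 1) + i + j) :=
        sum_Ico_add' (fun j => F (a * (n - 1) + i + j)) 1 a (a - i)
    _ ≤ _ := sum_le_sum_of_subset_of_nonneg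
        (fun j hj => mem_range.2 (by have := mem_Ico.1 hj; omega)) fun _ _ _ => hF _

lemma key (s : SieveW (PP 0 w) E 1 η) {S : Finset ℕ} (hS : ∀ d ∈ S, 1 ≤ d) {a N : ℕ} (ha : 1 ≤ a)
    (hN : 2 ≤ N) {U : ℕ → ℝ} (hU : ∀ n, 0 ≤ U n ∧ U n ≤ 1) {K M : ℝ}
    (hK : ∀ e ∈ Icc 1 E, |∑ y ∈ Icc 1 (2 * a * N), uu a N U y * ∑ j ∈ range (2 * a),
      ∑ d ∈ S, (dd (y + j) (d * e) - 1 / ((d * e : ℕ) : ℝ))| ≤ K)
    (hM : (∑ d ∈ S, 1 / (d : ℝ)) * ∑ e ∈ Icc 1 E, lam s e * (1 / (e : ℝ)) ≤ M) :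
    a * ∑ n ∈ Ico N (2 * N), U n * ∑ b ∈ Ico 1 a, ff s S (a * n + b) ≤
      a * (2 * a * M * ∑ n ∈ Ico N (2 * N), U n) + E * K := by
  have h1 : a * ∑ n ∈ Ico N (2 * N), U n * ∑ b ∈ Ico 1 a, ff s S (a * n + b) ≤
      ∑ y ∈ Icc 1 (2 * a * N), uu a N U y * ∑ j ∈ range (2 * a), ff s S (y + j) := by
    rw [avg ha hN, mul_sum]
    refine sum_le_sum fun n hn => ?_
    rw [mul_left_comm]
    exact mul_le_mul_of_nonneg_left (row_win (ff_nonneg s hS)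
      (by have := mem_Ico.1 hn; omega)) (hU n).1
  have h2 := avg ha hN U fun _ => 1
  simp only [sum_const, card_range, nsmul_eq_mul, mul_one] at h2
  rw [← sum_mul] at h2
  have h0 : 0 ≤ ∑ n ∈ Ico N (2 * N), U n := sum_nonneg fun n _ => (hU n).1
  generalize hμ : (∑ d ∈ S, 1 / (d : ℝ)) * ∑ e ∈ Icc 1 E, lam s e * (1 / (e : ℝ)) = μ at hM
  have h3 : ∑ y ∈ Icc 1 (2 * a * N), uu a N U y * ∑ j ∈ range (2 * a), ff s S (y + j) =
      (∑ y ∈ Icc 1 (2 * a * N), uu a N U y) * (2 * a * μ) + ∑ e ∈ Icc 1 E, lam s e *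
        ∑ y ∈ Icc 1 (2 * a * N), uu a N U y * ∑ j ∈ range (2 * a),
          ∑ d ∈ S, (dd (y + j) (d * e) - 1 / ((d * e : ℕ) : ℝ)) := by
    simp only [ff_eq, hμ, sum_add_distrib, sum_const, card_range, nsmul_eq_mul, mul_add]
    rw [← sum_mul]
    congr 1
    · push_cast
      rfl
    · simp only [mul_sum (Icc 1 (2 * a * N))]
      rw [sum_comm (s := Icc 1 E)]
      refine sum_congr rfl fun y _ => ?_
      rw [sum_comm, mul_sum]
      refine sum_congr rfl fun e _ => ?_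
      rw [← mul_sum, mul_left_comm]
  have h4 : ∑ e ∈ Icc 1 E, lam s e *
      ∑ y ∈ Icc 1 (2 * a * N), uu a N U y * ∑ j ∈ range (2 * a),
        ∑ d ∈ S, (dd (y + j) (d * e) - 1 / ((d * e : ℕ) : ℝ)) ≤ E * K := by
    refine (sum_le_card_nsmul _ _ K fun e he => (le_abs_self _).trans ?_).trans (le_of_eq ?_)
    · rw [abs_mul]
      exact (mul_le_of_le_one_left (abs_nonneg _) (abs_lam s e)).trans (hK e he)
    · rw [Nat.card_Icc, Nat.add_sub_cancel, nsmul_eq_mul]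
  have h5 : (∑ n ∈ Ico N (2 * N), U n) * a * (2 * a * μ) ≤
      (∑ n ∈ Ico N (2 * N), U n) * a * (2 * a * M) := by gcongr
  rw [h3, h2] at h1
  linarith

lemma img {S : Finset ℕ} {D e : ℕ} (he : 1 ≤ e) (hS : ∀ d ∈ S, 1 ≤ d ∧ d * e ≤ D) (F : ℕ → ℝ) :
    ∑ d ∈ Icc 1 D, (if d ∈ S.image (· * e) then (1 : ℝ) else 0) * F d = ∑ d ∈ S, F (d * e) := by
  simp only [ite_mul, one_mul, zero_mul]
  rw [sum_ite_mem, inter_eq_right.2, sum_image fun x _ y _ h => Nat.eq_of_mul_eq_mul_right he h]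
  intro x hx
  obtain ⟨d, hd, rfl⟩ := mem_image.1 hx
  exact mem_Icc.2 ⟨Nat.mul_pos (hS d hd).1 he, (hS d hd).2⟩

lemma num {Q a N A c : ℕ} {C : ℝ} (hR : Rg Q a N) (hQ : 1 ≤ Q) (hg : 20 ≤ lg Q) (hC : 0 < C)
    (hc : C ≤ c) (hE : E ≤ 2 ^ (lg Q / 20)) (h : 1536 * c * lg Q ^ (A + 2) ≤ 2 ^ (lg Q / 20)) :
    E * (C * (1 + Real.log (2 ^ (4 * lg Q / 3 + 7 + lg Q / 20) : ℕ)) ^ 2 *
      √(((2 * a * N : ℕ) + ((2 ^ (4 * lg Q / 3 + 7 + lg Q / 20) : ℕ) : ℝ) ^ 2) *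
        (2 * a * N : ℕ) * (2 * a : ℕ))) ≤ a * (a * N / (lg Q : ℝ) ^ A) := by
  have a1 := two_pow_lg_le hQ
  have a2 := (lt_two_pow_lg Q).le
  have a3 := hR.Q_le
  have a4 := hR.1
  have a5 := hR.2.1
  generalize lg Q = g at *
  have b1 : 2 * a * N ≤ (2 ^ (4 * g / 3 + 7 + g / 20)) ^ 2 := by
    calc 2 * a * N ≤ 4 * Q ^ 2 := by nlinarith
      _ ≤ 4 * (2 ^ (g + 1)) ^ 2 := by gcongr
      _ = 2 ^ (2 * g + 4) := by ring
      _ ≤ _ := by
        rw [← pow_mul]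
        exact Nat.pow_le_pow_right two_pos (by omega)
  have b2 : (2 ^ (4 * g / 3) * (2 ^ (g / 20)) ^ 3) ^ 2 ≤ a ^ 2 * N := by
    calc _ ≤ (2 ^ g) ^ 3 := by
          simp only [← pow_mul, ← pow_add]
          exact Nat.pow_le_pow_right two_pos (by omega)
      _ ≤ Q ^ 3 := by gcongr
      _ = Q * Q ^ 2 := by ring
      _ ≤ a * (a * N) := by gcongr
      _ = _ := by ring
  have b3 : 1 + Real.log (2 ^ (4 * g / 3 + 7 + g / 20) : ℕ) ≤ 2 * g := by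
    have c1 : ((4 * g / 3 + 7 + g / 20 : ℕ) : ℝ) + 1 ≤ 2 * g := by
      exact_mod_cast (by omega : 4 * g / 3 + 7 + g / 20 + 1 ≤ 2 * g)
    have c2 := Real.log_two_lt_d9
    have c3 : (0 : ℝ) ≤ ((4 * g / 3 + 7 + g / 20 : ℕ) : ℝ) := Nat.cast_nonneg _
    rw [Nat.cast_pow, Real.log_pow, Nat.cast_ofNat]
    nlinarith
  have b4 := Real.log_natCast_nonneg (2 ^ (4 * g / 3 + 7 + g / 20))
  have b5 : 2 ^ (4 * g / 3 + 7 + g / 20) = 128 * (2 ^ (4 * g / 3) * 2 ^ (g / 20)) := by ring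
  generalize Real.log (2 ^ (4 * g / 3 + 7 + g / 20) : ℕ) = L at *
  rw [b5] at b1 ⊢
  generalize 2 ^ (4 * g / 3) = B at *
  generalize 2 ^ (g / 20) = P at *
  have hr := Real.sq_sqrt (Nat.cast_nonneg (α := ℝ) N)
  have hr0 := Real.sqrt_nonneg (N : ℝ)
  have r1 : 2 * (a : ℝ) * N ≤ (128 * (B * P)) ^ 2 := by exact_mod_cast b1
  have r2 : (B : ℝ) * P ^ 3 ≤ a * √N := by
    refine (pow_le_pow_iff_left₀ (by positivity) (by positivity) two_ne_zero).1 ?_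
    rw [mul_pow (a : ℝ), hr]
    exact_mod_cast b2
  have r3 : √(((2 * a * N : ℕ) + ((128 * (B * P) : ℕ) : ℝ) ^ 2) * (2 * a * N : ℕ) * (2 * a : ℕ)) ≤
      3 * (128 * (B * P)) * a * √N := by
    rw [Real.sqrt_le_left (by positivity), mul_pow _ (√(N : ℝ)), hr]
    push_cast
    generalize (128 * (B * P) : ℝ) = D at *
    have : (0 : ℝ) ≤ a ^ 2 * N := by positivity
    nlinarith [mul_le_mul_of_nonneg_right r1 this, mul_nonneg (sq_nonneg D) this]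
  have r4 : (E : ℝ) ≤ P := by exact_mod_cast hE
  have r5 : 1536 * (c : ℝ) * (g : ℝ) ^ (A + 2) ≤ P := by exact_mod_cast h
  have hg0 : (0 : ℝ) < g := by exact_mod_cast (by omega : 0 < g)
  rw [← mul_div_assoc, le_div_iff₀ (by positivity)]
  calc _ ≤ P * (c * (2 * g) ^ 2 * (3 * (128 * (B * P)) * a * √N)) * (g : ℝ) ^ A := by gcongr
    _ = 1536 * c * (g : ℝ) ^ (A + 2) * (B * P ^ 2) * (a * √N) := by ring
    _ ≤ P * (B * P ^ 2) * (a * √N) := by gcongr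
    _ = B * P ^ 3 * (a * √N) := by ring
    _ ≤ a * √N * (a * √N) := by gcongr
    _ = a * (a * √N ^ 2) := by ring
    _ = _ := by rw [hr]

end Bad2P

open Bad2P

theorem zBad2 (h1 : T_RV) (h2 : T_Maj) : T_Bad2 := by
  obtain ⟨C, hC, h1⟩ := h1
  obtain ⟨k0, hs⟩ := exists_sieve 1 zero_le_one
  intro u A ε hu hε
  obtain ⟨v, hv⟩ : ∃ v, v = u * (20 * (4 * (k0 + 0) + 6)) := ⟨_, rfl⟩
  have v1 : u ≤ v := hv ▸ Nat.le_mul_of_pos_right u (by omega)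
  have v2 : 20 * (4 * (k0 + 0) + 6) ≤ v := hv ▸ Nat.le_mul_of_pos_left _ hu
  have v0 : (0 : ℝ) < v := by exact_mod_cast (by omega : 0 < v)
  obtain ⟨Q1, h2⟩ := h2 u (ε / (16 * v)) hu (by positivity)
  obtain ⟨Q2, h3⟩ := ev_lg ((ev_pow_le_div (1536 * ⌈C⌉₊) (A + 2) 20 (by norm_num)).and
    (eventually_ge_atTop v))
  refine ⟨Q1 + Q2 + 2, fun Q a N U hQ hR hU => ?_⟩
  obtain ⟨S, hS, hS1, hS2⟩ := h2 Q (by omega)
  obtain ⟨e1, e2⟩ := h3 Q (by omega)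
  have ha : 1 ≤ a := le_trans (by omega) hR.Q_le
  have hN : 2 ≤ N := by
    have := hR.Q_le_sq
    by_contra h
    have : N ^ 2 ≤ 1 ^ 2 := Nat.pow_le_pow_left (by omega) 2
    omega
  have hz : 2 ≤ 2 ^ (lg Q / v) :=
    Nat.le_self_pow (by have := (Nat.le_div_iff_mul_le (by omega : 0 < v)).2 (by omega : 1 * v ≤ lg Q)
                        omega) 2
  obtain ⟨s⟩ := hs 0 (2 ^ (lg Q / v)) (PP 0 _) hz fun p hp => ⟨PP_prime hp, (mem_PP.1 hp).2.1⟩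
  have hE : (2 ^ (lg Q / v)) ^ (4 * (k0 + 0) + 6) ≤ 2 ^ (lg Q / 20) := by
    rw [← pow_mul]
    refine Nat.pow_le_pow_right two_pos ((Nat.le_div_iff_mul_le (by norm_num)).2 ?_)
    calc _ = lg Q / v * (20 * (4 * (k0 + 0) + 6)) := by ring
      _ ≤ lg Q / v * v := Nat.mul_le_mul_left _ v2
      _ ≤ _ := Nat.div_mul_le_self _ _
  generalize (2 ^ (lg Q / v)) ^ (4 * (k0 + 0) + 6) = E at s hE
  have hg0 : (0 : ℝ) < lg Q := by exact_mod_cast (by omega : 0 < lg Q)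
  have hM : (∑ d ∈ S, 1 / (d : ℝ)) * ∑ e ∈ Icc 1 E, lam s e * (1 / (e : ℝ)) ≤
      ε / (16 * v) * (8 * v / lg Q) := by
    have b1 := sum_lam_inv s
    have b2 := RowsP.VV_pow_le (by omega : 1 ≤ v) e2
    have b3 : ∑ e ∈ Icc 1 E, lam s e * (1 / (e : ℝ)) ≤ 8 * v / lg Q := by
      refine b1.trans ?_
      rw [le_div_iff₀ hg0, pow_zero]
      linarith
    exact (mul_le_mul_of_nonneg_left b3 (sum_nonneg fun _ _ => by positivity)).trans
      (mul_le_mul_of_nonneg_right hS1 (by positivity))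
  have hK := key s (fun d hd => (hS d hd).1) ha hN hU (fun e he => by
    have b1 := mem_Icc.1 he
    have b2 := h1 (2 * a * N) (2 * a) (2 ^ (4 * lg Q / 3 + 7 + lg Q / 20))
      (fun d => if d ∈ S.image (· * e) then (1 : ℝ) else 0) (uu a N U) Nat.one_le_two_pow
      (fun d => by split_ifs <;> simp) (abs_uu hU)
    simp only [img b1.1 fun d hd => ⟨(hS d hd).1, pow_add 2 _ (lg Q / 20) ▸
      Nat.mul_le_mul (hS d hd).2 (b1.2.trans hE)⟩] at b2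
    exact b2) hM
  have hn := num hR (by omega) (by omega) hC (Nat.le_ceil C) hE e1
  have ha0 : (0 : ℝ) < a := by exact_mod_cast ha
  have hb : ∑ n ∈ Ico N (2 * N), U n * ∑ b ∈ Ico 1 a, bad u Q (a * n + b) ≤
      ∑ n ∈ Ico N (2 * N), U n * ∑ b ∈ Ico 1 a, ff s S (a * n + b) := by
    refine sum_le_sum fun n hn => mul_le_mul_of_nonneg_left (sum_le_sum fun b hb => ?_) (hU n).1
    by_cases h0 : bad u Q (a * n + b) = 0
    · rw [h0]
      exact ff_nonneg s (fun d hd => (hS d hd).1) _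
    · obtain ⟨c1, d, c2, c3⟩ := hS2 _ (hR.entry hn hb).1 (hR.entry hn hb).2 h0
      exact (bad_bd _ _ _).2.trans (one_le_ff s (fun d hd => (hS d hd).1) (rough_anti
        (Nat.pow_le_pow_right two_pos (Nat.div_le_div_left v1 hu)) c1) c2 c3)
  refine hb.trans (le_of_mul_le_mul_left (hK.trans ?_) ha0)
  rw [mul_add, show 2 * (a : ℝ) * (ε / (16 * v) * (8 * v / lg Q)) = ε * a / lg Q by
    field_simp
    ring]
  exact add_le_add le_rfl hn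

end Pool.Agent.P.MP_746f10_nt.AZ
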