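import Pool.Agent.P.MP_746f10_nt.AZ.Base

/-! Bilinear sums in residue classes, on average over the classes. -/

namespace Pool.Agent.P.MP_746f10_nt.AZ

open Finset ComplexConjugate
open Pool.Agent.P.MP_746f10_nt.AP

namespace BilP

/-- the discrepancy of one number -/
noncomputable def ee (q m c : ℕ) : ℝ := (if m % q = c then 1 else 0) - cp q m / q.totient

lemma sum_ee {q : ℕ} (hq : 1 ≤ q) (m : ℕ) : ∑ c ∈ RR q, |ee q m c| ≤ 2 := by
  have t0 : (0 : ℝ) < q.totient := by exact_mod_cast Nat.totient_pos.2 hq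
  have h1 : ∀ c ∈ RR q, |ee q m c| ≤ (if m % q = c then 1 else 0) + 1 / (q.totient : ℝ) :=
    fun c _ => by
      refine (abs_sub _ _).trans (add_le_add (by split_ifs <;> simp) ?_)
      rw [abs_of_nonneg (div_nonneg (cp_bd _ _).1 t0.le)]
      gcongr
      exact (cp_bd _ _).2
  refine (sum_le_sum h1).trans ?_
  rw [sum_add_distrib, sum_ite_eq, sum_const, card_RR, nsmul_eq_mul, mul_one_div_cancel t0.ne']
  split_ifs <;> norm_num

lemma conv {P : ℕ} {S : Finset ℕ} (hS : S ⊆ PP P (2 * P))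
    (h : ∀ p ∈ S, ∀ p' ∈ S, ∀ r, r.Prime → p ≤ r → r ≤ p' → r ∈ S) :
    ∃ x y, P ≤ x ∧ x ≤ y ∧ y ≤ 2 * P ∧ S = PP x y := by
  rcases S.eq_empty_or_nonempty with rfl | hn
  · exact ⟨P, P, le_rfl, le_rfl, by omega, by simp [PP]⟩
  have h1 := mem_PP.1 (hS (S.min'_mem hn))
  have h2 := mem_PP.1 (hS (S.max'_mem hn))
  have h3 := S.min'_le _ (S.max'_mem hn)
  refine ⟨S.min' hn - 1, S.max' hn, by omega, by omega, h2.2.1, ?_⟩
  ext r
  rw [mem_PP]
  exact ⟨fun hr => ⟨by have := S.min'_le r hr; omega, S.le_max' r hr, PP_prime (hS hr)⟩,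
    fun hr => h _ (S.min'_mem hn) _ (S.max'_mem hn) r hr.2.2 (by omega) hr.2.1⟩

open Classical in
lemma piece (H : T_PlA) {q L y0 : ℕ} (hq : 1 ≤ q) {K : ℝ} (hK : 0 ≤ K) {β : ℕ → ℝ}
    (hβ : ∀ l, 0 ≤ β l ∧ β l ≤ 1) {S Λ : Finset ℕ} (hΛ : Λ ⊆ Ico y0 (y0 + L))
    (hS : ∀ χ : DirichletCharacter ℂ q, χ ≠ 1 → ‖∑ p ∈ S, χ p‖ ≤ K) :
    ∑ c ∈ RR q, |∑ l ∈ Λ, β l * ∑ p ∈ S, ee q (p * l) c| ≤ K * (L + q) := by
  have : NeZero q := ⟨by omega⟩
  have q0 : (0 : ℝ) < q := by exact_mod_cast hq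
  have t0 : (q.totient : ℂ) ≠ 0 := by exact_mod_cast (Nat.totient_pos.2 hq).ne'
  set f1 : ZMod q → ℝ := fun z => ∑ p ∈ S, ((if (p : ZMod q) = z then 1 else 0) - cp q p / q.totient)
    with hf1
  set f2 : ZMod q → ℝ := fun y => ∑ l ∈ Λ, if (l : ZMod q) * y = 1 then β l else 0 with hf2
  have f20 : ∀ y, 0 ≤ f2 y := fun y => sum_nonneg fun l _ => by
    split_ifs
    exacts [(hβ l).1, le_rfl]
  have h1 := H q (fun z => f1 z) (fun y => f2 y) K (fun y hy => by
    simp only [hf2]
    rw [sum_eq_zero fun l _ => if_neg fun h => hy (IsUnit.of_mul_eq_one_right _ h),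
      Complex.ofReal_zero]) fun χ => by
    have e1 : ∑ z, (f1 z : ℂ) * conj (χ z) =
        conj (∑ p ∈ S, (χ p - (cp q p : ℂ) / q.totient * ∑ z, χ z)) := by
      simp only [hf1, Complex.ofReal_sum, sum_mul, map_sum, map_sub, map_mul, map_div₀,
        Complex.conj_ofReal, Complex.conj_natCast, mul_sum]
      rw [sum_comm]
      refine sum_congr rfl fun p _ => ?_
      simp only [Complex.ofReal_sub, sub_mul, sum_sub_distrib, apply_ite Complex.ofReal, ite_mul,
        Complex.ofReal_one, Complex.ofReal_zero, one_mul, zero_mul, sum_ite_eq, mem_univ, if_true,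
        Complex.ofReal_div, Complex.ofReal_natCast]
    rw [e1, Complex.norm_conj]
    by_cases hχ : χ = 1
    · subst hχ
      rw [sum_eq_zero fun p _ => ?_, norm_zero]
      · exact hK
      rw [MulChar.sum_one_eq_card_units, ZMod.card_units_eq_totient, div_mul_cancel₀ _ t0]
      by_cases h0 : p.Coprime q
      · rw [cp_of h0, MulChar.one_apply ((ZMod.isUnit_iff_coprime _ _).2 h0)]
        simp
      · rw [cp_of_not h0, MulChar.map_nonunit _ fun h => h0 ((ZMod.isUnit_iff_coprime _ _).1 h)]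
        simp
    · simp only [MulChar.sum_eq_zero_of_ne_one hχ, mul_zero, sub_zero]
      exact hS χ hχ
  have h2 : ∀ c ∈ RR q, ∑ l ∈ Λ, β l * ∑ p ∈ S, ee q (p * l) c = ∑ y, f1 (c * y) * f2 y :=
    fun c hc => by
      simp only [hf2, mul_sum (s := Λ)]
      rw [sum_comm]
      refine sum_congr rfl fun l _ => ?_
      by_cases h0 : l.Coprime q
      · obtain ⟨u, hu⟩ := (ZMod.isUnit_iff_coprime _ _).2 h0
        rw [sum_eq_single (↑u⁻¹ : ZMod q) (fun y _ hy => ?_) (fun h => absurd (mem_univ _) h),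
          if_pos (by rw [← hu, Units.mul_inv]), mul_comm]
        · congr 1
          refine sum_congr rfl fun p _ => ?_
          unfold ee cp
          rw [if_congr (mod_eq_iff_cast (mem_RR.1 hc).1) rfl rfl, Nat.cast_mul, ← hu,
            if_congr (Units.eq_mul_inv_iff_mul_eq u).symm rfl rfl,
            if_congr (Nat.coprime_mul_iff_left.trans (and_iff_left h0)) rfl rfl]
        · rw [if_neg fun h => hy ?_, mul_zero]
          rw [← hu] at h
          exact (Units.inv_eq_of_mul_eq_one_right h).symm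
      · rw [sum_eq_zero fun p _ => ?_, mul_zero, sum_eq_zero fun y _ => ?_]
        · rw [if_neg fun h => h0 ((ZMod.isUnit_iff_coprime _ _).1 (IsUnit.of_mul_eq_one _ h)),
            mul_zero]
        · have h3 : ¬ (p * l).Coprime q := fun h => h0 h.coprime_mul_left
          unfold ee
          rw [if_neg fun h => h3 (coprime_of_mod hc h), cp_of_not h3]
          simp
  have h3 : ∀ y, f2 y ≤ L / q + 1 := fun y => by
    have h4 := (abs_le.1 (count_class hq (y⁻¹).val (Nat.le_add_right y0 L))).2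
    rw [Nat.cast_add, add_sub_cancel_left] at h4
    refine le_trans ((sum_le_sum fun l _ => ?_).trans (sum_le_sum_of_subset_of_nonneg hΛ
      (f := fun l => if l ≡ (y⁻¹).val [MOD q] then (1 : ℝ) else 0)
      fun _ _ _ => by split_ifs <;> norm_num)) (by linarith)
    split_ifs with h5 h6
    · exact (hβ l).2
    · refine absurd ((ZMod.natCast_eq_natCast_iff _ _ _).1 ?_) h6
      rw [ZMod.natCast_zmod_val]
      exact (ZMod.inv_eq_of_mul_eq_one _ _ _ (by rw [mul_comm]; exact h5)).symm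
    · exact le_rfl.trans (by norm_num)
    · exact le_rfl
  have h4 : ∑ y, f2 y ≤ L := by
    simp only [hf2]
    rw [sum_comm]
    refine (sum_le_card_nsmul _ _ 1 fun l _ => ?_).trans ?_
    · refine (sum_le_sum (g := fun y => if y = (l : ZMod q)⁻¹ then (1 : ℝ) else 0)
        fun y _ => ?_).trans (by simp)
      split_ifs with h5 h6
      · exact (hβ l).2
      · exact absurd (ZMod.inv_eq_of_mul_eq_one _ _ _ h5).symm h6
      · norm_num
      · exact le_rfl
    · rw [nsmul_eq_mul, mul_one]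
      exact_mod_cast (card_le_card hΛ).trans (by simp)
  have h5 : ∑ y, ‖(f2 y : ℂ)‖ ^ 2 ≤ (L / q + 1) * L := by
    refine le_trans (sum_le_sum fun y _ => ?_) ((mul_sum _ _ _).symm.trans_le
      (mul_le_mul_of_nonneg_left h4 (by positivity)))
    rw [Complex.norm_real, Real.norm_of_nonneg (f20 y), sq]
    exact mul_le_mul_of_nonneg_right (h3 y) (f20 y)
  rw [sum_congr rfl fun c hc => by rw [h2 c hc], sum_RR fun x => |∑ y, f1 (x * y) * f2 y|]
  refine abs_le_of_sq_le_sq' ?_ (by positivity) |>.2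
  refine (sq_sum_le_card_mul_sum_sq).trans ?_
  have h6 : (((univ.filter IsUnit : Finset (ZMod q)).card : ℕ) : ℝ) ≤ q := by
    exact_mod_cast (card_filter_le _ _).trans (by simp)
  have h7 : ∑ x ∈ univ.filter IsUnit, |∑ y, f1 (x * y) * f2 y| ^ 2 ≤ K ^ 2 * ((L / q + 1) * L) := by
    refine le_trans (le_of_eq (sum_congr rfl fun x _ => ?_)) (h1.trans (by gcongr))
    simp only [Complex.conj_ofReal, ← Complex.ofReal_mul, ← Complex.ofReal_sum, Complex.norm_real,
      Real.norm_eq_abs]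
  calc _ ≤ q * (K ^ 2 * ((L / q + 1) * L)) := by gcongr
    _ = K ^ 2 * ((L + q) * L) := by field_simp
    _ ≤ K ^ 2 * ((L + q) * (L + q)) := by gcongr; linarith
    _ = _ := by ring

lemma cv_eq {X P : ℕ} (β G : ℕ → ℝ) :
    ∑ m ∈ Ico X (2 * X), cv (fun p => if p ∈ PP P (2 * P) then (1 : ℝ) else 0) β m * G m =
      ∑ p ∈ PP P (2 * P), ∑ l ∈ range (2 * X),
        if X ≤ p * l ∧ p * l < 2 * X then β l * G (p * l) else 0 := by
  unfold cv
  simp only [sum_mul, ite_mul, one_mul, zero_mul, ← sum_filter]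
  rw [sum_sigma', sum_sigma']
  refine sum_nbij' (fun x => ⟨x.2.1, x.2.2⟩) (fun x => ⟨x.1 * x.2, x.1, x.2⟩) ?_ ?_ ?_ ?_ ?_
  · rintro ⟨m, p, l⟩ h
    simp only [mem_sigma, mem_filter, mem_Ico, Nat.mem_divisorsAntidiagonal, mem_range] at h ⊢
    obtain ⟨h1, ⟨rfl, -⟩, h2⟩ := h
    exact ⟨h2, lt_of_le_of_lt (Nat.le_mul_of_pos_left l (PP_prime h2).pos) h1.2, h1⟩
  · rintro ⟨p, l⟩ h
    simp only [mem_sigma, mem_filter, mem_Ico, Nat.mem_divisorsAntidiagonal, mem_range] at h ⊢
    exact ⟨h.2.2, ⟨trivial, by omega⟩, h.1⟩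
  · rintro ⟨m, p, l⟩ h
    simp only [mem_sigma, mem_filter, Nat.mem_divisorsAntidiagonal] at h
    obtain ⟨-, ⟨rfl, -⟩, -⟩ := h
    rfl
  · rintro ⟨p, l⟩ _
    rfl
  · rintro ⟨m, p, l⟩ h
    simp only [mem_sigma, mem_filter, Nat.mem_divisorsAntidiagonal] at h
    obtain ⟨-, ⟨rfl, -⟩, -⟩ := h
    rfl

/-- the whole piece lies in the range -/
def In (X L p i : ℕ) : Prop := X ≤ p * (i * L) ∧ p * ((i + 1) * L) ≤ 2 * X

open Classical in
lemma edge {X L p : ℕ} (hL : 1 ≤ L) (hp : 1 ≤ p) : ((range (2 * X)).filter fun l =>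
    (X ≤ p * l ∧ p * l < 2 * X) ∧ ¬ In X L p (l / L)).card ≤ 2 * L := by
  refine (card_le_card (t := Ico ((X - 1) / (p * L) * L) ((X - 1) / (p * L) * L + L) ∪
    Ico (2 * X / (p * L) * L) (2 * X / (p * L) * L + L)) fun l hl => ?_).trans
    ((card_union_le _ _).trans (by simp; omega))
  obtain ⟨h1, h2⟩ := (mem_filter.1 hl).2
  have h3 := Nat.div_mul_le_self l L
  have h4 := Nat.lt_div_mul_add (a := l) hL
  have h5 : p * (l / L * L) ≤ p * l := Nat.mul_le_mul_left _ h3
  have h6 : p * l < p * ((l / L + 1) * L) := Nat.mul_lt_mul_of_pos_left (by linarith) hp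
  rw [In, not_and_or, not_le, not_le] at h2
  rw [mem_union, mem_Ico, mem_Ico]
  generalize l / L = i at *
  have e1 : i * (p * L) = p * (i * L) := by ring
  have e2 : (i + 1) * (p * L) = p * ((i + 1) * L) := by ring
  rcases h2 with h2 | h2
  · rw [Nat.div_eq_of_lt_le (k := i) (by omega) (by omega)]
    exact Or.inl ⟨h3, h4⟩
  · rw [Nat.div_eq_of_lt_le (m := 2 * X) (k := i) (by omega) (by omega)]
    exact Or.inr ⟨h3, h4⟩

end BilP

open BilP

theorem zBil (H : T_PlA) : T_Bil := by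
  classical
  intro X q P L K β f hq hP hL hK hβ hχ hf
  have h1 : ∀ c, cl X q f c - tot X q f / q.totient =
      ∑ i ∈ range (2 * X / (P * L) + 1), ∑ l ∈ (range (2 * X)).filter (fun l => l / L = i), β l *
        ∑ p ∈ (PP P (2 * P)).filter (fun p => In X L p i), ee q (p * l) c +
      ∑ p ∈ PP P (2 * P), ∑ l ∈ (range (2 * X)).filter (fun l =>
        (X ≤ p * l ∧ p * l < 2 * X) ∧ ¬ In X L p (l / L)), β l * ee q (p * l) c := fun c => by
    have e1 : cl X q f c - tot X q f / q.totient = ∑ m ∈ Ico X (2 * X), f m * ee q m c := by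
      unfold cl tot ee
      rw [sum_filter, sum_div, ← sum_sub_distrib]
      exact sum_congr rfl fun m _ => by split_ifs <;> ring
    have e2 : ∑ i ∈ range (2 * X / (P * L) + 1),
        ∑ l ∈ (range (2 * X)).filter (fun l => l / L = i), β l *
          ∑ p ∈ (PP P (2 * P)).filter (fun p => In X L p i), ee q (p * l) c =
        ∑ l ∈ range (2 * X), β l *
          ∑ p ∈ (PP P (2 * P)).filter (fun p => In X L p (l / L)), ee q (p * l) c := by
      simp only [sum_filter (s := range (2 * X))]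
      rw [sum_comm]
      refine sum_congr rfl fun l _ => ?_
      rw [sum_ite_eq]
      split_ifs with h
      · rfl
      · rw [filter_false_of_mem fun p hp h2 => h (mem_range.2 (Nat.lt_succ_of_le
          ((Nat.le_div_iff_mul_le (Nat.mul_pos hP hL)).2 (le_trans ?_ h2.2)))), sum_empty, mul_zero]
        have := (mem_PP.1 hp).1.le
        calc _ = P * (l / L * L) := by ring
          _ ≤ _ := by gcongr; omega
    rw [e1, e2]
    simp only [hf]
    rw [cv_eq]
    simp only [sum_filter, mul_sum (s := PP P (2 * P))]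
    rw [sum_comm (s := range (2 * X)), ← sum_add_distrib]
    refine sum_congr rfl fun p hp => ?_
    rw [← sum_add_distrib]
    refine sum_congr rfl fun l _ => ?_
    by_cases h2 : In X L p (l / L)
    · have h5 : p * (l / L * L) ≤ p * l := Nat.mul_le_mul_left _ (Nat.div_mul_le_self l L)
      have h6 : p * l < p * ((l / L + 1) * L) := Nat.mul_lt_mul_of_pos_left
        (by linarith [Nat.lt_div_mul_add (a := l) hL]) (PP_prime hp).pos
      rw [if_pos ⟨h2.1.trans h5, h6.trans_le h2.2⟩, if_pos h2, if_neg fun h => h.2 h2, add_zero]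
    · simp only [h2, if_false, mul_zero, zero_add, not_false_eq_true, and_true]
  simp only [h1]
  refine (sum_le_sum fun c _ => abs_add_le _ _).trans ?_
  rw [sum_add_distrib]
  refine add_le_add ?_ ?_
  · refine (sum_le_sum fun c _ => abs_sum_le_sum_abs _ _).trans ?_
    rw [sum_comm]
    refine (sum_le_card_nsmul _ _ (K * (L + q)) fun i _ => piece H (y0 := i * L) hq hK hβ
      (fun l hl => ?_) fun χ h0 => ?_).trans ?_
    · rw [← (mem_filter.1 hl).2]
      exact mem_Ico.2 ⟨Nat.div_mul_le_self l L, Nat.lt_div_mul_add hL⟩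
    · obtain ⟨x, y, k1, k2, k3, k4⟩ := conv (filter_subset (fun p => In X L p i) (PP P (2 * P)))
        fun p hp p' hp' r hr h2 h3 => by
          have a1 := mem_filter.1 hp
          have a2 := mem_filter.1 hp'
          exact mem_filter.2 ⟨mem_PP.2 ⟨(mem_PP.1 a1.1).1.trans_le h2, h3.trans (mem_PP.1 a2.1).2.1,
            hr⟩, a1.2.1.trans (Nat.mul_le_mul_right _ h2), (Nat.mul_le_mul_right _ h3).trans a2.2.2⟩
      rw [k4]
      exact hχ χ h0 x y k1 k2 k3
    · rw [card_range, nsmul_eq_mul, mul_assoc]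
      gcongr
      rw [Nat.cast_succ]
      gcongr
      exact Nat.cast_div_le.trans_eq (by push_cast; rfl)
  · refine (sum_le_sum fun c _ => (abs_sum_le_sum_abs _ _).trans
      (sum_le_sum fun p _ => abs_sum_le_sum_abs _ _)).trans ?_
    rw [sum_comm]
    refine (sum_le_card_nsmul _ _ (4 * L : ℝ) fun p hp => ?_).trans ?_
    · rw [sum_comm]
      refine (sum_le_card_nsmul _ _ 2 fun l _ => ?_).trans ?_
      · refine le_trans (sum_le_sum fun c _ => ?_) (sum_ee hq (p * l))
        rw [abs_mul, abs_of_nonneg (hβ l).1]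
        exact mul_le_of_le_one_left (abs_nonneg _) (hβ l).2
      · have := (Nat.cast_le (α := ℝ)).2 (edge (X := X) hL (PP_prime hp).pos)
        rw [nsmul_eq_mul]
        push_cast at this
        linarith
    · have h2 : (PP P (2 * P)).card ≤ P := (card_filter_le _ _).trans (by simp; omega)
      have h3 : ((PP P (2 * P)).card : ℝ) ≤ P := by exact_mod_cast h2
      have h4 : (0 : ℝ) ≤ L := L.cast_nonneg
      have h5 : (0 : ℝ) ≤ P := P.cast_nonneg
      rw [nsmul_eq_mul]
      nlinarith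

end Pool.Agent.P.MP_746f10_nt.AZ
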