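import Pool.Agent.P.MP_746f10_nt.AZ.Base
import Pool.Agent.P.MP_746f10_nt.AP.QRed

/-! The model is replaced by the primes in all forms but the first, one form at a time. -/

namespace Pool.Agent.P.MP_746f10_nt.AZ

open Finset
open Pool.Agent.P.MP_746f10_nt.AP

namespace ChainP

open RedP QRedP

/-- a weighted sum over vectors as a sum of bilinear forms -/
theorem keyW {m : ℕ} (J : Fin (m + 1)) (a : Fin (m + 1) → ℕ) (Q : ℕ)
    (BB : Finset (Fin (m + 1) → ℕ)) (hB : BB ⊆ Fintype.piFinset fun i => Ico 1 (a i))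
    (W : ℕ → ℝ) (H : Fin (m + 1) → ℕ → ℝ) :
    ∑ b ∈ BB, ∑ n ∈ Ico Q (2 * Q), W n * ∏ i, H i (a i * n + b i) =
      ∑ b ∈ Fintype.piFinset (fun i => Ico 1 (a (J.succAbove i))), Br (a J) Q (H J)
        (fun n => W n * ∏ i, H (J.succAbove i) (a (J.succAbove i) * n + b i))
        (fun x => if J.insertNth x b ∈ BB then 1 else 0) := by
  rw [← inter_eq_right.2 hB, ← sum_ite_mem, split J, inter_eq_right.2 hB]
  refine sum_congr rfl fun b _ => ?_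
  rw [Br, sum_comm]
  refine sum_congr rfl fun x _ => ?_
  split_ifs
  · refine sum_congr rfl fun n _ => ?_
    rw [Fin.prod_univ_succAbove _ J, mul_one]
    simp only [Fin.insertNth_apply_same, Fin.insertNth_apply_succAbove]
    ring
  · simp

/-- one step of the chain, with a weight on the rows -/
theorem stepW {m : ℕ} (J : Fin (m + 1)) (a : Fin (m + 1) → ℕ) (Q : ℕ)
    (BB : Finset (Fin (m + 1) → ℕ)) (hB : BB ⊆ Fintype.piFinset fun i => Ico 1 (a i))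
    (hc : ∀ b ∈ BB, (b J).Coprime (a J)) (W : ℕ → ℝ) (hW : ∀ n, 0 ≤ W n ∧ W n ≤ 1)
    (G G' : Fin (m + 1) → ℕ → ℝ) (Bad : ℕ → ℝ) {δ ρ : ℝ} (hδ : 0 ≤ δ)
    (hG : ∀ i, G (J.succAbove i) = G' (J.succAbove i)) (h01 : ∀ i x, 0 ≤ G' i x ∧ G' i x ≤ 1)
    (hrow : ∀ i n, Q ≤ n → ∑ b ∈ Ico 1 (a i), G' i (a i * n + b) ≤ ρ * a i)
    (h0 : ∀ n, 0 ≤ Bad n)
    (h : ∀ u v : ℕ → ℝ, (∀ n, 0 ≤ u n ∧ u n ≤ 1) → (∀ b, 0 ≤ v b ∧ v b ≤ 1) →
      (∀ b, v b ≠ 0 → b.Coprime (a J)) →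
      Br (a J) Q (G J) u v ≤ Br (a J) Q (G' J) u v + δ * a J + ∑ n ∈ Ico Q (2 * Q), u n * Bad n) :
    ∑ b ∈ BB, ∑ n ∈ Ico Q (2 * Q), W n * ∏ i, G i (a i * n + b i) ≤
      ∑ b ∈ BB, ∑ n ∈ Ico Q (2 * Q), W n * ∏ i, G' i (a i * n + b i) + δ * ∏ i, (a i : ℝ) +
        (∏ i, ρ * a (J.succAbove i)) * ∑ n ∈ Ico Q (2 * Q), W n * Bad n := by
  rw [keyW J a Q BB hB W G, keyW J a Q BB hB W G']
  simp only [hG]
  refine (sum_le_sum fun b _ => h _ _ (fun n => ⟨mul_nonneg (hW n).1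
    (prod_nonneg fun i _ => (h01 _ _).1), mul_le_one₀ (hW n).2 (prod_nonneg fun i _ => (h01 _ _).1)
    (prod_le_one (fun i _ => (h01 _ _).1) fun i _ => (h01 _ _).2)⟩)
    (fun x => by split_ifs <;> norm_num) (fun x hx => ?_)).trans ?_
  · have h2 : J.insertNth x b ∈ BB := by
      by_contra h3
      exact hx (if_neg h3)
    have h3 := hc _ h2
    rwa [Fin.insertNth_apply_same] at h3
  rw [sum_add_distrib, sum_add_distrib, Fin.prod_univ_succAbove _ J]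
  refine add_le_add (add_le_add le_rfl ?_) ?_
  · rw [sum_const, Fintype.card_piFinset, nsmul_eq_mul, mul_comm, mul_assoc, Nat.cast_prod]
    gcongr with i
    rw [Nat.card_Ico]
    exact Nat.sub_le _ _
  · rw [sum_comm, mul_sum]
    refine sum_le_sum fun n hn => ?_
    rw [← sum_mul, ← mul_sum, ← prod_univ_sum (fun i => Ico 1 (a (J.succAbove i)))
      fun i x => G' (J.succAbove i) (a (J.succAbove i) * n + x), mul_comm (W n), mul_assoc]
    exact mul_le_mul_of_nonneg_right (prod_le_prod (fun i _ => sum_nonneg fun _ _ =>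
      (h01 _ _).1) fun i _ => hrow _ n (mem_Ico.1 hn).1) (mul_nonneg (hW n).1 (h0 n))

/-- the chain for a family of weights -/
theorem chainW {k Q w : ℕ} (a : Fin k → ℕ) (B0 : Finset ℕ) (BB : ℕ → Finset (Fin k → ℕ))
    (hB : ∀ x, BB x ⊆ Fintype.piFinset fun i => Ico 1 (a i))
    (hc : ∀ x, ∀ b ∈ BB x, ∀ i, (b i).Coprime (a i)) (W : ℕ → ℕ → ℝ)
    (hW : ∀ x n, 0 ≤ W x n ∧ W x n ≤ 1)
    {C Z ε : ℝ} (hC : 1 ≤ C) (hCg : C ≤ lg Q) (hk : kap Q w ≤ 1)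
    (hZ : (B0.card : ℝ) ≤ Z)
    (hrow : ∀ i n, Q ≤ n → ∑ b ∈ Ico 1 (a i), rr w (a i * n + b) ≤ 5 / 4 * VV w * a i ∧
      ∑ b ∈ Ico 1 (a i), pr1 (a i * n + b) ≤ C * a i / lg Q)
    (h : ∀ i, ∃ Bad : ℕ → ℝ, (∀ n, 0 ≤ Bad n) ∧
      ∑ x ∈ B0, ∑ n ∈ Ico Q (2 * Q), W x n * Bad n ≤
        Z * (ε * (C / lg Q) * a i * Q / lg Q + a i * Q / (lg Q : ℝ) ^ (k + 2)) ∧
      ∀ u v : ℕ → ℝ, (∀ n, 0 ≤ u n ∧ u n ≤ 1) → (∀ b, 0 ≤ v b ∧ v b ≤ 1) →
        (∀ b, v b ≠ 0 → b.Coprime (a i)) → kap Q w / 2 * Br (a i) Q (rr w) u v ≤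
          Br (a i) Q pr1 u v + a i * Q / (lg Q : ℝ) ^ (k + 2) +
            ∑ n ∈ Ico Q (2 * Q), u n * Bad n) (j : ℕ) (hj : j ≤ k) :
    ∑ x ∈ B0, ∑ b ∈ BB x, ∑ n ∈ Ico Q (2 * Q), W x n * ∏ i, FG Q w j i (a i * n + b i) ≤
      ∑ x ∈ B0, ∑ b ∈ BB x, ∑ n ∈ Ico Q (2 * Q), W x n * ∏ i, FG Q w 0 i (a i * n + b i) +
        j * ((ε * C ^ k + 2 / lg Q) * (Z * Q / (lg Q : ℝ) ^ (k + 1) * ∏ i, (a i : ℝ))) := by
  have g0 : (0 : ℝ) < lg Q := by linarith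
  have v0 := VV_pos w
  have z0 : 0 ≤ Z := (Nat.cast_nonneg _).trans hZ
  have k0 : 0 ≤ kap Q w / 2 := div_nonneg (kap_nonneg Q w) zero_le_two
  have k1 : kap Q w / 2 ≤ 1 := by linarith
  induction j with
  | zero => simp
  | succ j ih =>
    obtain ⟨m, rfl⟩ : ∃ m, k = m + 1 := ⟨k - 1, by omega⟩
    obtain ⟨Bad, h0, h1, h2⟩ := h ⟨j, hj⟩
    have key := fun x => stepW ⟨j, hj⟩ a Q (BB x) (hB x) (fun b hb => hc x b hb _) (W x) (hW x)
      (FG Q w (j + 1)) (FG Q w j) Bad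
      (δ := Q / (lg Q : ℝ) ^ (m + 1 + 2)) (ρ := C / lg Q) (by positivity)
      (fun i => ?_) (fun i x => ?_) (fun i n hn => ?_) h0 fun u v hu hv hv' => ?_
    · refine (sum_le_sum fun x _ => key x).trans ?_
      rw [sum_add_distrib, sum_add_distrib, add_assoc]
      refine (add_le_add (ih (by omega)) le_rfl).trans ?_
      rw [add_assoc, Nat.cast_succ, add_one_mul]
      refine add_le_add le_rfl (add_le_add le_rfl ?_)
      rw [sum_const, nsmul_eq_mul, ← mul_sum, prod_mul_distrib, prod_const, card_univ,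
        Fintype.card_fin, Fin.prod_univ_succAbove _ (⟨j, hj⟩ : Fin (m + 1))]
      have p0 : 0 ≤ ∏ i, (a ((⟨j, hj⟩ : Fin (m + 1)).succAbove i) : ℝ) := by positivity
      generalize ∏ i, (a ((⟨j, hj⟩ : Fin (m + 1)).succAbove i) : ℝ) = P at p0
      have r0 : 0 ≤ C / lg Q := by positivity
      have r1 : (C / lg Q) ^ m ≤ 1 := pow_le_one₀ r0 ((div_le_one g0).2 hCg)
      generalize (a ⟨j, hj⟩ : ℕ) = A at h1
      calc _ ≤ Z * (Q / (lg Q : ℝ) ^ (m + 1 + 2) * (A * P)) + (C / lg Q) ^ m * P *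
            (Z * (ε * (C / lg Q) * A * Q / lg Q + A * Q / (lg Q : ℝ) ^ (m + 1 + 2))) := by
            gcongr
        _ = Z * (Q / (lg Q : ℝ) ^ (m + 1 + 2) * (A * P)) +
            ε * C ^ (m + 1) * (Z * Q / (lg Q : ℝ) ^ (m + 1 + 1) * (A * P)) +
            (C / lg Q) ^ m * (Z * (Q / (lg Q : ℝ) ^ (m + 1 + 2) * (A * P))) := by
            rw [div_pow]; field_simp; ring
        _ ≤ Z * (Q / (lg Q : ℝ) ^ (m + 1 + 2) * (A * P)) +
            ε * C ^ (m + 1) * (Z * Q / (lg Q : ℝ) ^ (m + 1 + 1) * (A * P)) +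
            1 * (Z * (Q / (lg Q : ℝ) ^ (m + 1 + 2) * (A * P))) := by gcongr
        _ = _ := by field_simp; ring
    · have : ((⟨j, hj⟩ : Fin (m + 1)).succAbove i).val ≠ j := fun e =>
        Fin.succAbove_ne _ i (Fin.ext e)
      funext x
      exact if_congr (by omega) rfl rfl
    · unfold FG
      split_ifs
      exacts [⟨mul_nonneg k0 (rr_bd _ _).1, mul_le_one₀ k1 (rr_bd _ _).1 (rr_bd _ _).2⟩, pr1_bd _]
    · by_cases h3 : i.val < j
      · simp only [FG, if_pos h3, ← mul_sum]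
        calc _ ≤ kap Q w / 2 * (5 / 4 * VV w * a i) := by gcongr; exact (hrow i n hn).1
          _ = 5 / 32 / lg Q * a i := by unfold kap; field_simp; ring
          _ ≤ _ := by gcongr; linarith
      · simp only [FG, if_neg h3]
        exact (hrow i n hn).2.trans_eq (by ring)
    · have e1 : FG Q w (j + 1) (⟨j, hj⟩ : Fin (m + 1)) = fun x => kap Q w / 2 * rr w x :=
        funext fun x => if_pos j.lt_succ_self
      have e2 : FG Q w j (⟨j, hj⟩ : Fin (m + 1)) = pr1 := funext fun x => if_neg (lt_irrefl j)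
      rw [e1, e2]
      refine le_of_eq_of_le ?_ ((h2 u v hu hv hv').trans_eq (by ring))
      simp only [Br, mul_sum, mul_assoc]

/-- the sum over the vectors is split into the first coordinate and the others -/
theorem peel {k : ℕ} {B0 : Finset ℕ} {s : Fin k → Finset ℕ} {BB : Finset (Fin (k + 1) → ℕ)}
    (hB : ∀ b ∈ BB, b 0 ∈ B0 ∧ ∀ i : Fin k, b i.succ ∈ s i) (F : ℕ → (Fin k → ℕ) → ℝ) :
    ∑ b ∈ BB, F (b 0) (fun i => b i.succ) = ∑ x ∈ B0,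
      ∑ t ∈ (Fintype.piFinset s).filter (fun t => (Fin.cons x t : Fin (k + 1) → ℕ) ∈ BB),
        F x t := by
  simp only [sum_filter]
  rw [← sum_product', ← sum_filter]
  refine sum_nbij' (fun b => (b 0, fun i => b i.succ)) (fun p => Fin.cons p.1 p.2) ?_ ?_ ?_ ?_
    fun _ _ => rfl
  · intro b hb
    refine mem_filter.2 ⟨mem_product.2 ⟨(hB b hb).1, Fintype.mem_piFinset.2 (hB b hb).2⟩, ?_⟩
    exact (Fin.cons_self_tail b).symm ▸ hb
  · intro p hp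
    exact (mem_filter.1 hp).2
  · intro b _
    exact Fin.cons_self_tail b
  · intro p _
    rfl

/-- the error term against the primes of the first form -/
theorem bad_le {N : ℕ} {B0 : Finset ℕ} {W : ℕ → ℕ → ℝ} {Bad : ℕ → ℝ} {ρ Z : ℝ} {T : ℝ}
    (hW : ∀ x n, 0 ≤ W x n ∧ W x n ≤ 1) (hZ : (B0.card : ℝ) ≤ Z)
    (hb : Blk N (fun n => ∑ x ∈ B0, W x n) (ρ * Z))
    (h : ∀ U : ℕ → ℝ, (∀ n, 0 ≤ U n ∧ U n ≤ 1) → Blk N U ρ →
      ∑ n ∈ Ico N (2 * N), U n * Bad n ≤ T) :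
    ∑ x ∈ B0, ∑ n ∈ Ico N (2 * N), W x n * Bad n ≤ Z * T := by
  rcases ((Nat.cast_nonneg _).trans hZ).eq_or_lt with z0 | z0
  · have h1 : B0.card = 0 := by
      have : (B0.card : ℝ) ≤ 0 := hZ.trans z0.ge
      exact_mod_cast le_antisymm this (Nat.cast_nonneg _)
    rw [card_eq_zero.1 h1, ← z0]
    simp
  have h2 := h (fun n => (∑ x ∈ B0, W x n) / Z) (fun n =>
    ⟨div_nonneg (sum_nonneg fun x _ => (hW x n).1) z0.le, (div_le_one z0).2 ?_⟩) fun x y hy => ?_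
  · rw [sum_comm]
    refine le_of_eq_of_le ?_ (mul_le_mul_of_nonneg_left h2 z0.le)
    rw [mul_sum]
    refine sum_congr rfl fun n _ => ?_
    rw [← sum_mul]
    field_simp
  · refine le_trans ?_ hZ
    simpa using sum_le_card_nsmul B0 _ 1 fun x _ => (hW x n).2
  · rw [← sum_div, div_le_iff₀ z0]
    exact (hb x y hy).trans_eq (by ring)

end ChainP

open ChainP QRedP in
theorem zChain : T_Chain := by
  intro k N w a B0 BB C Z ε hC hCg _ hk hZ hb hB hrow hKP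
  have g0 : (0 : ℝ) < lg N := by linarith
  have hB' : ∀ b ∈ BB, b 0 ∈ B0 ∧ ∀ i : Fin k, b i.succ ∈ Ico 1 (a i.succ) :=
    fun b hb => ⟨(hB b hb).1, fun i => (mem_RU.1 ((hB b hb).2 i)).1⟩
  have h1 := chainW (ε := ε) (fun i : Fin k => a i.succ) B0
    (fun x => (Fintype.piFinset fun i : Fin k => Ico 1 (a i.succ)).filter
      fun t => (Fin.cons x t : Fin (k + 1) → ℕ) ∈ BB) (fun _ => filter_subset _ _)
    (fun x t ht i => (mem_RU.1 ((hB _ (mem_filter.1 ht).2).2 i)).2)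
    (fun x n => pr1 (a 0 * n + x)) (fun _ _ => pr1_bd _) hC hCg hk hZ hrow
    (fun i => ?_) k le_rfl
  · rw [← peel hB' fun x t => ∑ n ∈ Ico N (2 * N),
        pr1 (a 0 * n + x) * ∏ i, FG N w k i (a i.succ * n + t i),
      ← peel hB' fun x t => ∑ n ∈ Ico N (2 * N),
        pr1 (a 0 * n + x) * ∏ i, FG N w 0 i (a i.succ * n + t i)] at h1
    simp only [FG, Fin.is_lt, if_true, Nat.not_lt_zero, if_false] at h1
    simp only [Md, Fin.prod_univ_succ (fun i => pr1 _)]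
    rw [mul_assoc]
    exact h1
  · obtain ⟨Bad, h0, h2, h3⟩ := hKP i
    refine ⟨Bad, h0, bad_le (ρ := C / lg N) (fun _ _ => pr1_bd _) hZ
      (hb.mono (le_of_eq (by ring))) fun U hU hU' => h2 U _ hU (by positivity) hU', h3⟩

end Pool.Agent.P.MP_746f10_nt.AZ
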