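import Pool.Agent.P.MP_746f10_nt.AZ.Base
import Pool.Agent.P.MP_746f10_nt.AP.QG

/-! The approximation of the primes by a function close to the model, with row wise errors. -/

namespace Pool.Agent.P.MP_746f10_nt.AZ

open Finset Filter
open Pool.Agent.P.MP_746f10_nt.AP

namespace G2P

lemma row_le {F : ℕ → ℝ} (hF : ∀ m, 0 ≤ F m) (a x : ℕ) :
    ∑ b ∈ Ico 1 a, F (x + b) ≤ ∑ m ∈ Ico x (x + a), F m := by
  rw [sum_Ico_eq_sum_range F x, Nat.add_sub_cancel_left]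
  exact sum_le_sum_of_subset_of_nonneg (fun b hb => mem_range.2 (mem_Ico.1 hb).2)
    fun _ _ _ => hF _

lemma rows {s : Finset ℕ} {U R1 R2 : ℕ → ℝ} {T ε a g Y : ℝ} {A : ℕ} (hU : ∀ n, 0 ≤ U n)
    (hT : 0 < T) (hg : T ≤ g) (hY : 0 ≤ Y)
    (h1 : ∑ n ∈ s, U n * R1 n ≤ ε / 2 / T * a / g * ∑ n ∈ s, U n + Y / g ^ (A + 1))
    (h2 : ∀ n, R2 n ≤ ε / 2 * a / g) :
    ∑ n ∈ s, U n * (T * R1 n + R2 n) ≤ ε * a / g * ∑ n ∈ s, U n + Y / g ^ A := by
  have g0 : 0 < g := hT.trans_le hg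
  have e1 : ∑ n ∈ s, U n * (T * R1 n + R2 n) =
      T * ∑ n ∈ s, U n * R1 n + ∑ n ∈ s, U n * R2 n := by
    rw [mul_sum, ← sum_add_distrib]
    exact sum_congr rfl fun n _ => by ring
  have h3 : ∑ n ∈ s, U n * R2 n ≤ ε / 2 * a / g * ∑ n ∈ s, U n := by
    rw [mul_sum]
    exact sum_le_sum fun n _ => by
      rw [mul_comm _ (U n)]
      exact mul_le_mul_of_nonneg_left (h2 n) (hU n)
  have h4 : T * (Y / g ^ (A + 1)) ≤ Y / g ^ A := by
    calc T * (Y / g ^ (A + 1)) ≤ g * (Y / g ^ (A + 1)) :=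
          mul_le_mul_of_nonneg_right hg (by positivity)
      _ = _ := by rw [pow_succ]; field_simp
  have h5 := mul_le_mul_of_nonneg_left h1 hT.le
  have e2 : T * (ε / 2 / T * a / g * ∑ n ∈ s, U n + Y / g ^ (A + 1)) =
      ε / 2 * a / g * ∑ n ∈ s, U n + T * (Y / g ^ (A + 1)) := by
    field_simp
  have e3 : ε * a / g * ∑ n ∈ s, U n =
      ε / 2 * a / g * ∑ n ∈ s, U n + ε / 2 * a / g * ∑ n ∈ s, U n := by ring
  rw [e1, e3]
  linarith

end G2P

open GP QGP G2P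

theorem zG2 (h1 : T_Ident) (h2 : T_Bad2) (h3 : T_A2) (h4 : T_TIM) (h5 : T_II) (h6 : T_Gd) :
    T_G2 := by
  intro ε A hε
  obtain ⟨u, hu, hA⟩ := h3 (ε / 2) (by positivity)
  obtain ⟨C1, hT⟩ := h4 (A + 1)
  obtain ⟨A', B, Ch, C2, hI⟩ := h5 u (A + 3 * u + 1) hu
  refine ⟨Ch, C1 + C2 + 1, fun Cw => ?_⟩
  obtain ⟨QA, hA⟩ := hA Cw
  obtain ⟨QT, hT⟩ := hT Cw
  obtain ⟨QI, hI⟩ := hI Cw
  obtain ⟨Q1, hd⟩ := h1 u hu
  obtain ⟨Q2, hb⟩ := h2 u (A + 1) (ε / 2 / (3 * 2 ^ (3 * u))) hu (by positivity)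
  obtain ⟨Q4, hG⟩ := h6 u A' B hu
  obtain ⟨Q3, hg⟩ := ev_lg ((eventually_ge_atTop (2 * (3 * u + 1) * 6 ^ (3 * u))).and
    ((eventually_ge_atTop 5).and (eventually_ge_atTop (3 * 2 ^ (3 * u)))))
  refine ⟨QA + QT + QI + Q1 + Q2 + Q3 + Q4 + 1, fun Q w hQ hw hw' => ?_⟩
  obtain ⟨hg1, hg5, hg3⟩ := hg Q (by omega)
  have hw2 : 2 ≤ w := le_trans (le_trans (by omega) (Nat.le_self_pow (by omega) (lg Q))) hw
  have hw3 : lg Q ^ C1 ≤ w := (Nat.pow_le_pow_right (by omega) (by omega)).trans hw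
  have hw4 : lg Q ^ C2 ≤ w := (Nat.pow_le_pow_right (by omega) (by omega)).trans hw
  obtain ⟨D2, lam, err, hD, hl, hr, he0, hes, he⟩ := hA Q w (by omega) hw2 hw'
  refine ⟨fun m => rr w m * ∑ g ∈ Icc 1 D2, lam g * dd m g +
    ∑ S ∈ Pats2 u Q, -sg Q S * CS S m, fun m => 3 * 2 ^ (3 * u) * bad u Q m + err m,
    fun m => add_nonneg (mul_nonneg (by positivity) (bad_bd u Q m).1) (he0 m),
    fun m hm hm' => ?_, fun a N ha => ⟨?_, fun U hU => ?_⟩⟩
  · have h8 := hd Q m (by omega) hm hm'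
    have h7 := he m (le_trans (Nat.one_le_pow _ _ (by omega)) hm)
    simp only [neg_mul, sum_neg_distrib]
    refine le_trans (le_of_eq ?_) ((abs_add_le _ _).trans (add_le_add h8 h7))
    congr 1
    ring
  · have haE := hG Q a N (by omega) ha
    have hT' := hT Q a N w D2 (fun g => lam g * cp a g) (by omega) ha hw3 hw' hD
      (fun g => by
        rw [abs_mul, abs_of_nonneg (cp_bd a g).1]
        exact mul_le_one₀ (hl g) (cp_bd a g).1 (cp_bd a g).2)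
      fun g h0 => ⟨by_contra fun h6 => h0 (by rw [cp_of_not h6, mul_zero]),
        hr g (left_ne_zero_of_mul h0)⟩
    have a1 : ApproxC a N w (N / lg Q ^ Ch) (fun m => rr w m * ∑ g ∈ Icc 1 D2, lam g * dd m g)
        (1 / (lg Q : ℝ) ^ (A + 1)) :=
      ⟨fun _ => ∑ g ∈ Icc 1 D2, lam g * cp a g * (1 / g), hT'.congr fun n _ b _ h0 => by
        simp only [mul_sub, sum_sub_distrib, mul_assoc (lam _) (cp a _) (dd _ _), cp_dd h0]
        ring⟩
    have a2 := approxC_sum (a := a) (N := N) (w := w) (h := N / lg Q ^ Ch) (Pats2 u Q)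
      (fun S m => -sg Q S * CS S m)
      (fun _ => 2 ^ (3 * u) * (1 / (lg Q : ℝ) ^ (A + 3 * u + 1))) fun S hS => by
        refine (hI Q a N w S (by omega) ha haE hw4 hw' hS).smul (by positivity) ?_
        rw [abs_neg]
        refine (abs_sg_le Q S).trans (pow_le_pow_right₀ one_le_two ?_)
        unfold Pats2 at hS
        exact (mem_filter.1 hS).2.1
    refine (a1.add a2).mono ?_
    rw [sum_const, nsmul_eq_mul]
    exact total u A _ _ hg1 (by omega) (card_Pats2 u Q hg5)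
  · simp only [sum_add_distrib, ← mul_sum]
    exact rows (fun n => (hU n).1) (by positivity) (by exact_mod_cast hg3) (by positivity)
      (hb Q a N U (by omega) ha hU) fun n => (row_le he0 a (a * n)).trans (hes _ a ha.Q_le)

end Pool.Agent.P.MP_746f10_nt.AZ
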