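import Pool.Agent.P.MP_746f10_nt.AZ.Base
import Pool.Agent.P.MP_746f10_nt.AP.QG
import Pool.Agent.P.MP_746f10_nt.AP.II

/-! The primes dominate the model against periodic functions, on average over the columns. -/

namespace Pool.Agent.P.MP_746f10_nt.AZ

open Finset Filter
open Pool.Agent.P.MP_746f10_nt.AP

namespace K1P

lemma tot_pr1 {a N : ℕ} (ha : 1 ≤ a) (hN : 2 ≤ N) :
    tot (a * N) a pr1 = ∑ m ∈ Ico (a * N) (2 * (a * N)), pr1 m := by
  refine sum_congr rfl fun m hm => ?_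
  by_cases hp : m.Prime
  · have h1 := (mem_Ico.1 hm).1
    have h2 : a * 2 ≤ a * N := Nat.mul_le_mul_left a hN
    rw [cp_of ((Nat.Prime.coprime_iff_not_dvd hp).2 fun h => ?_), one_mul]
    have := Nat.le_of_dvd ha h
    omega
  · unfold pr1
    rw [if_neg hp, mul_zero]

lemma core (h9 : T_Per) {N w a : ℕ} {err G : ℕ → ℝ} {ν ε ε' : ℝ} (ha : 1 ≤ a) (hN : 2 ≤ N)
    (hg : 1 ≤ lg N) (hO : 32 * lg N ≤ o2 N) (hε : ε' ≤ ε) (hε' : ε' ≤ 1 / 16)
    (he0 : ∀ m, 0 ≤ err m)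
    (hes : ∑ m ∈ Ico (a * N) (2 * (a * N)), err m ≤ ε' * (a * N : ℕ) / lg N)
    (hG : ∀ m ∈ Ico (a * N) (2 * (a * N)), m.Coprime a → |pr1 m - G m| ≤ err m)
    (hr : ∀ m, ¬ rough w m → G m = 0)
    (hS : ∀ e, 1 ≤ e → e ≤ o2 N → Smo w e →
      SmQ (a * N) (a * e) (fun m => ν * rr w m - G m) (1 / o2 N))
    (hP : ((a * N : ℕ) : ℝ) / (4 * lg N) ≤ ∑ m ∈ Ico (a * N) (2 * (a * N)), pr1 m)
    (hR : ∑ m ∈ Ico (a * N) (2 * (a * N)), rr w m ≤ 5 / 4 * VV w * (a * N : ℕ)) :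
    KZ N w a (RU a) a ε := by
  have g0 : (0 : ℝ) < lg N := by exact_mod_cast hg
  have X0 : (0 : ℝ) < (a * N : ℕ) := by exact_mod_cast Nat.mul_pos ha (by omega)
  have hV := VV_pos w
  have hν : kap N w / 2 ≤ ν := by
    have a1 := (hS 1 le_rfl (one_le_o2 N) fun p hp h => absurd (Nat.dvd_one.1 h) hp.ne_one).tot
      (by omega)
    rw [mul_one] at a1
    have a2 : tot (a * N) a (fun m => ν * rr w m - G m) =
        ν * tot (a * N) a (rr w) - tot (a * N) a G := by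
      unfold tot
      rw [mul_sum, ← sum_sub_distrib]
      exact sum_congr rfl fun m _ => by ring
    have a3 : tot (a * N) a pr1 - ∑ m ∈ Ico (a * N) (2 * (a * N)), err m ≤ tot (a * N) a G := by
      unfold tot
      rw [← sum_sub_distrib]
      refine sum_le_sum fun m hm => ?_
      by_cases h0 : m.Coprime a
      · have := (abs_le.1 (hG m hm h0)).2
        rw [cp_of h0]
        linarith
      · have := he0 m
        rw [cp_of_not h0]
        linarith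
    have a4 : 0 ≤ tot (a * N) a (rr w) :=
      sum_nonneg fun m _ => mul_nonneg (cp_bd _ _).1 (rr_bd _ _).1
    have a5 : tot (a * N) a (rr w) ≤ 5 / 4 * VV w * (a * N : ℕ) :=
      le_trans (sum_le_sum fun m _ => mul_le_of_le_one_left (rr_bd _ _).1 (cp_bd _ _).2) hR
    have a6 : 1 / (o2 N : ℝ) * (a * N : ℕ) ≤ 1 / 32 * ((a * N : ℕ) / lg N) := by
      have : (32 * lg N : ℝ) ≤ o2 N := by exact_mod_cast hO
      calc _ ≤ 1 / (32 * lg N : ℝ) * (a * N : ℕ) := by gcongr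
        _ = _ := by field_simp
    have a7 : ε' * (a * N : ℕ) / lg N ≤ 1 / 16 * ((a * N : ℕ) / lg N) := by
      rw [mul_div_assoc]
      gcongr
    have a8 : ((a * N : ℕ) : ℝ) / (4 * lg N) = 1 / 4 * ((a * N : ℕ) / lg N) := by field_simp
    rw [tot_pr1 ha hN] at a3
    rw [a2] at a1
    have a9 := (abs_le.1 a1).1
    have b1 : 5 / 32 * (((a * N : ℕ) : ℝ) / lg N) ≤ ν * tot (a * N) a (rr w) := by linarith
    by_contra hn
    have b2 : ν * tot (a * N) a (rr w) ≤ max ν 0 * (5 / 4 * VV w * (a * N : ℕ)) :=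
      mul_le_mul (le_max_left _ _) a5 a4 (le_max_right _ _)
    have b3 : max ν 0 < kap N w / 2 := max_lt (not_le.1 hn) (by unfold kap; positivity)
    have b4 : max ν 0 * (5 / 4 * VV w * (a * N : ℕ)) <
        kap N w / 2 * (5 / 4 * VV w * (a * N : ℕ)) := by gcongr
    have b5 : kap N w / 2 * (5 / 4 * VV w * (a * N : ℕ)) =
        5 / 32 * (((a * N : ℕ) : ℝ) / lg N) := by
      unfold kap
      field_simp
      norm_num
    linarith
  refine ⟨err, fun m => ν * rr w m - G m, he0, ?_, fun b hb n hn => ?_,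
    fun e φ h1 h2 h3 h4 h5 => ?_⟩
  · rw [sum_comm]
    calc _ ≤ ∑ n ∈ Ico N (2 * N), ∑ b ∈ Ico 1 a, err (a * n + b) :=
          sum_le_sum fun n _ => sum_le_sum_of_subset_of_nonneg (filter_subset _ _)
            fun _ _ _ => he0 _
      _ ≤ ∑ m ∈ Ico (a * N) (a * (2 * N)), err m := sum_rows_le a N (2 * N) (by omega) he0
      _ ≤ ε' * (a * N : ℕ) / lg N := by rwa [mul_left_comm]
      _ ≤ ε * (a * N : ℕ) / lg N := by gcongr
      _ = _ := by push_cast; ring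
  · obtain ⟨b1, b2⟩ := mem_RU.1 hb
    have a1 := (abs_le.1 (hG _ (row_mem hn (mem_Ico.1 b1).2) ((coprime_row a n b).2 b2))).1
    have a2 := mul_le_mul_of_nonneg_right hν (rr_bd w (a * n + b)).1
    show _ ≤ _ + _ + (ν * rr w (a * n + b) - G (a * n + b))
    linarith
  · refine (h9 a N w e (RU a) (fun m => ν * rr w m - G m) φ h1 h3 Subset.rfl (fun m hm => ?_)
      h4 h5).trans ?_
    · by_contra h0
      refine hm ?_
      have : rr w m = 0 := by_contra fun h => h0 (rough_of_rr h)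
      simp only [hr m h0, this, mul_zero, sub_zero]
    refine (sum_le_sum_of_subset_of_nonneg (filter_subset _ _) fun _ _ _ => abs_nonneg _).trans
      ((hS e h1 h2 h3).trans (le_of_eq ?_))
    push_cast
    ring

lemma total {O c B : ℝ} (h2 : 2 ≤ O) (h : 2 * (c * B) ≤ O) :
    1 * (1 / O ^ 2) + c * (B * (1 / O ^ 3 + 1 / O ^ 3)) ≤ 1 / O := by
  have O0 : 0 < O := by linarith
  calc _ = 1 / O ^ 2 + 2 * (c * B) / O ^ 3 := by ring
    _ ≤ 1 / O ^ 2 + O / O ^ 3 := by gcongr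
    _ = 2 / O ^ 2 := by field_simp; norm_num
    _ ≤ O / O ^ 2 := by gcongr
    _ = _ := by field_simp

end K1P

open K1P

theorem zK1 (h1 : T_Ident) (h2 : S_Bad) (h3 : S_A) (h4 : S_CS) (h5 : T_PI) (h6 : T_PII)
    (h7 : T_PR) (h8 : T_PN) (h9 : T_Per) : T_K1 := by
  intro ε Cw hε
  obtain ⟨ε', e0, e1, e2⟩ : ∃ ε' : ℝ, 0 < ε' ∧ ε' ≤ ε ∧ ε' ≤ 1 / 16 :=
    ⟨min ε (1 / 16), lt_min hε (by norm_num), min_le_left _ _, min_le_right _ _⟩
  obtain ⟨u, hu, hA⟩ := h3 (ε' / 6) (by positivity)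
  obtain ⟨QA, hA⟩ := hA (2 * Cw)
  obtain ⟨Q1, hd⟩ := h1 u hu
  obtain ⟨Q2, hb⟩ := h2 u (ε' / 6 / (3 * 2 ^ (3 * u))) hu (by positivity)
  obtain ⟨Q3, hg⟩ := ev_lg ((ev_pow_le_div 1 (2 * Cw) u hu).and (eventually_ge_atTop 5))
  obtain ⟨N1, hI⟩ := h5 Cw
  obtain ⟨N2, hII⟩ := h6 u hu
  obtain ⟨N3, hR⟩ := h7 Cw
  obtain ⟨N4, hP⟩ := h8 Cw
  obtain ⟨N5, ho⟩ := ev_lg ((ev_o2_pow (2 * (3 * u + 1) * 6 ^ (3 * u)) (3 * u)).and
    (ev_o2_pow 32 1))
  refine ⟨2 * (QA + Q1 + Q2 + Q3 + 1) ^ 2 + N1 + N2 + N3 + N4 + N5 + 9,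
    fun N w a hN hw hw' ha haN => ?_⟩
  obtain ⟨Q, hs⟩ : ∃ Q, Rs Q a N := ⟨_, rs_sqrt (by omega) ha haN⟩
  have hQ : QA + Q1 + Q2 + Q3 + 1 ≤ Q := by
    have := hs.N_le
    exact (Nat.pow_le_pow_iff_left (n := 2) (by norm_num)).1 (by omega)
  obtain ⟨hg1, hg5⟩ := hg Q (by omega)
  obtain ⟨ho1, ho2⟩ := ho N (by omega)
  rw [← o2_eq] at ho1 ho2
  rw [pow_one] at ho2
  have l1 := hs.lg_le
  have l2 := hs.lg_le_two
  have hwQ : w ≤ lg Q ^ (2 * Cw) := by
    rw [pow_mul]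
    exact hw'.trans (Nat.pow_le_pow_left (by nlinarith) _)
  have hwz : w ≤ 2 ^ (lg Q / u) := hwQ.trans (by simpa using hg1)
  have hcs : ∀ S ∈ Pats2 u Q, ∀ m, 0 ≤ CS S m ∧ CS S m ≤ rr w m := fun S hS =>
    IIP.cs_rr h4 (fun j hj => by
      unfold Pats2 at hS
      exact (mem_Icc.1 (mem_powerset.1 (mem_filter.1 hS).1 hj)).1) hwz
  obtain ⟨D2, lam, err, hD, hl, hr, he0, hes, he⟩ := hA Q w (by omega) hw hwQ
  obtain ⟨p1, p2⟩ := hP N (a * N) w (by omega) (Nat.le_mul_of_pos_left N ha) (by nlinarith) hw hw'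
  refine core h9 (err := fun m => 3 * 2 ^ (3 * u) * bad u Q m + err m)
    (G := fun m => rr w m * ∑ g ∈ Icc 1 D2, lam g * cp a g * dd m g -
      ∑ S ∈ Pats2 u Q, sg Q S * CS S m)
    (ν := ∑ g ∈ Icc 1 D2, lam g * cp a g * (1 / g) -
      ∑ S ∈ Pats2 u Q, sg Q S * den (a * N) a w (CS S)) ha (by omega) (by omega) ho2 e1 e2
    (fun m => add_nonneg (mul_nonneg (by positivity) (bad_bd u Q m).1) (he0 m)) ?_
    (fun m hm h0 => ?_) (fun m hm => ?_) (fun e b1 b2 b3 => ?_) p1 p2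
  · have a0 : Ico (a * N) (2 * (a * N)) ⊆ Ico 1 (4 * Q ^ 2) := fun m hm =>
      have := hs.entry hm
      mem_Ico.2 ⟨le_trans (Nat.one_le_pow _ _ (by omega)) this.1, this.2⟩
    refine (sum_le_sum_of_subset_of_nonneg a0 fun m _ _ =>
      add_nonneg (mul_nonneg (by positivity) (bad_bd u Q m).1) (he0 m)).trans ?_
    rw [sum_add_distrib, ← mul_sum]
    have a1 := hb Q (by omega)
    have g0 : (0 : ℝ) < lg Q := by exact_mod_cast (by omega : 0 < lg Q)
    have g1 : (0 : ℝ) < lg N := by exact_mod_cast (by omega : 0 < lg N)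
    have a2 : (3 * 2 ^ (3 * u) : ℝ) * ∑ m ∈ Ico 1 (4 * Q ^ 2), bad u Q m ≤
        ε' / 6 * (Q : ℝ) ^ 2 / lg Q := by
      calc _ ≤ (3 * 2 ^ (3 * u) : ℝ) * (ε' / 6 / (3 * 2 ^ (3 * u)) * (Q : ℝ) ^ 2 / lg Q) := by
            gcongr
        _ = _ := by field_simp
    have a3 : (Q : ℝ) ^ 2 ≤ (a * N : ℕ) := by exact_mod_cast hs.1
    have a4 : (lg N : ℝ) ≤ 3 * lg Q := by exact_mod_cast (by omega : lg N ≤ 3 * lg Q)
    calc _ ≤ ε' / 6 * (Q : ℝ) ^ 2 / lg Q + ε' / 6 * (Q : ℝ) ^ 2 / lg Q := add_le_add a2 hes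
      _ = ε' * (Q : ℝ) ^ 2 / (3 * lg Q) := by field_simp; ring
      _ ≤ _ := by gcongr
  · have a0 := hs.entry hm
    have a1 := hd Q m (by omega) a0.1 a0.2
    have a2 := he m (le_trans (Nat.one_le_pow _ _ (by omega)) a0.1)
    simp only [mul_assoc (lam _) (cp a _) (dd _ _), QGP.cp_dd h0]
    refine le_trans (le_of_eq ?_) ((abs_add_le _ _).trans (add_le_add a1 a2))
    congr 1
    ring
  · have a0 : rr w m = 0 := by_contra fun h => hm (rough_of_rr h)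
    simp only [a0, zero_mul, zero_sub, neg_eq_zero]
    refine sum_eq_zero fun S hS => ?_
    rw [le_antisymm (a0 ▸ (hcs S hS m).2) (hcs S hS m).1, mul_zero]
  · have O1 : (1 : ℝ) ≤ o2 N := by exact_mod_cast one_le_o2 N
    have a1 := (hI Q a N w e D2 (fun g => lam g * cp a g) (by omega) hs hw hw' b1 b2 b3 hD
      (fun g => by
        rw [abs_mul, abs_of_nonneg (cp_bd a g).1]
        exact mul_le_one₀ (hl g) (cp_bd a g).1 (cp_bd a g).2)
      fun g h0 => ⟨by_contra fun h6 => h0 (by rw [cp_of_not h6, mul_zero]),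
        hr g (left_ne_zero_of_mul h0)⟩).smul (t := -1) (B := 1) (by simp)
    have a2 : EqQ (a * N) (a * e) (rr w) (1 / (o2 N : ℝ) ^ 3) := by
      refine (sum_le_card_nsmul _ _ _ fun c hc =>
        hR a N w e c (by omega) ha hw hw' b1 b2 hc).trans ?_
      have e0 : (0 : ℝ) < e := by exact_mod_cast b1
      have t1 : ((a * e).totient : ℝ) ≤ (a * e : ℕ) := by exact_mod_cast Nat.totient_le _
      rw [card_RR, nsmul_eq_mul]
      calc _ ≤ ((a * e : ℕ) : ℝ) * (N / (e * (o2 N : ℝ) ^ 3)) := by gcongr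
        _ = _ := by push_cast; field_simp
    have a3 := smQ_sum (X := a * N) (q := a * e) (Pats2 u Q)
      (fun S m => sg Q S * (CS S m - den (a * N) a w (CS S) * rr w m))
      (fun _ => 2 ^ (3 * u) * (1 / (o2 N : ℝ) ^ 3 + 1 / (o2 N : ℝ) ^ 3)) fun S hS => by
        refine (smQ_den b3 (hcs S hS) (hII Q a N e S (by omega) hs b1 b2 hS) a2).smul ?_
        refine (GP.abs_sg_le Q S).trans (pow_le_pow_right₀ one_le_two ?_)
        unfold Pats2 at hS
        exact (mem_filter.1 hS).2.1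
    refine ((a1.add a3).mono ?_).congr fun m _ _ => ?_
    · rw [sum_const, nsmul_eq_mul]
      refine total (by exact_mod_cast (by omega : 2 ≤ o2 N)) ?_
      have a4 : 2 * ((Pats2 u Q).card * 2 ^ (3 * u)) ≤ o2 N := by
        refine le_trans ?_ ho1
        calc _ ≤ 2 * ((3 * u + 1) * (3 * lg N) ^ (3 * u) * 2 ^ (3 * u)) := by
              gcongr
              exact (QGP.card_Pats2 u Q hg5).trans (by gcongr)
          _ = _ := by rw [show 6 = 3 * 2 from rfl, mul_pow, mul_pow]; ring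
      exact_mod_cast a4
    · simp only [mul_sub, sum_sub_distrib, ← mul_assoc, ← sum_mul]
      ring

end Pool.Agent.P.MP_746f10_nt.AZ
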