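import Pool.Agent.P.MP_746f10_nt.AZ.Base

/-! The primes dominate the model against periodic functions in every column of a small modulus. -/

namespace Pool.Agent.P.MP_746f10_nt.AZ

open Finset Filter
open Pool.Agent.P.MP_746f10_nt.AP
open Pool.Agent.P.MP_a14ce1_nt.Ch (nit ex)

namespace K2P

lemma nit_zero (y : ℝ) : nit 0 y = 1 := by simp [nit, ex]

/-- one class against the average, by orthogonality -/
lemma orth {X q c : ℕ} [NeZero q] (hc : c ∈ RR q) (f : ℕ → ℝ) {K : ℝ} (hK : 0 ≤ K)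
    (h : ∀ χ : DirichletCharacter ℂ q, χ ≠ 1 → ‖∑ m ∈ Ico X (2 * X), (f m : ℂ) * χ m‖ ≤ K) :
    |cl X q f c - tot X q f / q.totient| ≤ K := by
  classical
  obtain ⟨c1, c2⟩ := mem_RR.1 hc
  have hu : IsUnit (c : ZMod q) := (ZMod.isUnit_iff_coprime _ _).2 c2
  have t0 : (0 : ℝ) < q.totient := by exact_mod_cast Nat.totient_pos.2 (NeZero.pos q)
  have a1 : ((q.totient * cl X q f c : ℝ) : ℂ) = ∑ χ : DirichletCharacter ℂ q,
      χ (c : ZMod q)⁻¹ * ∑ m ∈ Ico X (2 * X), (f m : ℂ) * χ m := by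
    simp only [mul_sum]
    rw [sum_comm]
    unfold cl
    rw [sum_filter, mul_sum]
    push_cast
    refine sum_congr rfl fun m _ => ?_
    simp only [mul_left_comm _ (f m : ℂ)]
    rw [← mul_sum, DirichletCharacter.sum_char_inv_mul_char_eq ℂ hu]
    by_cases h0 : m % q = c
    · rw [if_pos h0, if_pos ((mod_eq_iff_cast c1).1 h0).symm, mul_comm]
    · rw [if_neg h0, if_neg fun h1 => h0 ((mod_eq_iff_cast c1).2 h1.symm)]
      simp
  have a2 : (1 : DirichletCharacter ℂ q) (c : ZMod q)⁻¹ *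
      ∑ m ∈ Ico X (2 * X), (f m : ℂ) * (1 : DirichletCharacter ℂ q) m = (tot X q f : ℝ) := by
    have : IsUnit ((c : ZMod q)⁻¹) := IsUnit.of_mul_eq_one _ (ZMod.inv_mul_of_unit _ hu)
    rw [MulChar.one_apply this, one_mul]
    unfold tot
    push_cast
    refine sum_congr rfl fun m _ => ?_
    by_cases h0 : m.Coprime q
    · rw [cp_of h0, MulChar.one_apply ((ZMod.isUnit_iff_coprime _ _).2 h0)]
      simp
    · rw [cp_of_not h0, MulChar.map_nonunit _ fun h1 => h0 ((ZMod.isUnit_iff_coprime _ _).1 h1)]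
      simp
  rw [← add_sum_erase _ _ (mem_univ 1), a2] at a1
  have a3 : |q.totient * cl X q f c - tot X q f| ≤ q.totient * K := by
    rw [← Real.norm_eq_abs, ← Complex.norm_real, Complex.ofReal_sub, a1, add_sub_cancel_left]
    refine (norm_sum_le _ _).trans ((sum_le_card_nsmul _ _ K fun χ hχ => ?_).trans ?_)
    · rw [norm_mul]
      exact (mul_le_of_le_one_left (norm_nonneg _) (χ.norm_le_one _)).trans
        (h χ (ne_of_mem_erase hχ))
    · rw [nsmul_eq_mul]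
      refine mul_le_mul_of_nonneg_right ?_ hK
      rw [← DirichletCharacter.card_eq_totient_of_hasEnoughRootsOfUnity ℂ q,
        Nat.card_eq_fintype_card]
      exact_mod_cast card_erase_le
  rw [show cl X q f c - tot X q f / q.totient =
    (q.totient * cl X q f c - tot X q f) / q.totient by field_simp, abs_div, abs_of_pos t0,
    div_le_iff₀ t0, mul_comm K]
  exact a3

/-- the primes of a dyadic interval against a character -/
lemma primes {X q : ℕ} (hX : 2 ≤ X) (χ : DirichletCharacter ℂ q) :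
    ‖∑ m ∈ Ico X (2 * X), (pr1 m : ℂ) * χ m‖ ≤ ‖∑ p ∈ PP X (2 * X), χ p‖ + 1 := by
  have h1 : X ≤ 2 * X := by omega
  have a1 := sum_Ico_add_eq_sum_Icc (f := fun m : ℕ => (pr1 m : ℂ) * χ m) h1
  have a2 := add_sum_Ioc_eq_sum_Icc (f := fun m : ℕ => (pr1 m : ℂ) * χ m) h1
  have a3 : pr1 (2 * X) = 0 := if_neg (Nat.not_prime_mul (by norm_num) (by omega))
  have a4 : ∑ m ∈ Ioc X (2 * X), (pr1 m : ℂ) * χ m = ∑ p ∈ PP X (2 * X), χ p := by
    unfold PP pr1
    rw [sum_filter]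
    exact sum_congr rfl fun m _ => by split_ifs <;> simp
  simp only [a3, Complex.ofReal_zero, zero_mul, add_zero] at a1
  rw [a1, ← a2, a4, add_comm]
  refine (norm_add_le _ _).trans (add_le_add le_rfl ?_)
  rw [norm_mul, Complex.norm_real, Real.norm_eq_abs, abs_of_nonneg (pr1_bd X).1]
  exact mul_le_one₀ (pr1_bd X).2 (norm_nonneg _) (χ.norm_le_one _)

lemma card_cls {a e b : ℕ} (ha : 1 ≤ a) :
    ((RR (a * e)).filter (fun c => c % a ∈ ({b} : Finset ℕ))).card ≤ e := by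
  conv_rhs => rw [← card_range e]
  refine card_le_card_of_injOn (fun c => c / a) (fun c hc => ?_) fun c hc c' hc' h => ?_
  · have := (mem_RR.1 (mem_filter.1 hc).1).1
    exact mem_coe.2 (mem_range.2 ((Nat.div_lt_iff_lt_mul ha).2 (by rwa [mul_comm e])))
  · have h1 := mem_singleton.1 (mem_filter.1 hc).2
    have h2 := mem_singleton.1 (mem_filter.1 hc').2
    have h3 : c / a = c' / a := h
    rw [← Nat.div_add_mod c a, ← Nat.div_add_mod c' a, h1, h2, h3]

lemma dens {N w a : ℕ} (ha : 1 ≤ a) (hN : 2 ≤ N) (hg : 1 ≤ lg N)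
    (hf : ∀ m ∈ Ico (a * N) (2 * (a * N)), pr1 m * rr w m = pr1 m)
    (hP : ((a * N : ℕ) : ℝ) / (4 * lg N) ≤ ∑ m ∈ Ico (a * N) (2 * (a * N)), pr1 m)
    (hR : ∑ m ∈ Ico (a * N) (2 * (a * N)), rr w m ≤ 5 / 4 * VV w * (a * N : ℕ)) :
    kap N w / 2 ≤ den (a * N) a w fun m => pr1 m * rr w m := by
  have g0 : (0 : ℝ) < lg N := by exact_mod_cast hg
  have X0 : (0 : ℝ) < (a * N : ℕ) := by exact_mod_cast Nat.mul_pos ha (by omega)
  have hV := VV_pos w
  have hb : ∀ m ∈ Ico (a * N) (2 * (a * N)), 0 ≤ pr1 m * rr w m ∧ pr1 m * rr w m ≤ rr w m :=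
    fun m _ => ⟨mul_nonneg (pr1_bd m).1 (rr_bd w m).1,
      mul_le_of_le_one_left (rr_bd w m).1 (pr1_bd m).2⟩
  have a1 := den_mul (a := a) hb
  have a2 := (den_bd (a := a) hb).1
  have a3 : tot (a * N) a (fun m => pr1 m * rr w m) = ∑ m ∈ Ico (a * N) (2 * (a * N)), pr1 m := by
    refine sum_congr rfl fun m hm => ?_
    show cp a m * (pr1 m * rr w m) = _
    rw [hf m hm]
    by_cases hp : m.Prime
    · have h1 := (mem_Ico.1 hm).1
      have h2 : a * 2 ≤ a * N := Nat.mul_le_mul_left a hN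
      rw [cp_of ((Nat.Prime.coprime_iff_not_dvd hp).2 fun h => ?_), one_mul]
      have := Nat.le_of_dvd ha h
      omega
    · unfold pr1
      rw [if_neg hp, mul_zero]
  have a5 : tot (a * N) a (rr w) ≤ 5 / 4 * VV w * (a * N : ℕ) :=
    le_trans (sum_le_sum fun m _ => mul_le_of_le_one_left (rr_bd _ _).1 (cp_bd _ _).2) hR
  rw [a3] at a1
  generalize den (a * N) a w (fun m => pr1 m * rr w m) = ν at *
  have a6 := hP.trans (a1.ge.trans (mul_le_mul_of_nonneg_left a5 a2))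
  refine le_of_mul_le_mul_right (le_trans ?_ a6) (by positivity : 0 < 5 / 4 * VV w * (a * N : ℕ))
  unfold kap
  calc _ = 5 / 8 * (((a * N : ℕ) : ℝ) / (4 * lg N)) := by field_simp; norm_num
    _ ≤ _ := mul_le_of_le_one_left (by positivity) (by norm_num)

lemma numer {κ C : ℝ} {N a n c : ℕ} (k0 : 0 < κ) (k1 : κ ≤ 1 / 2) (C0 : 0 < C) (hn : 2 / κ ≤ n)
    (hc : 2 * (64 * C + 1) ≤ c) (hN : 2 ≤ N) (hg : 3 ≤ lg N) (ha : (a : ℝ) ≤ (N : ℝ) ^ (κ / 2))
    (ho : c * lg N ^ 3 * o2 N ^ 3 ≤ 2 ^ (lg N / n)) :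
    2 * (o2 N : ℝ) ^ 2 * (C * ((a * N : ℕ) : ℝ) ^ (1 - κ) * (1 + Real.log ((N : ℝ) ^ 3)) ^ 3 + 1)
      ≤ N := by
  have N1 : (1 : ℝ) ≤ N := by exact_mod_cast (by omega : 1 ≤ N)
  have N0 : (0 : ℝ) < N := by linarith
  have g3 : (3 : ℝ) ≤ lg N := by exact_mod_cast hg
  have O1 : (1 : ℝ) ≤ o2 N := by exact_mod_cast one_le_o2 N
  have a1 : ((a * N : ℕ) : ℝ) ^ (1 - κ) ≤ (N : ℝ) ^ (1 - κ / 2) := by
    calc _ ≤ ((N : ℝ) ^ (κ / 2 + 1)) ^ (1 - κ) := by
          refine Real.rpow_le_rpow (by positivity) ?_ (by linarith)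
          rw [Real.rpow_add N0, Real.rpow_one]
          push_cast
          gcongr
      _ ≤ _ := by
          rw [← Real.rpow_mul N0.le]
          exact Real.rpow_le_rpow_of_exponent_le N1 (by nlinarith)
  have a2 : (1 + Real.log ((N : ℝ) ^ 3)) ^ 3 ≤ 64 * (lg N : ℝ) ^ 3 := by
    have := log_le_lg hg
    have := Real.log_nonneg N1
    rw [Real.log_pow]
    calc _ ≤ (4 * (lg N : ℝ)) ^ 3 := by
          refine pow_le_pow_left₀ (by positivity) ?_ _
          push_cast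
          linarith
      _ = _ := by ring
  have a3 : (1 : ℝ) ≤ (N : ℝ) ^ (1 - κ / 2) * (lg N : ℝ) ^ 3 :=
    one_le_mul_of_one_le_of_one_le (Real.one_le_rpow N1 (by linarith))
      (one_le_pow₀ (by linarith))
  have a4 : (2 : ℝ) ^ (lg N / n) ≤ (N : ℝ) ^ (κ / 2) := by
    have n0 : (0 : ℝ) < n := lt_of_lt_of_le (by positivity) hn
    have b1 : ((2 ^ lg N : ℕ) : ℝ) ≤ N := by exact_mod_cast two_pow_lg_le (by omega : 1 ≤ N)
    refine le_trans ?_ (Real.rpow_le_rpow (by positivity) b1 (by positivity))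
    rw [Nat.cast_pow, Nat.cast_ofNat, ← Real.rpow_natCast, ← Real.rpow_natCast,
      ← Real.rpow_mul (by norm_num)]
    refine Real.rpow_le_rpow_of_exponent_le (by norm_num) (Nat.cast_div_le.trans ?_)
    rw [div_le_iff₀ n0, mul_assoc]
    refine le_mul_of_one_le_right (by positivity) ?_
    rw [div_le_iff₀ k0] at hn
    linarith
  have a5 : (c : ℝ) * (lg N : ℝ) ^ 3 * (o2 N : ℝ) ^ 3 ≤ (N : ℝ) ^ (κ / 2) :=
    le_trans (by exact_mod_cast ho) a4
  calc _ ≤ 2 * (o2 N : ℝ) ^ 3 * (C * (N : ℝ) ^ (1 - κ / 2) * (64 * (lg N : ℝ) ^ 3) +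
          (N : ℝ) ^ (1 - κ / 2) * (lg N : ℝ) ^ 3) := by
        have := Real.log_nonneg (one_le_pow₀ (n := 3) N1)
        gcongr
        norm_num
    _ = 2 * (64 * C + 1) * (lg N : ℝ) ^ 3 * (o2 N : ℝ) ^ 3 * (N : ℝ) ^ (1 - κ / 2) := by ring
    _ ≤ (N : ℝ) ^ (κ / 2) * (N : ℝ) ^ (1 - κ / 2) := by
        refine mul_le_mul_of_nonneg_right (le_trans ?_ a5) (by positivity)
        gcongr
    _ = N := by rw [← Real.rpow_add N0]; simp

lemma total {O K N e : ℝ} (h2 : 2 ≤ O) (e1 : 1 ≤ e) (e2 : e ≤ O) (hK : 0 ≤ K) (hN : 0 ≤ N)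
    (h : 2 * O ^ 2 * K ≤ N) : e * (K + N / (e * O ^ 3)) ≤ N / O := by
  have O0 : 0 < O := by linarith
  have e0 : 0 < e := by linarith
  have a1 : e * K ≤ N / (2 * O) := by
    rw [le_div_iff₀ (by positivity)]
    calc _ ≤ O * K * (2 * O) := by gcongr
      _ = 2 * O ^ 2 * K := by ring
      _ ≤ _ := h
  have a2 : N / O ^ 3 ≤ N / (2 * O) := by
    refine div_le_div_of_nonneg_left hN (by positivity) ?_
    nlinarith [mul_le_mul h2 h2 (by norm_num) O0.le]
  calc _ = e * K + N / O ^ 3 := by field_simp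
    _ ≤ N / (2 * O) + N / (2 * O) := add_le_add a1 a2
    _ = _ := by field_simp; norm_num

end K2P

open K2P

theorem zK2 (h1 : T_Pr) (h2 : T_PR) (h3 : T_PN) (h4 : T_Per) : T_K2 := by
  obtain ⟨κ, C, k0, k1, C0, hP⟩ := h1
  refine ⟨κ / 2, by positivity, by linarith, fun Cw => ?_⟩
  obtain ⟨n, hn⟩ := exists_nat_ge (2 / κ)
  obtain ⟨c, hc⟩ := exists_nat_ge (2 * (64 * C + 1))
  have n1 : 1 ≤ n := by
    have : (0 : ℝ) < n := lt_of_lt_of_le (by positivity) hn
    exact_mod_cast this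
  obtain ⟨N1, hR⟩ := h2 Cw
  obtain ⟨N2, hN⟩ := h3 Cw
  obtain ⟨N3, ho⟩ := ev_lg ((ev_o2_div c 3 n n1).and ((ev_o2_pow 2 0).and
    ((ev_pow_le_two_pow 2 Cw).and (eventually_ge_atTop 3))))
  refine ⟨N1 + N2 + N3 + 2, fun N w a b hN0 hw hw' ha hb => ?_⟩
  obtain ⟨o1, o2', o3, o4⟩ := ho N (by omega)
  have o1 := o1 (lg N) (by omega)
  rw [← o2_eq] at o1 o2'
  obtain ⟨b1, b2⟩ := mem_RU.1 hb
  have a1 : 1 ≤ a := by have := mem_Ico.1 b1; omega
  have N1' : (1 : ℝ) ≤ N := by exact_mod_cast (by omega : 1 ≤ N)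
  have haN : a ≤ N := by
    have : (a : ℝ) ≤ N := ha.trans (by
      simpa using Real.rpow_le_rpow_of_exponent_le N1' (by linarith : κ / 2 ≤ 1))
    exact_mod_cast this
  have hX : N ≤ a * N := Nat.le_mul_of_pos_left N a1
  have hl := two_pow_lg_le (by omega : 1 ≤ N)
  have hoN : o2 N ≤ N := le_trans (Nat.pow_le_pow_right (by norm_num)
    ((Nat.sqrt_le_self _).trans (Nat.sqrt_le_self _))) hl
  have hf : ∀ m ∈ Ico (a * N) (2 * (a * N)), pr1 m * rr w m = pr1 m := fun m hm => by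
    by_cases hp : m.Prime
    · rw [rr_of_rough fun p pp h => ?_, mul_one]
      have := (mem_Ico.1 hm).1
      rw [(Nat.prime_dvd_prime_iff_eq pp hp).1 h]
      omega
    · unfold pr1
      rw [if_neg hp, zero_mul]
  obtain ⟨p1, p2⟩ := hN N (a * N) w (by omega) hX (by nlinarith) hw hw'
  have hν := dens a1 (by omega) (by omega) hf p1 p2
  have hb' : ∀ m, 0 ≤ pr1 m * rr w m ∧ pr1 m * rr w m ≤ rr w m := fun m =>
    ⟨mul_nonneg (pr1_bd m).1 (rr_bd w m).1, mul_le_of_le_one_left (rr_bd w m).1 (pr1_bd m).2⟩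
  refine ⟨fun _ => 0, fun m => den (a * N) a w (fun m => pr1 m * rr w m) * rr w m - pr1 m * rr w m,
    fun _ => le_rfl, by simp, fun b' _ n _ => ?_, fun e φ e1 e2 e3 e4 e5 => ?_⟩
  · have c1 := mul_le_mul_of_nonneg_right hν (rr_bd w (a * n + b')).1
    have c2 := mul_le_of_le_one_right (pr1_bd (a * n + b')).1 (rr_bd w (a * n + b')).2
    show _ ≤ _ + 0 + (_ * rr w (a * n + b') - pr1 (a * n + b') * rr w (a * n + b'))
    linarith
  · refine (h4 a N w e {b}
      (fun m => den (a * N) a w (fun m => pr1 m * rr w m) * rr w m - pr1 m * rr w m) φ e1 e3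
      (singleton_subset_iff.2 hb) (fun m hm => ?_) e4 e5).trans ?_
    · refine rough_of_rr fun h0 => hm ?_
      simp only [h0, mul_zero, sub_zero]
    have : NeZero (a * e) := ⟨(Nat.mul_pos a1 e1).ne'⟩
    have hlog := Real.log_nonneg (one_le_pow₀ (n := 3) N1')
    refine (sum_le_card_nsmul _ _ (C * ((a * N : ℕ) : ℝ) ^ (1 - κ) *
      (1 + Real.log ((N : ℝ) ^ 3)) ^ 3 + 1 + N / (e * (o2 N : ℝ) ^ 3)) fun c hc => ?_).trans ?_
    · have c1 := (mem_filter.1 hc).1
      have c2 := cl_den (X := a * N) (a := a) e3 hb' c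
      rw [cl_sub, abs_sub_comm, ← cl_sub] at c2
      refine c2.trans (add_le_add (orth c1 _ (by positivity) fun χ hχ => ?_)
        (hR a N w e c (by omega) a1 hw hw' e1 e2 c1))
      rw [sum_congr rfl fun m hm => by rw [hf m hm]]
      refine (primes (by omega) χ).trans (add_le_add ?_ le_rfl)
      have := hP (a * e) χ 0 ((N : ℝ) ^ 3) (a * N) (a * N) (2 * (a * N)) hχ
        (by exact_mod_cast (by nlinarith [Nat.mul_le_mul haN (e2.trans hoN)] : a * e ≤ N ^ 3))
        (by simp) (by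
          have : 2 * (a * N) ≤ N ^ 3 := by
            calc _ ≤ N * (N * N) := Nat.mul_le_mul (by omega) (Nat.mul_le_mul_right N haN)
              _ = _ := by ring
          exact_mod_cast this) (by omega) le_rfl (by omega) le_rfl
      simpa only [nit_zero, mul_one] using this
    · rw [nsmul_eq_mul]
      have c1 : (((RR (a * e)).filter (fun c => c % a ∈ ({b} : Finset ℕ))).card : ℝ) ≤ e := by
        exact_mod_cast card_cls a1
      refine (mul_le_mul_of_nonneg_right c1 (by positivity)).trans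
        ((total (by exact_mod_cast (by simpa using o2' : 2 ≤ o2 N)) (by exact_mod_cast e1)
          (by exact_mod_cast e2) (by positivity) (by positivity)
          (numer k0 k1 C0 hn hc (by omega) o4 ha o1)).trans ?_)
      rw [mul_div_assoc]
      exact le_mul_of_one_le_left (by positivity) (one_le_div_totient a1)

end Pool.Agent.P.MP_746f10_nt.AZ
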