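import Pool.Agent.P.MP_746f10_nt.AZ.Base
import Pool.Agent.P.MP_746f10_nt.AP.QRed
import Pool.Agent.P.MP_746f10_nt.AP.Rows

/-! The case distinction on the size of the first modulus. -/

namespace Pool.Agent.P.MP_746f10_nt.AZ

open Finset Filter
open Pool.Agent.P.MP_746f10_nt.AP

namespace MainP

lemma ZS.mono {k N w : ℕ} {a : Fin (k + 1) → ℕ} {BB : Finset (Fin (k + 1) → ℕ)} {β β' : ℝ}
    (H : ZS N w a BB β) (h : β ≤ β') : ZS N w a BB β' :=
  le_trans H (add_le_add le_rfl h)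

/-- few primes below the sifting limit -/
lemma pr_le (z : ℕ) {f : ℕ → ℕ} (hf : ∀ n, n ≤ f n) (s : Finset ℕ) :
    ∑ n ∈ s, pr1 (f n) ≤ z + 1 + ∑ n ∈ s, rr z (f n) := by
  have h1 : ∀ n ∈ s, pr1 (f n) ≤ (if n ∈ range (z + 1) then 1 else 0) + rr z (f n) := fun n _ => by
    split_ifs with h
    · linarith [(pr1_bd (f n)).2, (rr_bd z (f n)).1]
    · rw [zero_add]
      exact RowsP.pr1_le_rr (by have := hf n; rw [mem_range] at h; omega)
  refine (sum_le_sum h1).trans ?_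
  rw [sum_add_distrib, sum_ite_mem, sum_const, nsmul_eq_mul, mul_one]
  have : (s ∩ range (z + 1)).card ≤ z + 1 := (card_le_card inter_subset_right).trans (by simp)
  have : ((s ∩ range (z + 1)).card : ℝ) ≤ z + 1 := by exact_mod_cast this
  linarith

end MainP

open MainP

theorem zBT (h : T_AP) : T_BT := by
  obtain ⟨k0, h⟩ := h
  obtain ⟨D, hD⟩ : ∃ D, D = 4 * (k0 + 0) + 6 := ⟨_, rfl⟩
  obtain ⟨N0, hN0⟩ := ev_lg ((ev_pow_le_div 1 1 4 (by norm_num)).and (eventually_ge_atTop (4 * D)))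
  refine ⟨32 * D + 3, N0 + 1, by have : (0 : ℝ) ≤ D := Nat.cast_nonneg _; linarith,
    fun N a hN ha => ?_⟩
  obtain ⟨h1, h2⟩ := hN0 N (by omega)
  have h3 := two_pow_lg_le (Q := N) (by omega)
  generalize lg N = g at *
  have hD1 : 6 ≤ D := by omega
  have g0 : (0 : ℝ) < g := by exact_mod_cast (by omega : 0 < g)
  have hV := RowsP.VV_pow_le (g := g) (s := 4 * D) (by omega) h2
  obtain ⟨z, hz⟩ : ∃ z, z = 2 ^ (g / (4 * D)) := ⟨_, rfl⟩
  rw [← hz] at hV
  have hz2 : 2 ≤ z := by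
    rw [hz]
    exact Nat.le_self_pow (by have := (Nat.one_le_div_iff (by omega : 0 < 4 * D)).2 h2; omega) 2
  have hzD : z ^ D ≤ 2 ^ (g / 4) := by
    rw [hz, ← pow_mul, ← Nat.div_div_eq_div_mul]
    exact Nat.pow_le_pow_right (by norm_num) (Nat.div_mul_le_self _ _)
  have key : ∀ y : ℕ, N ≤ y ^ 2 → (z : ℝ) ^ D ≤ y / g ∧ (z : ℝ) + 1 ≤ 2 * (y / g) := fun y hy => by
    have a1 : 2 ^ (g / 4) * 2 ^ (g / 4) ≤ y := by
      refine (Nat.pow_le_pow_iff_left two_ne_zero).1 (le_trans ?_ (h3.trans hy))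
      rw [← pow_add, ← pow_mul]
      exact Nat.pow_le_pow_right (by norm_num) (by omega)
    have a2 : z ^ D * g ≤ y := le_trans (Nat.mul_le_mul hzD (by simpa using h1)) a1
    have a3 : (z : ℝ) ^ D ≤ y / g := by
      rw [le_div_iff₀ g0]
      exact_mod_cast a2
    have a4 : (2 : ℝ) ≤ z := by exact_mod_cast hz2
    have a5 : (z : ℝ) ≤ z ^ D := le_self_pow₀ (by linarith) (by omega)
    exact ⟨a3, by linarith⟩
  have v0 := VV_pos z
  have hV' : VV z ≤ 16 * D / g := by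
    rw [le_div_iff₀ g0]
    push_cast at hV
    linarith
  have a1 : (1 : ℝ) ≤ a := by exact_mod_cast ha
  refine ⟨fun x y hy => ?_, fun b hb x y hy => ?_⟩
  · obtain ⟨k1, k2⟩ := key y hy
    have e1 : ∑ n ∈ Ico x (x + y), ∑ b ∈ RU a, pr1 (a * n + b) ≤
        ∑ m ∈ Ico (a * x) (a * x + a * y), pr1 m := by
      rw [← mul_add]
      refine le_trans (sum_le_sum fun n _ => ?_)
        (sum_rows_le a x (x + y) (by omega) fun m => (pr1_bd m).1)
      exact sum_le_sum_of_subset_of_nonneg (filter_subset _ _) fun _ _ _ => (pr1_bd _).1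
    have e2 := pr_le z (f := fun n => n) (fun _ => le_rfl) (Ico (a * x) (a * x + a * y))
    have e3 := (abs_le.1 (h 0 z (a * x) (a * y) 1 0 hz2 le_rfl fun p hp _ h0 =>
      absurd (Nat.dvd_one.1 h0) hp.ne_one)).2
    have e4 := VM_le (M := 1) le_rfl z
    rw [filter_true_of_mem fun _ _ => Nat.modEq_one, ← hD] at e3
    simp only [Nat.totient_one, Nat.cast_one, div_one, mul_one, pow_zero, Nat.cast_mul] at e3 e4
    have e5 : (a : ℝ) * y * VM z 1 ≤ a * y * (16 * D / g) := by gcongr; exact e4.trans hV'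
    have e6 : (y : ℝ) / g ≤ a * (y / g) := le_mul_of_one_le_left (by positivity) a1
    calc _ ≤ 2 * ((a : ℝ) * y * (16 * D / g)) + 3 * (a * (y / g)) := by linarith
      _ = _ := by field_simp; ring
  · obtain ⟨k1, k2⟩ := key y hy
    have e2 := pr_le z (f := fun n => a * n + b)
      (fun n => (Nat.le_mul_of_pos_left n ha).trans (Nat.le_add_right _ _)) (Ico x (x + y))
    have e1 : ∑ n ∈ Ico x (x + y), rr z (a * n + b) =
        ∑ m ∈ (Ico (a * x + b) (a * x + b + a * y)).filter (fun m => m ≡ b [MOD a]), rr z m := by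
      refine sum_nbij' (fun n => a * n + b) (fun m => (m - b) / a) ?_ ?_ ?_ ?_ fun _ _ => rfl
      · intro n hn
        have := mem_Ico.1 hn
        refine mem_filter.2 ⟨mem_Ico.2 ⟨by nlinarith [this.1], by nlinarith [this.2]⟩, ?_⟩
        exact Nat.modEq_iff_dvd' (by omega) |>.2 (by simp) |>.symm
      · intro m hm
        have := mem_Ico.1 (mem_filter.1 hm).1
        refine mem_Ico.2 ⟨(Nat.le_div_iff_mul_le ha).2 (by rw [mul_comm]; omega),
          (Nat.div_lt_iff_lt_mul ha).2 (by rw [mul_comm, mul_add]; omega)⟩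
      · intro n _
        show (a * n + b - b) / a = n
        rw [Nat.add_sub_cancel, Nat.mul_div_cancel_left n ha]
      · intro m hm
        have h4 := mem_Ico.1 (mem_filter.1 hm).1
        have h5 := (Nat.modEq_iff_dvd' (by omega)).1 (mem_filter.1 hm).2.symm
        show a * ((m - b) / a) + b = m
        rw [Nat.mul_div_cancel' h5]
        omega
    have e3 := (abs_le.1 (h 0 z (a * x + b) (a * y) a b hz2 ha fun p hp _ h0 h4 =>
      hp.ne_one (Nat.eq_one_of_dvd_coprimes hb h4 h0))).2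
    rw [← e1, ← hD, Nat.cast_mul, mul_div_cancel_left₀ _ (by linarith), pow_zero, div_one] at e3
    have e4 := VM_le ha z
    have e7 := one_le_div_totient ha
    generalize (a : ℝ) / a.totient = Z at *
    have e5 : (y : ℝ) * VM z a ≤ y * (16 * D / g * Z) := by
      gcongr
      exact e4.trans (by gcongr)
    have e6 : (y : ℝ) / g ≤ Z * (y / g) := le_mul_of_one_le_left (by positivity) e7
    calc _ ≤ 2 * ((y : ℝ) * (16 * D / g * Z)) + 3 * (Z * (y / g)) := by linarith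
      _ = _ := by field_simp; ring

theorem zMain (h1 : T_Core) (h2 : T_Zero) (h3 : T_ZeroL) (h4 : T_K1) (h5 : T_K2) (h6 : T_BT) :
    T_Main := by
  classical
  intro k
  obtain ⟨c, hc, h1⟩ := h1 k
  obtain ⟨δ, hδ, -, h5⟩ := h5
  obtain ⟨C, N6, hC, h6⟩ := h6
  refine ⟨c, δ, hc, hδ, fun ε hε => ?_⟩
  obtain ⟨ε1, C1, hε1, h1⟩ := h1 C ε hC hε
  obtain ⟨C3, h3⟩ := h3 k ε1 hε1
  obtain ⟨N1, h1⟩ := h1 (C1 + C3 + 1)
  obtain ⟨N2, h2⟩ := h2 k (C1 + C3 + 1)
  obtain ⟨N3, h3⟩ := h3 (C1 + C3 + 1)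
  obtain ⟨N4, h4⟩ := h4 ε1 (C1 + C3 + 1) hε1
  obtain ⟨N5, h5⟩ := h5 (C1 + C3 + 1)
  obtain ⟨N7, h7⟩ := ev_lg (eventually_ge_atTop 2)
  refine ⟨N1 + N2 + N3 + N4 + N5 + N6 + N7, fun Q a hQ ha ha' => ?_⟩
  have g2 := h7 Q (by omega)
  obtain ⟨w, hw⟩ : ∃ w, w = lg Q ^ (C1 + C3 + 1) := ⟨_, rfl⟩
  have w1 : lg Q ^ C1 ≤ w := hw ▸ Nat.pow_le_pow_right (by omega) (by omega)
  have w3 : lg Q ^ C3 ≤ w := hw ▸ Nat.pow_le_pow_right (by omega) (by omega)
  have w2 : 2 ≤ w := hw ▸ g2.trans (Nat.le_self_pow (by omega) _)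
  have hmem : ∀ b ∈ Fintype.piFinset (fun i => Ico 1 (a i)), Bd c Q a b →
      b 0 ∈ RU (a 0) ∧ ∀ i : Fin k, b i.succ ∈ Ico 1 (a i.succ) := fun b hb hb' =>
    ⟨mem_RU.2 ⟨Fintype.mem_piFinset.1 hb 0, QRedP.adm_cop hb'.1 0⟩,
      fun i => Fintype.mem_piFinset.1 hb _⟩
  constructor
  · generalize hB : @Finset.filter (Fin (k + 1) → ℕ) _ (_) _ = BB
    have hBB : ∀ b ∈ BB, (b 0 ∈ RU (a 0) ∧ ∀ i : Fin k, b i.succ ∈ Ico 1 (a i.succ)) ∧
        Bd c Q a b := fun b hb =>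
      have h0 := mem_filter.1 (hB ▸ hb)
      ⟨hmem b h0.1 h0.2, h0.2⟩
    rcases BB.eq_empty_or_nonempty with rfl | ⟨b1, hb1⟩
    · rw [card_empty, Nat.cast_zero]
      positivity
    have a1 : 1 ≤ a 0 := by
      have := mem_Ico.1 (mem_RU.1 (hBB b1 hb1).1.1).1
      omega
    have a0 : (0 : ℝ) < a 0 := by exact_mod_cast a1
    have hc0 : ((RU (a 0)).card : ℝ) ≤ a 0 := by exact_mod_cast card_RU_le _
    have := h1 Q w a (RU (a 0)) BB (a 0) (by omega) w1 hw.le a1 ha ha' hc0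
      (h6 Q (a 0) (by omega) a1).1 (fun b hb => ⟨(hBB b hb).1.1, (hBB b hb).1.2, (hBB b hb).2⟩) ?_
    · rw [Fin.prod_univ_succ]
      refine this.trans (le_of_eq ?_)
      field_simp
    rcases le_total Q (a 0) with h8 | h8
    · exact h3 Q w a BB (by omega) w3 hw.le (Fin.cases h8 ha') (ha 0) fun b hb => (hBB b hb).1
    · exact h2 Q w a _ BB _ _ (by omega) w2 hw.le ha' hε1.le hc0 (fun b hb => (hBB b hb).1)
        (h4 Q w (a 0) (by omega) w2 hw.le a1 h8)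
  · intro hδ' b0
    generalize hB : @Finset.filter (Fin (k + 1) → ℕ) _ (_) _ = BB
    have hBB : ∀ b ∈ BB, (b 0 ∈ RU (a 0) ∧ ∀ i : Fin k, b i.succ ∈ Ico 1 (a i.succ)) ∧
        b 0 = b0 ∧ Bd c Q a b := fun b hb =>
      have h0 := mem_filter.1 (hB ▸ hb)
      ⟨hmem b h0.1 h0.2.2, h0.2⟩
    rcases BB.eq_empty_or_nonempty with rfl | ⟨b1, hb1⟩
    · rw [card_empty, Nat.cast_zero]
      positivity
    have hb0 : b0 ∈ RU (a 0) := (hBB b1 hb1).2.1 ▸ (hBB b1 hb1).1.1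
    have a1 : 1 ≤ a 0 := by
      have := mem_Ico.1 (mem_RU.1 hb0).1
      omega
    have a0 : (0 : ℝ) < a 0 := by exact_mod_cast a1
    have t0 : (0 : ℝ) < (a 0).totient := by exact_mod_cast Nat.totient_pos.2 a1
    have z1 := one_le_div_totient a1
    have hc0 : ((({b0} : Finset ℕ).card : ℕ) : ℝ) ≤ a 0 / (a 0).totient := by simpa using z1
    have := h1 Q w a {b0} BB (a 0 / (a 0).totient) (by omega) w1 hw.le a1 ha ha' hc0
      (by simpa only [sum_singleton] using (h6 Q (a 0) (by omega) a1).2 b0 (mem_RU.1 hb0).2)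
      (fun b hb => ⟨mem_singleton.2 (hBB b hb).2.1, (hBB b hb).1.2, (hBB b hb).2.2⟩)
      (ZS.mono (h2 Q w a _ BB _ _ (by omega) w2 hw.le ha' le_rfl hc0
        (fun b hb => ⟨mem_singleton.2 (hBB b hb).2.1, (hBB b hb).1.2⟩)
        (h5 Q w (a 0) b0 (by omega) w2 hw.le hδ' hb0)) (by gcongr))
    refine this.trans (le_of_eq ?_)
    field_simp

end Pool.Agent.P.MP_746f10_nt.AZ
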