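import Pool.Agent.P.MP_746f10_nt.AZ.Base
import Pool.Agent.P.MP_746f10_nt.AP.Bad

/-! A thin set of divisors that covers the exceptional numbers. -/

namespace Pool.Agent.P.MP_746f10_nt.AZ

open Finset Filter
open Pool.Agent.P.MP_746f10_nt.AP
open Pool.Agent.P.MP_746f10_nt.AP.BadP

namespace MajP

open Classical in
/-- rough numbers of a window -/
noncomputable def Rw (z a t : ℕ) : Finset ℕ := (Ioc (2 ^ a) (2 ^ (a + t))).filter (rough z)

/-- products of two numbers from sets with a common index -/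
def pr (J : Finset ℕ) (A B : ℕ → Finset ℕ) : Finset ℕ :=
  (J.sigma fun j => A j ×ˢ B j).image fun x => x.2.1 * x.2.2

lemma mem_Rw {z a t d : ℕ} (h1 : 2 ^ a < d) (h2 : d ≤ 2 ^ (a + t)) (h3 : rough z d) :
    d ∈ Rw z a t := by
  classical
  unfold Rw
  simp only [mem_filter, mem_Ioc]
  exact ⟨⟨h1, h2⟩, h3⟩

lemma mem_pr {J : Finset ℕ} {A B : ℕ → Finset ℕ} {j p l : ℕ} (hj : j ∈ J) (hp : p ∈ A j)
    (hl : l ∈ B j) : p * l ∈ pr J A B :=
  mem_image.2 ⟨⟨j, p, l⟩, mem_sigma.2 ⟨hj, mem_product.2 ⟨hp, hl⟩⟩, rfl⟩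

lemma un (A B : Finset ℕ) :
    ∑ d ∈ A ∪ B, 1 / (d : ℝ) ≤ ∑ d ∈ A, 1 / (d : ℝ) + ∑ d ∈ B, 1 / (d : ℝ) := by
  rw [← sum_union_inter]
  exact le_add_of_nonneg_right (sum_nonneg fun _ _ => by positivity)

lemma pr_sum {J : Finset ℕ} {A B : ℕ → Finset ℕ} {x y : ℝ} (hx : 0 ≤ x)
    (hA : ∀ j ∈ J, ∑ d ∈ A j, 1 / (d : ℝ) ≤ x) (hB : ∀ j ∈ J, ∑ d ∈ B j, 1 / (d : ℝ) ≤ y) :
    ∑ d ∈ pr J A B, 1 / (d : ℝ) ≤ J.card * (x * y) := by
  unfold pr
  refine (sum_image_le_of_nonneg fun _ _ => by positivity).trans ?_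
  rw [sum_sigma, ← nsmul_eq_mul]
  refine sum_le_card_nsmul _ _ _ fun j hj => ?_
  refine le_trans (le_of_eq ?_)
    (mul_le_mul (hA j hj) (hB j hj) (sum_nonneg fun _ _ => by positivity) hx)
  rw [sum_mul_sum, sum_product]
  refine sum_congr rfl fun p _ => sum_congr rfl fun l _ => ?_
  push_cast
  rw [one_div_mul_one_div]

variable {C : ℝ} {u Q : ℕ}

lemma Rw_sum (hC : 0 < C) (h : Up C) (hu : 1 ≤ u) (B : Big u (lg Q)) {a : ℕ} (t : ℕ)
    (ha : lg Q ≤ 2 ^ a) :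
    ∑ d ∈ Rw (zz u Q) a t, 1 / (d : ℝ) ≤ t * ((1 + 8 * C * u) / lg Q) := by
  have hi := inv_log hu B
  have hg : (0 : ℝ) < lg Q := by have := B.h1; exact_mod_cast (by omega : 0 < lg Q)
  have hga : (lg Q : ℝ) ≤ 2 ^ a := by exact_mod_cast ha
  calc _ = ∑ d ∈ Ioc (2 ^ a) (2 ^ (a + t)), rr (zz u Q) d / d := by
        unfold Rw
        rw [sum_filter]
        refine sum_congr rfl fun d _ => ?_
        unfold rr
        split_ifs <;> simp
    _ ≤ t * (1 / 2 ^ a + 2 * C * (1 / Real.log (zz u Q))) := by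
        rw [mul_one_div (2 * C)]
        exact win hC h (two_le_zz hu B) a t
    _ ≤ t * (1 / lg Q + 2 * C * (4 * u / lg Q)) := by gcongr
    _ = _ := by ring

lemma box_sum (hC : 0 < C) (h : Up C) (hu : 1 ≤ u) (B : Big u (lg Q)) {j : ℕ}
    (hj : lg Q / u ≤ j) : ∑ d ∈ box j, 1 / (d : ℝ) ≤ (1 + 4 * C) * (2 * u / lg Q) := by
  have hg : (0 : ℝ) < lg Q := by have := B.h1; exact_mod_cast (by omega : 0 < lg Q)
  have hgu : 1 ≤ lg Q / u := (Nat.le_div_iff_mul_le hu).2 (by have := B.h1; omega)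
  have hj0 : (0 : ℝ) < j := by exact_mod_cast (by omega : 0 < j)
  have h1 : (lg Q : ℝ) ≤ 2 * u * j := by
    refine (div_ge hu B.h1).trans ?_
    have : ((lg Q / u : ℕ) : ℝ) ≤ j := by exact_mod_cast hj
    gcongr
  have h2 : 1 / (j : ℝ) ≤ 2 * u / lg Q := by
    rw [div_le_div_iff₀ hj0 hg]; linarith
  calc _ ≤ (box j).card • (1 / (2 : ℝ) ^ j) := by
        refine sum_le_card_nsmul _ _ _ fun p hp => ?_
        have : (2 : ℝ) ^ j ≤ p := by exact_mod_cast (mem_PP.1 hp).1.le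
        gcongr
    _ ≤ (1 + 4 * C) * 2 ^ j / j * (1 / (2 : ℝ) ^ j) := by
        rw [nsmul_eq_mul]
        exact mul_le_mul_of_nonneg_right (box_card hC h (by omega)) (by positivity)
    _ = (1 + 4 * C) * (1 / (j : ℝ)) := by field_simp
    _ ≤ _ := by gcongr

/-- the covering set before the truncation -/
noncomputable def cov (u Q : ℕ) : Finset ℕ :=
  Rw (zz u Q) (7 * lg Q / 10 - Nat.sqrt (lg Q)) (Nat.sqrt (lg Q)) ∪
    Rw (zz u Q) (lg Q - 2 * Nat.sqrt (lg Q)) (2 * Nat.sqrt (lg Q) + 2) ∪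
    pr (Ico (lg Q / u) (lg Q + 2)) box box ∪
    pr (Ico (lg Q / u) (lg Q + 2)) box
      fun j => Rw (zz u Q) (max (2 * lg Q - 2 * j - 3) (lg Q / u)) 7

lemma cov_sum (hC : 0 < C) (h : Up C) (hu : 1 ≤ u) (B : Big u (lg Q))
    (hz : lg Q ≤ 2 ^ (lg Q / u)) :
    ∑ d ∈ cov u Q, 1 / (d : ℝ) ≤
      (5 * (1 + 8 * C * u) + 8 * (1 + 4 * C) ^ 2 * u ^ 2 + 28 * u * (1 + 4 * C) * (1 + 8 * C * u)) *
        Nat.sqrt (lg Q) / lg Q := by
  have h3 := B.h3
  have h5 := B.h5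
  have hg : (0 : ℝ) < lg Q := by have := B.h1; exact_mod_cast (by omega : 0 < lg Q)
  have hs : (1 : ℝ) ≤ Nat.sqrt (lg Q) := by exact_mod_cast h3
  have hc : ((Ico (lg Q / u) (lg Q + 2)).card : ℝ) ≤ 2 * lg Q := by
    have : (Ico (lg Q / u) (lg Q + 2)).card ≤ 2 * lg Q := by
      rw [Nat.card_Ico]
      exact (Nat.sub_le _ _).trans (by omega)
    exact_mod_cast this
  have a1 := Rw_sum hC h hu B (a := 7 * lg Q / 10 - Nat.sqrt (lg Q)) (Nat.sqrt (lg Q))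
    (B.h4.trans (Nat.pow_le_pow_right (by norm_num) (by omega)))
  have a2 := Rw_sum hC h hu B (a := lg Q - 2 * Nat.sqrt (lg Q)) (2 * Nat.sqrt (lg Q) + 2)
    (B.h4.trans (Nat.pow_le_pow_right (by norm_num) (by omega)))
  have hb : ∀ j ∈ Ico (lg Q / u) (lg Q + 2),
      ∑ d ∈ AP.box j, 1 / (d : ℝ) ≤ (1 + 4 * C) * (2 * u / lg Q) :=
    fun j hj => box_sum hC h hu B (mem_Ico.1 hj).1
  have a3 := pr_sum (by positivity) hb hb
  have a4 := pr_sum (B := fun j => Rw (zz u Q) (max (2 * lg Q - 2 * j - 3) (lg Q / u)) 7)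
    (by positivity) hb fun j _ => Rw_sum hC h hu B 7
      (hz.trans (Nat.pow_le_pow_right (by norm_num) (le_max_right _ _)))
  unfold cov
  refine (un _ _).trans ((add_le_add ((un _ _).trans (add_le_add ((un _ _).trans
    (add_le_add a1 a2)) a3)) a4).trans ?_)
  push_cast
  generalize ((Ico (lg Q / u) (lg Q + 2)).card : ℝ) = n at *
  generalize (Nat.sqrt (lg Q) : ℝ) = r at *
  generalize (lg Q : ℝ) = g at *
  calc _ ≤ r * ((1 + 8 * C * u) / g) + (2 * r + 2 * r) * ((1 + 8 * C * u) / g) +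
        2 * g * ((1 + 4 * C) * (2 * u / g) * ((1 + 4 * C) * (2 * u / g))) * r +
        2 * g * ((1 + 4 * C) * (2 * u / g) * (7 * ((1 + 8 * C * u) / g))) * r := by
        refine add_le_add (add_le_add (add_le_add le_rfl ?_) ?_) ?_
        · gcongr; linarith
        · exact le_trans (by gcongr) (le_mul_of_one_le_right (by positivity) hs)
        · exact le_trans (by gcongr) (le_mul_of_one_le_right (by positivity) hs)
    _ = _ := by field_simp; ring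

lemma pow_le {a b : ℕ} (h : a ≤ b) : 2 ^ a ≤ 2 ^ b := Nat.pow_le_pow_right (by norm_num) h

lemma pow_lt {a b : ℕ} (h : 2 ^ a < 2 ^ b) : a < b := (Nat.pow_lt_pow_iff_right (by norm_num)).1 h

lemma cov_dvd (B : Big u (lg Q)) (hQ : 1 ≤ Q) {m : ℕ} (h1 : Q ^ 2 ≤ m) (h2 : m < 4 * Q ^ 2)
    (hb : bad u Q m ≠ 0) :
    rough (zz u Q) m ∧ ∃ d ∈ cov u Q, d ≤ 2 ^ (4 * lg Q / 3 + 7) ∧ d ∣ m := by
  have h3 := B.h3
  have h5 := B.h5
  unfold bad at hb
  split_ifs at hb with hb'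
  swap
  · exact absurd rfl hb
  obtain ⟨hr, hb⟩ := hb'
  refine ⟨hr, ?_⟩
  have hro : ∀ d, d ∣ m → rough (zz u Q) d := fun d hd p hp h => hr p hp (h.trans hd)
  have m1 : 2 ^ (2 * lg Q) ≤ m :=
    calc 2 ^ (2 * lg Q) = (2 ^ lg Q) ^ 2 := by ring
      _ ≤ Q ^ 2 := Nat.pow_le_pow_left (two_pow_lg_le hQ) _
      _ ≤ m := h1
  have m2 : m < 2 ^ (2 * lg Q + 4) :=
    calc m < 4 * Q ^ 2 := h2
      _ ≤ 4 * (2 ^ (lg Q + 1)) ^ 2 := by gcongr; exact (lt_two_pow_lg Q).le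
      _ = _ := by ring
  have m0 : 0 < m := (Nat.two_pow_pos _).trans_le m1
  unfold cov
  obtain ⟨j, p, p', hp, hp', hd⟩ | ⟨d, hd, ⟨k1, k2⟩ | ⟨k1, k2⟩⟩ := hb
  · obtain ⟨a1, a2, a3⟩ := mem_PP.1 hp
    obtain ⟨b1, b2, -⟩ := mem_PP.1 hp'
    have hpm : p ∣ m := (dvd_mul_right p p').trans hd
    have c1 : 2 ^ (2 * j) ≤ p * p' := by rw [two_mul, pow_add]; exact Nat.mul_le_mul a1.le b1.le
    have c2 : p * p' ≤ 2 ^ (2 * j + 2) :=
      (Nat.mul_le_mul a2 b2).trans (le_of_eq (by ring))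
    have j1 := pow_lt ((hr p a3 hpm).trans_le a2)
    have j2 := pow_lt ((c1.trans (Nat.le_of_dvd m0 hd)).trans_lt m2)
    have hj : j ∈ Ico (lg Q / u) (lg Q + 2) := mem_Ico.2 ⟨by omega, by omega⟩
    by_cases hj3 : j + 1 ≤ 2 * lg Q / 3
    · exact ⟨p * p', mem_union_left _ (mem_union_right _ (mem_pr hj hp hp')),
        c2.trans (pow_le (by omega)), hd⟩
    obtain ⟨l, rfl⟩ := hd
    by_cases hl : l = 1
    · have j3 : 2 * lg Q < 2 * j + 3 := by
        refine pow_lt (m1.trans_lt ?_)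
        rw [hl, mul_one]
        exact c2.trans_lt (Nat.pow_lt_pow_right (by norm_num) (by omega))
      exact ⟨p, mem_union_left _ (mem_union_left _ (mem_union_right _
        (mem_Rw ((pow_le (by omega)).trans_lt a1) (a2.trans (pow_le (by omega))) (hro p hpm)))),
        a2.trans (pow_le (by omega)), hpm⟩
    have l0 : 0 < l := Nat.pos_of_mul_pos_left m0
    have lr := hro l (dvd_mul_left _ _)
    have l1 : 2 ^ (lg Q / u) < l :=
      (lr _ (Nat.minFac_prime hl) (Nat.minFac_dvd l)).trans_le (Nat.minFac_le l0)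
    have l2 : 2 ^ max (2 * lg Q - 2 * j - 3) (lg Q / u) < l := by
      rcases le_total (2 * lg Q - 2 * j - 3) (lg Q / u) with h | h
      · rwa [max_eq_right h]
      rw [max_eq_left h]
      by_cases h0 : 2 * lg Q - 2 * j - 3 = 0
      · exact (pow_le (h0.le.trans (Nat.zero_le _))).trans_lt l1
      by_contra hn
      have e1 : p * p' * l ≤ 2 ^ (2 * j + 2 + (2 * lg Q - 2 * j - 3)) := by
        rw [pow_add _ (2 * j + 2)]
        exact Nat.mul_le_mul c2 (not_lt.1 hn)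
      exact absurd (m1.trans e1) (not_le.2 (Nat.pow_lt_pow_right (by norm_num) (by omega)))
    have l3 : l ≤ 2 ^ (max (2 * lg Q - 2 * j - 3) (lg Q / u) + 7) := by
      by_contra hn
      have e1 : 2 ^ (2 * j + (max (2 * lg Q - 2 * j - 3) (lg Q / u) + 7)) ≤ p * p' * l := by
        rw [pow_add _ (2 * j)]
        exact Nat.mul_le_mul c1 (not_le.1 hn).le
      have := pow_lt (e1.trans_lt m2)
      have := le_max_left (2 * lg Q - 2 * j - 3) (lg Q / u)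
      omega
    refine ⟨p * l, mem_union_right _ (mem_pr hj hp (mem_Rw l2 l3 lr)), ?_, p', by ring⟩
    by_contra hn
    have e1 : 2 ^ (4 * lg Q / 3 + 7 + j) ≤ p * p' * l := by
      rw [pow_add _ _ j, mul_right_comm]
      exact Nat.mul_le_mul (not_le.1 hn).le b1.le
    have := pow_lt (e1.trans_lt m2)
    omega
  · have e : 7 * lg Q / 10 - Nat.sqrt (lg Q) + Nat.sqrt (lg Q) = 7 * lg Q / 10 := by omega
    refine ⟨d, mem_union_left _ (mem_union_left _ (mem_union_left _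
      (mem_Rw ?_ (by rw [e]; exact k2) (hro d hd)))), k2.trans (pow_le (by omega)), hd⟩
    unfold DD om at k1
    rw [← e, pow_add] at k1
    exact lt_of_mul_lt_mul_right k1 (Nat.zero_le _)
  · have e : lg Q - 2 * Nat.sqrt (lg Q) + Nat.sqrt (lg Q) * 2 = lg Q := by omega
    refine ⟨d, mem_union_left _ (mem_union_left _ (mem_union_right _
      (mem_Rw ?_ (k2.trans (pow_le (by omega))) (hro d hd)))), k2.trans (pow_le (by omega)), hd⟩
    unfold om at k1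
    have k3 : 2 ^ lg Q = 2 ^ (lg Q - 2 * Nat.sqrt (lg Q)) * (2 ^ Nat.sqrt (lg Q)) ^ 2 := by
      rw [← pow_mul, ← pow_add, e]
    rw [k3] at k1
    exact lt_of_mul_lt_mul_right k1 (Nat.zero_le _)

end MajP

open MajP in
theorem zMaj (h : S_Up) : T_Maj := by
  obtain ⟨C, hC, h⟩ := h
  intro u ε hu hε
  set K : ℝ := 5 * (1 + 8 * C * u) + 8 * (1 + 4 * C) ^ 2 * u ^ 2 +
    28 * u * (1 + 4 * C) * (1 + 8 * C * u) with hK
  obtain ⟨c, hc⟩ := exists_nat_ge (K / ε)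
  rw [div_le_iff₀ hε] at hc
  have ev : ∀ᶠ g : ℕ in atTop, Big u g ∧ c * Nat.sqrt g ≤ g ∧ g ≤ 2 ^ (g / u) := by
    filter_upwards [eventually_ge_atTop (2 * u), ev_pow_le_two_pow 1 2,
      tendsto_sqrt.eventually_ge_atTop 1, ev_pow_le_sqrt 1 1, ev_mul_sqrt_le 10,
      ev_mul_sqrt_le c, ev_pow_le_div 1 1 u hu] with g h1 h2 h3 h4 h5 h6 h7
    exact ⟨⟨h1, by simpa using h2, h3, by simpa using h4, h5⟩, h6, by simpa using h7⟩
  obtain ⟨Q0, hQ0⟩ := ev_lg ev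
  refine ⟨max Q0 1, fun Q hQ => ?_⟩
  obtain ⟨B, hcs, hz⟩ := hQ0 Q (le_of_max_le_left hQ)
  have hQ1 : 1 ≤ Q := le_of_max_le_right hQ
  have hg : (0 : ℝ) < lg Q := by have := B.h1; exact_mod_cast (by omega : 0 < lg Q)
  have hcs' : (c : ℝ) * Nat.sqrt (lg Q) ≤ lg Q := by exact_mod_cast hcs
  refine ⟨(cov u Q).filter fun d => 1 ≤ d ∧ d ≤ 2 ^ (4 * lg Q / 3 + 7),
    fun d hd => (mem_filter.1 hd).2, ?_, fun m h1 h2 hb => ?_⟩
  · refine (sum_le_sum_of_subset_of_nonneg (filter_subset _ _) fun _ _ _ => by positivity).trans ?_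
    refine (cov_sum hC h hu B hz).trans ?_
    rw [← hK, div_le_iff₀ hg]
    calc _ ≤ c * ε * Nat.sqrt (lg Q) := by gcongr
      _ = ε * (c * Nat.sqrt (lg Q)) := by ring
      _ ≤ _ := by gcongr
  · obtain ⟨hr, d, hd, k1, k2⟩ := cov_dvd B hQ1 h1 h2 hb
    exact ⟨hr, d, mem_filter.2 ⟨hd,
      Nat.pos_of_dvd_of_pos k2 ((Nat.pow_pos hQ1).trans_le h1), k1⟩, k2⟩

end Pool.Agent.P.MP_746f10_nt.AZ
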