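import Pool.Agent.P.MP_746f10_nt.AZ.Base

/-! Type I sums in the reduced classes of a small modulus. -/

namespace Pool.Agent.P.MP_746f10_nt.AZ

open Finset Filter
open Pool.Agent.P.MP_746f10_nt.AP

namespace PIP

/-- the estimate in progressions for fixed parameters -/
def APat (w : ℕ) (T W : ℝ) : Prop := ∀ x y M c : ℕ, 1 ≤ M →
  (∀ p, p.Prime → p ≤ w → p ∣ M → ¬ p ∣ c) →
  |∑ m ∈ (Ico x (x + y)).filter (fun m => m ≡ c [MOD M]), rr w m - y / M * VM w M| ≤
    y / M * VM w M / T + W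

lemma not_dvd_of {q c c' p : ℕ} (hc : c.Coprime q) (h : c' ≡ c [MOD q]) (hp : p.Prime)
    (hq : p ∣ q) : ¬ p ∣ c' := fun h1 => by
  have h2 : p ∣ c := ((h.of_dvd hq).dvd_iff dvd_rfl).1 h1
  exact hp.one_lt.ne' (Nat.eq_one_of_dvd_coprimes hc h2 hq)

/-- one divisor and one class -/
lemma term {w X q g c : ℕ} {T W : ℝ} (H : APat w T W) (hT : 0 < T) (hW : 0 ≤ W) (hq : 1 ≤ q)
    (hg : 1 ≤ g) (hgq : q.Coprime g) (hr : rough w g) (hc : c ∈ RR q) :
    |cl X q (fun m => rr w m * (dd m g - 1 / g)) c| ≤ 2 * (X / q / T * (1 / g) + W) := by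
  obtain ⟨hc1, hc2⟩ := mem_RR.1 hc
  obtain ⟨c', h1, h2⟩ := Nat.chineseRemainder hgq c 0
  have g0 : (1 : ℝ) ≤ g := by exact_mod_cast hg
  have q0 : (0 : ℝ) < q := by exact_mod_cast hq
  have a1 := H X X (q * g) c' (Nat.mul_pos hq hg) fun p hp hw hd =>
    not_dvd_of hc2 h1 hp ((hp.dvd_mul.1 hd).resolve_right fun h => absurd (hr p hp h) (by omega))
  have a2 := H X X q c hq fun p hp _ hd => not_dvd_of hc2 (Nat.ModEq.refl c) hp hd
  rw [VM_mul hr, ← two_mul] at a1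
  rw [← two_mul] at a2
  have e1 : cl X q (fun m => rr w m * (dd m g - 1 / g)) c =
      ∑ m ∈ (Ico X (2 * X)).filter (fun m => m ≡ c' [MOD q * g]), rr w m -
        1 / g * ∑ m ∈ (Ico X (2 * X)).filter (fun m => m ≡ c [MOD q]), rr w m := by
    unfold cl
    rw [mul_sum, sum_filter, sum_filter, sum_filter, ← sum_sub_distrib]
    refine sum_congr rfl fun m _ => ?_
    have e2 : m ≡ c' [MOD q * g] ↔ m ≡ c [MOD q] ∧ g ∣ m := by
      rw [← Nat.modEq_and_modEq_iff_modEq_mul hgq]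
      exact and_congr ⟨fun h => h.trans h1, fun h => h.trans h1.symm⟩
        ⟨fun h => Nat.modEq_zero_iff_dvd.1 (h.trans h2),
          fun h => (Nat.modEq_zero_iff_dvd.2 h).trans h2.symm⟩
    simp only [mod_eq_iff hc1, e2, dd]
    by_cases b1 : m ≡ c [MOD q] <;> by_cases b2 : g ∣ m <;> simp [b1, b2] <;> ring
  rw [e1]
  generalize ∑ m ∈ (Ico X (2 * X)).filter (fun m => m ≡ c' [MOD q * g]), rr w m = S1 at *
  generalize ∑ m ∈ (Ico X (2 * X)).filter (fun m => m ≡ c [MOD q]), rr w m = S2 at *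
  have v0 := (VM_pos w q).le
  have v1 := VM_le_one w q
  generalize VM w q = V at *
  have e3 : ((X : ℝ) / (q * g : ℕ)) = X / q * (1 / g) := by push_cast; field_simp
  rw [e3] at a1
  have i0 : (0 : ℝ) ≤ 1 / g := by positivity
  have i1 : (1 : ℝ) / g ≤ 1 := by rw [div_le_one (by linarith)]; exact g0
  generalize (1 : ℝ) / g = i at *
  have y0 : (0 : ℝ) ≤ X / q := by positivity
  generalize (X : ℝ) / q = Y at *
  rw [show S1 - i * S2 = (S1 - Y * i * V) - i * (S2 - Y * V) by ring]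
  refine (abs_sub _ _).trans ?_
  rw [abs_mul, abs_of_nonneg i0]
  have b1 : Y * i * V / T ≤ Y / T * i := by
    rw [show Y * i * V / T = Y / T * i * V by ring]
    exact mul_le_of_le_one_right (by positivity) v1
  have b2 : i * |S2 - Y * V| ≤ Y * i * V / T + i * W :=
    (mul_le_mul_of_nonneg_left a2 i0).trans (le_of_eq (by ring))
  have b3 : i * W ≤ W := mul_le_of_le_one_left hW i1
  linarith

lemma cl_sum (X q c : ℕ) (s : Finset ℕ) (lam : ℕ → ℝ) (r : ℕ → ℝ) (F : ℕ → ℕ → ℝ) :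
    cl X q (fun m => r m * ∑ g ∈ s, lam g * F m g) c =
      ∑ g ∈ s, lam g * cl X q (fun m => r m * F m g) c := by
  unfold cl
  simp only [mul_sum]
  rw [sum_comm]
  exact sum_congr rfl fun g _ => sum_congr rfl fun m _ => by ring

lemma harm {D N : ℕ} (h : D ≤ N) : ∑ g ∈ Icc 1 D, (1 : ℝ) / g ≤ 1 + Real.log N := by
  refine le_trans ?_ (harmonic_le_one_add_log N)
  rw [harmonic_eq_sum_Icc]
  push_cast
  simp only [one_div]
  exact sum_le_sum_of_subset_of_nonneg (Icc_subset_Icc_right h) fun _ _ _ => by positivity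

/-- all divisors and all classes -/
lemma all {w X q D N : ℕ} {T W : ℝ} {lam : ℕ → ℝ} (H : APat w T W) (hT : 0 < T) (hW : 0 ≤ W)
    (hq : 1 ≤ q) (hD : D ≤ N) (hl : ∀ g, |lam g| ≤ 1)
    (hs : ∀ g, lam g ≠ 0 → q.Coprime g ∧ rough w g) :
    ∑ c ∈ RR q, |cl X q (fun m => rr w m * ∑ g ∈ Icc 1 D, lam g * (dd m g - 1 / g)) c| ≤
      2 * (X / T * (1 + Real.log N) + q * D * W) := by
  have q0 : (0 : ℝ) < q := by exact_mod_cast hq
  have h1 : ∀ c ∈ RR q,
      |cl X q (fun m => rr w m * ∑ g ∈ Icc 1 D, lam g * (dd m g - 1 / g)) c| ≤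
        2 * (X / q / T * (1 + Real.log N) + D * W) := by
    intro c hc
    rw [cl_sum X q c (Icc 1 D) lam (rr w) fun m g => dd m g - 1 / g]
    refine (abs_sum_le_sum_abs _ _).trans ?_
    calc _ ≤ ∑ g ∈ Icc 1 D, 2 * (X / q / T * (1 / (g : ℝ)) + W) := by
          refine sum_le_sum fun g hg => ?_
          by_cases h0 : lam g = 0
          · rw [h0, zero_mul, abs_zero]
            positivity
          · rw [abs_mul]
            exact (mul_le_of_le_one_left (abs_nonneg _) (hl g)).trans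
              (term H hT hW hq (mem_Icc.1 hg).1 (hs g h0).1 (hs g h0).2 hc)
      _ = 2 * (X / q / T * ∑ g ∈ Icc 1 D, 1 / (g : ℝ) + D * W) := by
          rw [← mul_sum, sum_add_distrib, ← mul_sum, sum_const, Nat.card_Icc, nsmul_eq_mul]
          simp
      _ ≤ _ := by
          have := harm hD
          gcongr
  refine (sum_le_card_nsmul _ _ _ h1).trans ?_
  rw [nsmul_eq_mul, card_RR]
  have h2 : (q.totient : ℝ) ≤ q := by exact_mod_cast Nat.totient_le q
  have h3 : 0 ≤ Real.log N := Real.log_natCast_nonneg N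
  calc _ ≤ q * (2 * (X / q / T * (1 + Real.log N) + D * W)) := by gcongr
    _ = _ := by field_simp

end PIP

open PIP in
theorem zPI (h : T_AP) : T_PI := by
  obtain ⟨k0, h⟩ := h
  intro Cw
  obtain ⟨N0, hN0⟩ := ev_lg (((ev_o2_om 4 Cw k0).and (ev_o2_pow 8 1)).and
    (eventually_ge_atTop 3))
  refine ⟨N0, fun Q a N w e D2 lam hN hR hw2 hw he1 he hS hD hl hs => ?_⟩
  obtain ⟨⟨h1, h2⟩, h3⟩ := hN0 N hN
  have h4 := h1 w (lg Q) hw (hR.lg_le_two.trans (by omega))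
  have ha := hR.2.2.1
  have hDN : D2 ≤ N :=
    ((Nat.le_mul_of_pos_right D2 (Nat.two_pow_pos _)).trans hD).trans hR.Q_le
  have h5 := all (X := a * N) (q := a * e) (T := 2 ^ (8 * ss (lg N)))
    (W := (w : ℝ) ^ (4 * (k0 + 8 * ss (lg N)) + 6)) (fun x y M c => h _ w x y M c hw2)
    (by positivity) (by positivity) (Nat.mul_pos ha he1) hDN hl fun g hg =>
      ⟨Nat.Coprime.mul_left (hs g hg).1.symm (Nat.coprime_of_dvd fun p hp d1 d2 =>
        absurd ((hs g hg).2 p hp d2) (not_lt.2 (hS p hp d1))), (hs g hg).2⟩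
  refine h5.trans ?_
  rw [pow_one, ← o2_eq] at h2
  have e1 : 2 ^ (8 * ss (lg N)) = o2 N ^ 8 := by rw [o2_eq, ← pow_mul, mul_comm]
  have e2 : (2 : ℝ) ^ (8 * ss (lg N)) = (o2 N : ℝ) ^ 8 := by exact_mod_cast e1
  rw [e1] at h4
  have h6 : 4 * w ^ (4 * (k0 + 8 * ss (lg N)) + 6) * o2 N ^ 8 * D2 ≤ N :=
    (((Nat.mul_le_mul_right D2 h4).trans (le_of_eq (mul_comm _ _))).trans hD).trans hR.Q_le
  have h7 : 4 * (w : ℝ) ^ (4 * (k0 + 8 * ss (lg N)) + 6) * (o2 N : ℝ) ^ 8 * D2 ≤ N := by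
    exact_mod_cast h6
  have h8 : 8 * (lg N : ℝ) ≤ o2 N := by exact_mod_cast h2
  have h9 : (3 : ℝ) ≤ lg N := by exact_mod_cast h3
  have h10 := log_le_lg h3
  have h11 : (e : ℝ) ≤ o2 N := by exact_mod_cast he
  have W0 : (0 : ℝ) ≤ (w : ℝ) ^ (4 * (k0 + 8 * ss (lg N)) + 6) := by positivity
  rw [e2]
  push_cast
  generalize (w : ℝ) ^ (4 * (k0 + 8 * ss (lg N)) + 6) = W at *
  have o1 : (1 : ℝ) ≤ o2 N := by linarith
  generalize (o2 N : ℝ) = o at *
  have b1 : 1 + Real.log N ≤ o ^ 6 / 4 := by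
    have : o ≤ o ^ 6 := le_self_pow₀ o1 (by norm_num)
    linarith
  have b2 : e * D2 * W ≤ N / (4 * o ^ 2) := by
    rw [le_div_iff₀ (by positivity)]
    refine le_trans ?_ h7
    have : o ^ 3 ≤ o ^ 8 := pow_le_pow_right₀ o1 (by norm_num)
    calc _ ≤ o * D2 * W * (4 * o ^ 2) := by gcongr
      _ = 4 * W * o ^ 3 * D2 := by ring
      _ ≤ _ := by gcongr
  calc _ = 2 * (a * N / o ^ 8 * (1 + Real.log N) + a * (e * D2 * W)) := by ring
    _ ≤ 2 * (a * N / o ^ 8 * (o ^ 6 / 4) + a * (N / (4 * o ^ 2))) := by gcongr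
    _ = _ := by field_simp; ring

end Pool.Agent.P.MP_746f10_nt.AZ
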