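import Pool.Agent.P.MP_746f10_nt.AZ.Base
import Pool.Agent.P.MP_746f10_nt.AP.II

/-! The bilinear terms are equidistributed on average over the reduced classes. -/

namespace Pool.Agent.P.MP_746f10_nt.AZ

open Finset Filter
open Pool.Agent.P.MP_746f10_nt.AP
open Pool.Agent.P.MP_a14ce1_nt.Ch (nit ex)

namespace PIIP

lemma nit_zero (y : ℝ) : nit 0 y = 1 := by simp [nit, ex]

/-- the final numerical inequality -/
lemma fin {X P L q K o : ℝ} (hP : 0 < P) (hL : 0 < L) (hq : q ≤ L) (ho : 16 ≤ o) (hK : 0 ≤ K)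
    (h1 : L * (P * o ^ 4) ≤ X) (h2 : 12 * K * o ^ 3 ≤ P) :
    (2 * X / (P * L) + 1) * K * (L + q) + 8 * P * L ≤ 1 / o ^ 3 * X := by
  have ho0 : 0 < o := by linarith
  have h3 : 1 ≤ o ^ 4 := one_le_pow₀ (by linarith)
  have h4 : L * P ≤ X := le_trans (by gcongr; exact le_mul_of_one_le_right hP.le h3) h1
  have hX : 0 ≤ X := le_trans (by positivity) h4
  have a1 : (2 * X / (P * L) + 1) * K * (L + q) ≤ 6 * X * K / P :=
    calc _ ≤ (2 * X / (P * L) + 1) * K * (L + L) := by gcongr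
      _ = (4 * X + 2 * (L * P)) * K / P := by field_simp; ring
      _ ≤ (4 * X + 2 * X) * K / P := by gcongr
      _ = _ := by ring
  have a2 : 6 * X * K / P ≤ X / (2 * o ^ 3) := by
    rw [div_le_div_iff₀ hP (by positivity)]
    calc _ = X * (12 * K * o ^ 3) := by ring
      _ ≤ _ := by gcongr
  have a3 : 8 * P * L ≤ X / (2 * o ^ 3) := by
    rw [le_div_iff₀ (by positivity)]
    calc _ = L * (P * (16 * o ^ 3)) := by ring
      _ ≤ L * (P * (o * o ^ 3)) := by gcongr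
      _ = L * (P * o ^ 4) := by ring
      _ ≤ _ := h1
  calc _ ≤ X / (2 * o ^ 3) + X / (2 * o ^ 3) := add_le_add (a1.trans a2) a3
    _ = _ := by field_simp; ring

end PIIP

theorem zPII (h1 : T_Pr) (h2 : T_Bil) (h3 : S_CS) : T_PII := by
  classical
  intro u hu
  obtain ⟨κ, C, hκ, hκ2, hC, h1⟩ := h1
  obtain ⟨n0, hn0⟩ := exists_nat_ge (1 / κ)
  have hn1 : 1 ≤ n0 := by
    have : (0 : ℝ) < n0 := lt_of_lt_of_le (by positivity) hn0
    exact_mod_cast this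
  obtain ⟨c, hc⟩ := exists_nat_ge (12 * C * 64)
  obtain ⟨N0, hN0⟩ := ev_lg ((ev_o2_div c 3 (u * n0) (Nat.mul_pos hu hn1)).and
    ((ev_o2_om 2 0 0).and ((eventually_ge_atTop (2 * u + 6)).and
      (tendsto_ss.eventually_ge_atTop 4))))
  refine ⟨N0, fun Q a N e S hN hR he he2 hS => ?_⟩
  obtain ⟨E1, E2, E3, E4⟩ := hN0 N hN
  have hg := hR.lg_le_two
  replace E1 := E1 (lg Q) (by omega)
  replace E2 := E2 1 (lg Q) (by simp) (by omega)
  rw [← o2_eq] at E1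
  rw [one_pow, mul_one, mul_comm 8, pow_mul, ← o2_eq] at E2
  have ho : 16 ≤ o2 N := Nat.pow_le_pow_right (n := 2) (by norm_num) E4
  unfold Pats2 at hS
  obtain ⟨hsub, -, -, -, S1, hS1, hs3, hs4⟩ := mem_filter.1 hS
  rw [mem_powerset] at hsub
  obtain ⟨j, hj⟩ : S1.Nonempty := by
    rcases S1.eq_empty_or_nonempty with rfl | h
    · rw [sum_empty] at hs3; omega
    · exact h
  have hjle : j ≤ ∑ i ∈ S1, i := single_le_sum (f := fun i => i) (fun _ _ => Nat.zero_le _) hj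
  have hj1 : lg Q / u ≤ j := (mem_Icc.1 (hsub (hS1 hj))).1
  have hj0 : 1 ≤ lg Q / u := (Nat.le_div_iff_mul_le hu).2 (by omega)
  have hQ : 1 ≤ Q := by
    rcases Nat.eq_zero_or_pos Q with rfl | h
    · simp [lg] at hj0
    · exact h
  have ha := hR.2.2.1
  have haN := hR.2.2.2
  obtain ⟨P, hP⟩ : ∃ P, P = 2 ^ j := ⟨_, rfl⟩
  have hP2 : 2 ≤ P := hP ▸ Nat.pow_le_pow_right (n := 2) (i := 1) (by norm_num) (by omega)
  have hPN : P * 2 ^ Nat.sqrt (lg Q) ≤ N := by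
    rw [hP, ← pow_add]
    exact ((Nat.pow_le_pow_right (by norm_num) (by omega)).trans (two_pow_lg_le hQ)).trans hR.Q_le
  generalize ho' : o2 N = o at *
  have h5 : P * (2 * o ^ 8) ≤ N := (Nat.mul_le_mul_left _ E2).trans hPN
  have h6 : o ^ 5 ≤ o ^ 8 := Nat.pow_le_pow_right (by omega) (by norm_num)
  have h7 : o ≤ o ^ 8 := Nat.le_self_pow (by norm_num) o
  have h8 : P * o ^ 5 ≤ N := le_trans (Nat.mul_le_mul_left _ (by omega)) h5
  have h9 : 2 * P ≤ N := le_trans (by rw [mul_comm]; exact Nat.mul_le_mul_left _ (by omega)) h5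
  have h10 : o ≤ N := le_trans (by nlinarith) h5
  have hpos : 0 < P * o ^ 4 := by positivity
  obtain ⟨L, hL⟩ : ∃ L, L = a * N / (P * o ^ 4) := ⟨_, rfl⟩
  have hqL : a * e ≤ L := by
    rw [hL, Nat.le_div_iff_mul_le hpos]
    calc a * e * (P * o ^ 4) ≤ a * o * (P * o ^ 4) := by gcongr
      _ = a * (P * o ^ 5) := by ring
      _ ≤ _ := by gcongr
  have hq1 : 1 ≤ a * e := Nat.mul_pos ha he
  have hLX : L * (P * o ^ 4) ≤ a * N := hL ▸ Nat.div_mul_le_self _ _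
  have : NeZero (a * e) := ⟨by omega⟩
  have hN1 : 1 ≤ N := ha.trans haN
  have hNY : (N : ℝ) * N ≤ (N : ℝ) ^ 3 := by
    have : N * N ≤ N ^ 3 := by nlinarith [Nat.mul_le_mul_left (N * N) hN1]
    exact_mod_cast this
  have hNY' : (N : ℝ) ≤ (N : ℝ) ^ 3 := by exact_mod_cast Nat.le_self_pow (by norm_num) N
  have hlog : 1 + Real.log ((N : ℝ) ^ 3) ≤ 4 * lg N := by
    have a1 := log_le_lg (Q := N) (by omega)
    have a2 : (1 : ℝ) ≤ lg N := by exact_mod_cast (by omega : 1 ≤ lg N)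
    rw [Real.log_pow]
    push_cast
    linarith
  have hlog0 : 0 ≤ 1 + Real.log ((N : ℝ) ^ 3) := by
    have := Real.log_nonneg (x := (N : ℝ) ^ 3) (one_le_pow₀ (by exact_mod_cast hN1))
    linarith
  have hP0 : (0 : ℝ) < P := by exact_mod_cast (by omega : 0 < P)
  have key := h2 (a * N) (a * e) P L (C * (P : ℝ) ^ (1 - κ) * (1 + Real.log ((N : ℝ) ^ 3)) ^ 3)
    (CS (S.erase j)) (CS S) hq1 (by omega) (by omega) (by positivity) (IIP.cs_bd h3 _)
    (fun χ hχ x y hx hy hy' => by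
      have := h1 (a * e) χ 0 ((N : ℝ) ^ 3) P x y hχ
        (le_trans (by exact_mod_cast Nat.mul_le_mul haN (he2.trans h10)) hNY)
        (by rw [abs_zero]; positivity) (le_trans (by exact_mod_cast h9) hNY') hP2 hx hy hy'
      simpa only [PIIP.nit_zero, mul_one] using this)
    (fun m => by
      have e1 : S = {j} ∪ S.erase j := by rw [← insert_eq, insert_erase (hS1 hj)]
      have e2 : CS {j} = bx j := prod_singleton _ _
      conv_lhs => rw [e1]
      rw [h3.2.2.2.2 _ _ m (disjoint_singleton_left.2 (notMem_erase j S)), e2, hP, ← pow_succ']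
      rfl)
  unfold EqQ
  refine key.trans ?_
  refine PIIP.fin hP0 (by exact_mod_cast (by omega : 0 < L)) (by exact_mod_cast hqL)
    (by exact_mod_cast ho) (by positivity) (by exact_mod_cast hLX) ?_
  have b1 : ((2 : ℝ) ^ (lg Q / (u * n0))) ≤ (P : ℝ) ^ κ := by
    rw [hP, Nat.cast_pow, Nat.cast_ofNat, ← Real.rpow_natCast, ← Real.rpow_natCast,
      ← Real.rpow_mul (by norm_num)]
    refine Real.rpow_le_rpow_of_exponent_le (by norm_num) ?_
    have c1 : lg Q / (u * n0) * n0 ≤ j := by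
      rw [← Nat.div_div_eq_div_mul]
      exact (Nat.div_mul_le_self _ _).trans hj1
    have c2 : ((lg Q / (u * n0) : ℕ) : ℝ) * n0 ≤ j := by exact_mod_cast c1
    have c3 : 1 ≤ (n0 : ℝ) * κ := (div_le_iff₀ hκ).1 hn0
    have c4 : (0 : ℝ) ≤ ((lg Q / (u * n0) : ℕ) : ℝ) := Nat.cast_nonneg _
    nlinarith [mul_le_mul_of_nonneg_right c2 hκ.le, mul_le_mul_of_nonneg_left c3 c4]
  have b2 : (c : ℝ) * (lg N : ℝ) ^ 3 * (o : ℝ) ^ 3 ≤ 2 ^ (lg Q / (u * n0)) := by exact_mod_cast E1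
  calc _ ≤ 12 * (C * (P : ℝ) ^ (1 - κ) * (4 * lg N) ^ 3) * (o : ℝ) ^ 3 := by gcongr
    _ = (P : ℝ) ^ (1 - κ) * (12 * C * 64 * (lg N : ℝ) ^ 3 * (o : ℝ) ^ 3) := by ring
    _ ≤ (P : ℝ) ^ (1 - κ) * ((c : ℝ) * (lg N : ℝ) ^ 3 * (o : ℝ) ^ 3) := by gcongr
    _ ≤ (P : ℝ) ^ (1 - κ) * (P : ℝ) ^ κ := by gcongr; exact b2.trans b1
    _ = P := by rw [← Real.rpow_add hP0]; simp

end Pool.Agent.P.MP_746f10_nt.AZ
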