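import Pool.Agent.P.MP_746f10_nt.AZ.Base

/-! Periodic test functions are controlled by sums over residue classes. -/

namespace Pool.Agent.P.MP_746f10_nt.AZ

open Finset
open Pool.Agent.P.MP_746f10_nt.AP

namespace PerP

lemma col {a N w e b : ℕ} {H φ : ℕ → ℝ} (he : 1 ≤ e) (hs : Smo w e) (hb : b ∈ RU a)
    (hH : ∀ m, H m ≠ 0 → rough w m) (hφ : ∀ n n', n ≡ n' [MOD e] → φ n = φ n') :
    ∑ n ∈ Ico N (2 * N), H (a * n + b) * φ n =
      ∑ c ∈ (RR (a * e)).filter (fun c => c % a = b), φ (c / a) * cl (a * N) (a * e) H c := by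
  obtain ⟨hb1, hb2⟩ := mem_RU.1 hb
  have hba : b < a := (mem_Ico.1 hb1).2
  have ha : 0 < a := by omega
  have hae : 0 < a * e := Nat.mul_pos ha he
  have h1 : ∑ n ∈ Ico N (2 * N), H (a * n + b) * φ n =
      ∑ n ∈ Ico N (2 * N), (fun m => H m * φ (m / a)) (a * n + b) := by
    refine sum_congr rfl fun n _ => ?_
    show _ = H (a * n + b) * φ ((a * n + b) / a)
    rw [Nat.mul_add_div ha, Nat.div_eq_of_lt hba, add_zero]
  rw [h1.trans (sum_col hba N (2 * N) fun m => H m * φ (m / a)),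
    show a * (2 * N) = 2 * (a * N) by ring, sum_filter]
  unfold cl
  simp_rw [mul_sum, sum_filter (s := Ico (a * N) (2 * (a * N)))]
  rw [sum_comm]
  refine sum_congr rfl fun m _ => ?_
  rw [sum_ite_eq]
  have hm : m % (a * e) % a = m % a := Nat.mod_mod_of_dvd _ (dvd_mul_right a e)
  have hq : φ (m % (a * e) / a) = φ (m / a) := by
    rw [Nat.mod_mul_right_div_self]
    exact hφ _ _ (Nat.mod_modEq _ _)
  simp only [mem_filter, hm, hq]
  by_cases h0 : H m = 0
  · simp [h0]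
  by_cases h2 : m % a = b
  · have hc : m.Coprime (a * e) := by
      refine Nat.Coprime.mul_right ?_ ?_
      · exact (coprime_mod a m).1 (h2 ▸ hb2)
      · refine Nat.coprime_of_dvd fun p hp h3 h4 => ?_
        exact absurd (hs p hp h4) (not_le.2 (hH m h0 p hp h3))
    rw [if_pos h2, if_pos ⟨mem_RR.2 ⟨Nat.mod_lt _ hae, (coprime_mod _ _).2 hc⟩, h2⟩, mul_comm]
  · rw [if_neg h2, if_neg fun h => h2 h.2]

end PerP

theorem zPer : T_Per := by
  intro a N w e B0 H φ he hs hB hH hφ h1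
  rw [← sum_fiberwise_eq_sum_filter]
  refine sum_le_sum fun b hb => ?_
  rw [PerP.col he hs (hB hb) hH hφ]
  refine (abs_sum_le_sum_abs _ _).trans (sum_le_sum fun c _ => ?_)
  rw [abs_mul]
  exact mul_le_of_le_one_left (abs_nonneg _) (h1 _)

end Pool.Agent.P.MP_746f10_nt.AZ
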