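import Pool.Agent.P.MP_746f10_nt.AZ.Base

/-! Twisted sums over primes with a power saving. -/

namespace Pool.Agent.P.MP_746f10_nt.AZ

open Finset Filter
open Pool.Agent.P.MP_746f10_nt.AP
open Pool.Agent.P.MP_a14ce1_nt.Ch (nit norm_nit)
open scoped ArithmeticFunction.vonMangoldt

namespace PrP

theorem diff (f : ℕ → ℂ) {P y : ℕ} (h : P ≤ y) :
    ‖∑ n ∈ Ioc P y, f n‖ ≤ ‖∑ n ∈ Icc 1 y, f n‖ + ‖∑ n ∈ Icc 1 P, f n‖ := by
  have e : ∀ y : ℕ, Icc 1 y = Ioc 0 y := fun y => by ext; simp only [mem_Icc, mem_Ioc]; omega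
  rw [e, e, eq_sub_of_add_eq' (sum_Ioc_consecutive f (Nat.zero_le P) h)]
  exact norm_sub_le _ _

theorem ico (P x : ℕ) : Ico (P + 1) (x + 1) = Ioc P x := by
  ext; simp only [mem_Ico, mem_Ioc]; omega

theorem fin {q : ℕ} (ψ : DirichletCharacter ℂ q) (t : ℝ) {x y : ℕ} {K R : ℝ} (hx : 2 ≤ x)
    (hxy : x ≤ y) (hy : (y : ℝ) ≤ R)
    (h : ∀ z, x ≤ z → z ≤ y → ‖∑ n ∈ Ioc x z, (Λ n : ℂ) * ψ n * nit t n‖ ≤ K) :
    ‖∑ p ∈ PP x y, ψ p * nit t p‖ ≤ K + 2 * √R * Real.log R := by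
  have hl : ∀ n : ℕ, x + 1 ≤ n → (3 : ℝ) ≤ n ∧ 1 ≤ Real.log n := fun n hn => by
    have h3 : (3 : ℝ) ≤ n := by exact_mod_cast (by omega : 3 ≤ n)
    exact ⟨h3, by
      rw [Real.le_log_iff_exp_le (by linarith)]; linarith [Real.exp_one_lt_d9]⟩
  have hK : 0 ≤ K := (norm_nonneg _).trans (h x le_rfl hxy)
  have hR : (2 : ℝ) ≤ R := le_trans (by exact_mod_cast hx.trans hxy) hy
  have h0 : 0 ≤ Real.log R := Real.log_nonneg (by linarith)
  have h1 := abel_le (fun n => if n.Prime then (Λ n : ℂ) * ψ n * nit t n else 0)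
    (fun n => 1 / Real.log n) (x + 1) (y + 1) (K + 2 * √R * Real.log R)
    (fun n hn => by have := (hl n hn).2; positivity) (fun n hn => ?_)
    (fun z h1 h2 => ?_) (by omega)
  · rw [ico] at h1
    refine le_trans (le_of_eq (congrArg _ ?_)) (h1.trans ?_)
    · rw [PP, sum_filter]
      refine sum_congr rfl fun n hn => ?_
      split_ifs with hp
      · have h2 := hl n (mem_Ioc.1 hn).1
        have h4 : ((Real.log n : ℝ) : ℂ) ≠ 0 := Complex.ofReal_ne_zero.2 (by linarith [h2.2])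
        rw [ArithmeticFunction.vonMangoldt_apply_prime hp, Complex.real_smul, Complex.ofReal_div,
          Complex.ofReal_one]
        field_simp
      · simp
    · have h2 := (hl _ le_rfl).2
      exact mul_le_of_le_one_right (by positivity) ((div_le_one (by linarith)).2 h2)
  · obtain ⟨h2, h3⟩ := hl n hn
    have h4 : Real.log n ≤ Real.log ((n : ℝ) + 1) := Real.log_le_log (by linarith) (by linarith)
    push_cast
    exact one_div_le_one_div_of_le (by linarith) h4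
  · obtain ⟨z, rfl⟩ : ∃ y, z = y + 1 := ⟨z - 1, by omega⟩
    have h3 : (2 : ℝ) ≤ z := by exact_mod_cast (by omega : 2 ≤ z)
    have h4 : (z : ℝ) ≤ R := le_trans (by exact_mod_cast (by omega : z ≤ y)) hy
    have h5 := Chebyshev.psi_sub_theta_le (x := z) (by linarith)
    rw [Chebyshev.psi_sub_theta_eq_sum_not_prime, Nat.floor_natCast] at h5
    rw [ico, ← sum_filter, eq_sub_of_add_eq (sum_filter_add_sum_filter_not (Ioc x z) Nat.Prime
      fun n => (Λ n : ℂ) * ψ n * nit t n)]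
    refine (norm_sub_le _ _).trans (add_le_add (h z (by omega) (by omega))
      ((norm_sum_le_of_le _ (n := fun n => Λ n) fun n _ => ?_).trans (le_trans
        (sum_le_sum_of_subset_of_nonneg (filter_subset_filter _
          (Ioc_subset_Ioc_left (Nat.zero_le x))) fun _ _ _ =>
            ArithmeticFunction.vonMangoldt_nonneg) (h5.trans ?_))))
    · rw [norm_mul, norm_mul, norm_nit, mul_one, Complex.norm_real,
        Real.norm_of_nonneg ArithmeticFunction.vonMangoldt_nonneg]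
      exact mul_le_of_le_one_right ArithmeticFunction.vonMangoldt_nonneg (ψ.norm_le_one _)
    · have := Real.log_nonneg (show (1 : ℝ) ≤ z by linarith)
      gcongr

/-- partial summation with the weight `1 / p` -/
theorem inv (f : ℕ → ℂ) {P : ℕ} {K : ℝ} (hP : 1 ≤ P)
    (h : ∀ y, P ≤ y → y ≤ 2 * P → ‖∑ p ∈ PP P y, f p‖ ≤ K) :
    ‖∑ p ∈ PP P (2 * P), f p / (p : ℂ)‖ ≤ K / P := by
  have hP' : (1 : ℝ) ≤ P := by exact_mod_cast hP
  have hK : 0 ≤ K := (norm_nonneg _).trans (h P le_rfl (by omega))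
  have h1 := abel_le (fun n => if n.Prime then f n else 0) (fun n => 1 / (n : ℝ)) (P + 1)
    (2 * P + 1) K (fun n _ => by positivity) (fun n hn => ?_) (fun z h1 h2 => ?_) (by omega)
  · rw [ico] at h1
    refine le_trans (le_of_eq (congrArg _ ?_)) (h1.trans ?_)
    · rw [PP, sum_filter]
      refine sum_congr rfl fun n _ => ?_
      split_ifs with hp
      · rw [Complex.real_smul, Complex.ofReal_div, Complex.ofReal_one, Complex.ofReal_natCast]
        ring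
      · simp
    · rw [div_eq_mul_one_div K]
      push_cast
      exact mul_le_mul_of_nonneg_left (one_div_le_one_div_of_le (by linarith) (by linarith)) hK
  · have : (1 : ℝ) ≤ n := by exact_mod_cast (by omega : 1 ≤ n)
    push_cast
    exact one_div_le_one_div_of_le (by linarith) (by linarith)
  · obtain ⟨z, rfl⟩ : ∃ y, z = y + 1 := ⟨z - 1, by omega⟩
    rw [ico, ← sum_filter]
    exact h z (by omega) (by omega)

end PrP

theorem zPr (h : T_Tw) : T_Pr := by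
  obtain ⟨κ, C, k0, k1, hC, h⟩ := h
  refine ⟨κ, 4 * C + 4, k0, k1, by positivity, ?_⟩
  intro q _ χ t Y P x y hχ hq ht hY hP hx hxy hy
  have hP' : (2 : ℝ) ≤ P := by exact_mod_cast hP
  have hL : 0 ≤ Real.log Y := Real.log_nonneg (by linarith)
  have hS : ∀ z : ℕ, z ≤ 2 * P → ‖∑ n ∈ Icc 1 z, (Λ n : ℂ) * χ n * nit t n‖ ≤
      2 * C * (P : ℝ) ^ (1 - κ) * (1 + Real.log Y) ^ 3 := fun z hz => by
    have hz' : (z : ℝ) ≤ 2 * P := by exact_mod_cast hz
    refine (h q χ t Y z hχ hq ht (hz'.trans hY)).trans ?_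
    have e1 : (z : ℝ) ^ (1 - κ) ≤ 2 * (P : ℝ) ^ (1 - κ) := by
      calc (z : ℝ) ^ (1 - κ) ≤ (2 * P) ^ (1 - κ) :=
            Real.rpow_le_rpow (Nat.cast_nonneg _) hz' (by linarith)
        _ = 2 ^ (1 - κ) * (P : ℝ) ^ (1 - κ) := Real.mul_rpow (by norm_num) (by linarith)
        _ ≤ _ := by
          gcongr
          simpa using Real.rpow_le_rpow_of_exponent_le (x := 2) (y := 1 - κ) (z := 1)
            (by norm_num) (by linarith)
    calc _ ≤ C * (2 * (P : ℝ) ^ (1 - κ)) * (1 + Real.log Y) ^ 3 := by gcongr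
      _ = _ := by ring
  refine (PrP.fin χ t (R := 2 * P) (hP.trans hx) hxy (by exact_mod_cast hy) fun z h1 h2 =>
    (PrP.diff _ h1).trans (add_le_add (hS z (h2.trans hy)) (hS x (hxy.trans hy)))).trans ?_
  have e1 : √(2 * P) ≤ 2 * (P : ℝ) ^ (1 - κ) := by
    calc √(2 * P) ≤ √(2 ^ 2 * P) := Real.sqrt_le_sqrt (by linarith)
      _ = 2 * (P : ℝ) ^ (1 / 2 : ℝ) := by
        rw [Real.sqrt_mul (by norm_num), Real.sqrt_sq (by norm_num), Real.sqrt_eq_rpow]
      _ ≤ _ := by gcongr <;> linarith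
  have e2 : Real.log (2 * P) ≤ (1 + Real.log Y) ^ 3 :=
    (Real.log_le_log (by linarith) hY).trans
      (le_trans (by linarith) (le_self_pow₀ (a := 1 + Real.log Y) (by linarith) (by norm_num)))
  have e3 : 0 ≤ Real.log (2 * P) := Real.log_nonneg (by linarith)
  have e4 : 2 * √(2 * P) * Real.log (2 * P) ≤
      2 * (2 * (P : ℝ) ^ (1 - κ)) * (1 + Real.log Y) ^ 3 := by gcongr
  linarith

theorem zGd (h : T_Pr) : T_Gd := by
  obtain ⟨k, C, k0, k1, hC, h⟩ := h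
  intro u A B hu
  obtain ⟨n, hn⟩ := exists_nat_ge (1 / k)
  obtain ⟨c, hc⟩ := exists_nat_ge (64 * C)
  have hn0 : (0 : ℝ) < n := lt_of_lt_of_le (by positivity) hn
  have hn1 : 1 ≤ n := by exact_mod_cast hn0
  obtain ⟨Q0, hQ0⟩ := ev_lg ((ev_pow_le_div c (A + 3) (u * n) (Nat.mul_pos hu hn1)).and
    ((ev_pow_le_two_pow 1 B).and ((eventually_ge_atTop u).and (eventually_ge_atTop 3))))
  refine ⟨max Q0 4, fun Q a N hQ hR q hq1 hq χ hχ j hj hjQ t ht => ?_⟩
  obtain ⟨a1, a2, a3, a4⟩ := hQ0 Q ((le_max_left _ _).trans hQ)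
  have hQ4 : 4 ≤ Q := (le_max_right _ _).trans hQ
  have hQ' : (4 : ℝ) ≤ Q := by exact_mod_cast hQ4
  have ha := hR.Q_le
  have : NeZero (a * q) := ⟨Nat.mul_ne_zero (by omega) (by omega)⟩
  have hj1 : 1 ≤ j := le_trans ((Nat.le_div_iff_mul_le hu).2 (by omega)) hj
  have hP : 2 ≤ 2 ^ j := by
    calc 2 = 2 ^ 1 := rfl
      _ ≤ 2 ^ j := Nat.pow_le_pow_right (by norm_num) hj1
  have hqQ : q ≤ Q := hq.trans (((one_mul _).symm.trans_le a2).trans (two_pow_lg_le (by omega)))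
  have b1 : ((a * q : ℕ) : ℝ) ≤ (Q : ℝ) ^ 3 := by
    have : a * q ≤ Q ^ 3 := by
      rw [pow_succ]
      exact Nat.mul_le_mul hR.a_le_sq hqQ
    exact_mod_cast this
  have b2 : |t| ≤ (Q : ℝ) ^ 3 := ht.trans (by nlinarith [sq_nonneg (Q : ℝ)])
  have b3 : 2 * ((2 ^ j : ℕ) : ℝ) ≤ (Q : ℝ) ^ 3 := by
    have h1 : 2 * 2 ^ j ≤ Q := by rwa [pow_succ'] at hjQ
    have h2 : 2 * ((2 ^ j : ℕ) : ℝ) ≤ Q := by exact_mod_cast h1
    exact h2.trans (le_self_pow₀ (by linarith) (by norm_num))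
  have key := PrP.inv (fun p => χ p * nit t p) (P := 2 ^ j) (by omega) fun y h1 h2 =>
    h (a * q) χ t (Q ^ 3) (2 ^ j) (2 ^ j) y hχ b1 b2 b3 hP le_rfl h1 h2
  unfold AP.box
  rw [pow_succ']
  refine le_trans (le_of_eq (congrArg _ (sum_congr rfl fun p _ => by ring))) (key.trans ?_)
  have g3 : (3 : ℝ) ≤ lg Q := by exact_mod_cast a4
  have c1 : 1 + Real.log ((Q : ℝ) ^ 3) ≤ 4 * lg Q := by
    rw [Real.log_pow]
    have := log_le_lg a4
    push_cast
    linarith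
  have c0 : 0 ≤ 1 + Real.log ((Q : ℝ) ^ 3) := by
    have := Real.log_nonneg (one_le_pow₀ (n := 3) (show (1 : ℝ) ≤ Q by linarith))
    linarith
  have c2 : (c : ℝ) * (lg Q : ℝ) ^ (A + 3) ≤ ((2 ^ j : ℕ) : ℝ) ^ k := by
    have d1 : (c : ℝ) * (lg Q : ℝ) ^ (A + 3) ≤ (2 : ℝ) ^ (lg Q / (u * n)) := by exact_mod_cast a1
    refine d1.trans ?_
    rw [← Real.rpow_natCast, Nat.cast_pow, Nat.cast_ofNat, ← Real.rpow_natCast,
      ← Real.rpow_mul (by norm_num)]
    refine Real.rpow_le_rpow_of_exponent_le (by norm_num) ?_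
    have d2 : lg Q / (u * n) * n ≤ j := by
      rw [← Nat.div_div_eq_div_mul]
      exact (Nat.div_mul_le_self _ _).trans hj
    have d3 : ((lg Q / (u * n) : ℕ) : ℝ) * n ≤ j := by exact_mod_cast d2
    have d4 : 1 ≤ n * k := by rwa [div_le_iff₀ k0] at hn
    have d5 : (0 : ℝ) ≤ ((lg Q / (u * n) : ℕ) : ℝ) := Nat.cast_nonneg _
    nlinarith
  have hp : (0 : ℝ) < ((2 ^ j : ℕ) : ℝ) := by positivity
  generalize ((2 ^ j : ℕ) : ℝ) = P at c2 hp ⊢
  have c3 : 0 < P ^ k := by positivity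
  rw [Real.rpow_sub hp, Real.rpow_one, div_le_div_iff₀ hp (by positivity), one_mul]
  calc C * (P / P ^ k) * (1 + Real.log ((Q : ℝ) ^ 3)) ^ 3 * (lg Q : ℝ) ^ A
      ≤ C * (P / P ^ k) * (4 * lg Q) ^ 3 * (lg Q : ℝ) ^ A := by gcongr
    _ = P / P ^ k * (64 * C * (lg Q : ℝ) ^ (A + 3)) := by ring
    _ ≤ P / P ^ k * P ^ k := by
        gcongr
        exact le_trans (by gcongr) c2
    _ = P := by field_simp

end Pool.Agent.P.MP_746f10_nt.AZ
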