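import Pool.Agent.P.MP_746f10_nt.AZ.Base
import Pool.Agent.P.MP_746f10_nt.AP.TIa
import Pool.Agent.P.MP_746f10_nt.AP.QTIb

/-! The variance of divisor sums in short intervals. -/

namespace Pool.Agent.P.MP_746f10_nt.AZ

open Finset
open Pool.Agent.P.MP_746f10_nt.AP
open Pool.Agent.P.MP_746f10_nt.AP.TIaP
open Pool.Agent.P.MP_0ad054_nt (e e_add e_int e_sub e_add_int e_zero)

namespace RVP

/-- the kernel -/
noncomputable def KK (H q r : ℕ) : ℂ := ∑ j ∈ range H, e ((r : ℝ) * j / q)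

lemma KK_add {q r : ℕ} (hq : 1 ≤ q) (hr : ¬ q ∣ r) (t : ℕ) : KK (t + q) q r = KK t q r := by
  unfold KK
  rw [sum_range_add, add_eq_left]
  have h := sum_e hq r
  rw [dd, if_neg hr] at h
  have h2 : ∀ i ∈ range q, e ((r : ℝ) * (t + i : ℕ) / q) =
      e ((r : ℝ) * t / q) * e ((i : ℝ) * r / q) := fun i _ => by
    rw [← e_add]; congr 1; push_cast; ring
  rw [sum_congr rfl h2, ← mul_sum, h]
  simp

lemma KK_mod {q r : ℕ} (hq : 1 ≤ q) (hr : ¬ q ∣ r) (H : ℕ) : KK H q r = KK (H % q) q r := by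
  have h : ∀ k, KK (H % q + q * k) q r = KK (H % q) q r := fun k => by
    induction k with
    | zero => rfl
    | succ k ih => rw [Nat.mul_succ, ← add_assoc, KK_add hq hr, ih]
  conv_lhs => rw [← Nat.mod_add_div H q]
  exact h _

lemma parseval {q t : ℕ} (hq : 1 ≤ q) (ht : t ≤ q) :
    ∑ r ∈ range q, ‖KK t q r‖ ^ 2 = q * t := by
  have hq' : (q : ℝ) ≠ 0 := by positivity
  have h1 : ∀ r ∈ range q, ((‖KK t q r‖ ^ 2 : ℝ) : ℂ) =
      ∑ j ∈ range t, ∑ j' ∈ range t, e ((r : ℝ) * (j + (q - j') : ℕ) / q) := fun r _ => by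
    rw [Complex.ofReal_pow, ← Complex.mul_conj', KK, map_sum, sum_mul_sum]
    refine sum_congr rfl fun j _ => sum_congr rfl fun j' hj' => ?_
    rw [← e_sub, ← e_add_int _ (r : ℤ)]
    congr 1
    rw [Nat.cast_add, Nat.cast_sub ((mem_range.1 hj').le.trans ht)]
    push_cast
    field_simp
    ring
  have h2 : ∀ j ∈ range t, ∑ j' ∈ range t, ((q : ℂ) * (dd (j + (q - j')) q : ℝ)) = q := by
    intro j hj
    rw [sum_eq_single_of_mem j hj fun j' hj' hne => ?_]
    · have := mem_range.1 hj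
      rw [show j + (q - j) = q by omega, dd, if_pos dvd_rfl]
      simp
    · have a1 := mem_range.1 hj
      have a2 := mem_range.1 hj'
      rw [dd, if_neg]
      · simp
      · rintro ⟨k, hk⟩
        rcases k with _ | _ | k
        · omega
        · omega
        · have : q * (k + 1 + 1) = q * k + 2 * q := by ring
          omega
  apply Complex.ofReal_injective
  rw [Complex.ofReal_sum, sum_congr rfl h1, sum_comm]
  rw [sum_congr rfl fun j hj => by
    rw [sum_comm, sum_congr rfl fun j' _ => sum_e hq (j + (q - j')), h2 j hj]]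
  simp [mul_comm]

lemma KK_sq {q : ℕ} (hq : 2 ≤ q) (H : ℕ) :
    ∑ r ∈ (range q).filter (fun r => r.Coprime q), ‖KK H q r‖ ^ 2 ≤ q * H := by
  have hq1 : 1 ≤ q := by omega
  calc _ = ∑ r ∈ (range q).filter (fun r => r.Coprime q), ‖KK (H % q) q r‖ ^ 2 := by
        refine sum_congr rfl fun r hr => ?_
        rw [KK_mod hq1 fun h => ?_]
        have := (mem_filter.1 hr).2.symm.eq_one_of_dvd h
        omega
    _ ≤ ∑ r ∈ range q, ‖KK (H % q) q r‖ ^ 2 :=
        sum_le_sum_of_subset_of_nonneg (filter_subset _ _) fun _ _ _ => by positivity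
    _ = q * (H % q : ℕ) := parseval hq1 (Nat.mod_lt _ hq1).le
    _ ≤ _ := by gcongr; exact Nat.mod_le _ _

/-- the coefficients -/
noncomputable def gm (D : ℕ) (γ : ℕ → ℝ) (q : ℕ) : ℝ :=
  ∑ d ∈ (Icc 1 D).filter (fun d => q ∣ d), γ d / d

lemma gm_le (D : ℕ) {γ : ℕ → ℝ} (h : ∀ d, |γ d| ≤ 1) (q : ℕ) :
    |gm D γ q| ≤ (1 + Real.log D) * (1 / q) := by
  refine (abs_sum_le_sum_abs _ _).trans ((sum_le_sum fun d _ => ?_).trans (sum_mult q D))
  rw [abs_div, Nat.abs_cast]
  gcongr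
  exact h d

lemma cq_one (m : ℕ) : cq 1 m = 1 := by
  simp [cq, e_zero]

lemma ident (D : ℕ) (γ : ℕ → ℝ) (m : ℕ) :
    ((∑ d ∈ Icc 1 D, γ d * (dd m d - 1 / d) : ℝ) : ℂ) = ∑ q ∈ Icc 2 D, (gm D γ q : ℂ) * cq q m := by
  simp only [gm, sum_filter, Complex.ofReal_sum, sum_mul]
  rw [sum_comm]
  refine sum_congr rfl fun d hd => ?_
  have h1 := mem_Icc.1 hd
  have h2 : (Icc 2 D).filter (fun q => q ∣ d) = d.divisors.erase 1 := by
    ext q
    simp only [mem_filter, mem_Icc, mem_erase, Nat.mem_divisors]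
    constructor
    · rintro ⟨a1, a2⟩
      exact ⟨by omega, a2, by omega⟩
    · rintro ⟨a1, a2, a3⟩
      have := Nat.pos_of_dvd_of_pos a2 h1.1
      exact ⟨⟨by omega, (Nat.le_of_dvd h1.1 a2).trans h1.2⟩, a2⟩
  have h3 := add_sum_erase d.divisors (fun q => cq q m) (Nat.one_mem_divisors.2 (by omega))
  rw [sum_cq h1.1, cq_one] at h3
  simp only [apply_ite ((↑) : ℝ → ℂ), Complex.ofReal_zero, ite_mul, zero_mul]
  rw [← sum_filter, h2, ← mul_sum, eq_sub_of_add_eq' h3]
  have : (d : ℂ) ≠ 0 := by exact_mod_cast (by omega : d ≠ 0)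
  push_cast
  field_simp

end RVP

open RVP in
theorem zRV : T_RV := by
  refine ⟨3, by norm_num, fun X H D γ u hD hγ hu => ?_⟩
  have hl := Real.log_natCast_nonneg D
  set L := 1 + Real.log D with hL
  have L1 : 1 ≤ L := by linarith
  set S : ℕ → ℕ → ℂ := fun q r => ∑ y ∈ Icc 1 X, (u y : ℂ) * e ((r : ℝ) * (1 : ℕ) / q * y) with hS
  have e1 : ((∑ y ∈ Icc 1 X, u y * ∑ j ∈ range H, ∑ d ∈ Icc 1 D, γ d * (dd (y + j) d - 1 / d) :
      ℝ) : ℂ) = ∑ q ∈ Icc 2 D, (gm D γ q : ℂ) *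
        ∑ r ∈ (range q).filter (fun r => r.Coprime q), KK H q r * S q r := by
    rw [Complex.ofReal_sum]
    simp only [Complex.ofReal_mul, Complex.ofReal_sum (range H), RVP.ident]
    simp only [hS, KK, cq, sum_mul_sum]
    simp only [mul_sum]
    refine (sum_congr rfl fun y _ => sum_comm).trans (sum_comm.trans ?_)
    refine sum_congr rfl fun q _ => ?_
    refine sum_comm.trans ((sum_congr rfl fun j _ => sum_comm).trans (sum_comm.trans ?_))
    refine sum_congr rfl fun r _ => sum_congr rfl fun j _ => sum_congr rfl fun y _ => ?_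
    have : (r : ℝ) * (y + j : ℕ) / q = (r : ℝ) * j / q + (r : ℝ) * (1 : ℕ) / q * y := by
      push_cast
      ring
    rw [this, e_add]
    ring
  have e2 : ‖∑ q ∈ Icc 2 D, (gm D γ q : ℂ) *
        ∑ r ∈ (range q).filter (fun r => r.Coprime q), KK H q r * S q r‖ ≤
      L * ∑ q ∈ Icc 2 D, ∑ r ∈ (range q).filter (fun r => r.Coprime q),
        ‖KK H q r‖ / q * ‖S q r‖ := by
    rw [mul_sum]
    refine (norm_sum_le _ _).trans (sum_le_sum fun q _ => ?_)
    rw [norm_mul, Complex.norm_real, Real.norm_eq_abs]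
    refine (mul_le_mul (gm_le D hγ q) (norm_sum_le _ _) (norm_nonneg _) (by positivity)).trans
      (le_of_eq ?_)
    rw [mul_assoc, mul_sum]
    congr 1
    refine sum_congr rfl fun r _ => ?_
    rw [norm_mul]
    ring
  have a1 := QTIbP.lsv (X := X) (a := 1) (I := Icc 1 X) (S := Icc 2 D) hD
    (Icc_subset_Icc_left (by norm_num)) (fun q _ => Nat.coprime_one_left q) Subset.rfl
    (u := fun y => (u y : ℂ)) fun y => by rw [Complex.norm_real]; exact hu y
  rw [Nat.card_Icc, Nat.add_sub_cancel] at a1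
  have a2 : ∑ q ∈ Icc 2 D, ∑ r ∈ (range q).filter (fun r => r.Coprime q),
      (‖KK H q r‖ / q) ^ 2 ≤ H * L := by
    calc _ ≤ ∑ q ∈ Icc 2 D, (H : ℝ) * (1 / q) := by
          refine sum_le_sum fun q hq => ?_
          have h2 := (mem_Icc.1 hq).1
          have q0 : (0 : ℝ) < q := by exact_mod_cast (by omega : 0 < q)
          simp only [div_pow]
          rw [← sum_div, div_le_iff₀ (by positivity)]
          refine (KK_sq h2 H).trans (le_of_eq ?_)
          field_simp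
      _ ≤ ∑ q ∈ (Icc 1 D).filter (fun n => 1 ∣ n), (H : ℝ) * (1 / q) :=
          sum_le_sum_of_subset_of_nonneg (fun q hq => mem_filter.2
            ⟨Icc_subset_Icc_left (by norm_num) hq, one_dvd _⟩) fun _ _ _ => by positivity
      _ ≤ _ := by
          rw [← mul_sum]
          gcongr
          simpa using sum_mult 1 D
  have d1 := sum_mul_sq_le_sq_mul_sq
    ((Icc 2 D).sigma fun q => (range q).filter fun r => r.Coprime q)
    (fun z => ‖KK H z.1 z.2‖ / z.1) fun z => ‖S z.1 z.2‖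
  rw [sum_sigma, sum_sigma, sum_sigma] at d1
  have d2 := d1.trans (mul_le_mul a2 a1 (by positivity) (by positivity))
  rw [← Real.norm_eq_abs, ← Complex.norm_real, e1]
  refine e2.trans ?_
  have d3 : ∑ q ∈ Icc 2 D, ∑ r ∈ (range q).filter (fun r => r.Coprime q),
      ‖KK H q r‖ / q * ‖S q r‖ ≤ 3 * L * √((X + (D : ℝ) ^ 2) * X * H) := by
    refine (abs_le_of_sq_le_sq' (d2.trans ?_) (by positivity)).2
    rw [mul_pow, mul_pow, Real.sq_sqrt (by positivity), ← hL]
    have : (0 : ℝ) ≤ L ^ 2 * ((X + (D : ℝ) ^ 2) * X * H) := by positivity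
    nlinarith
  calc _ ≤ L * (3 * L * √((X + (D : ℝ) ^ 2) * X * H)) := by gcongr
    _ = _ := by ring

end Pool.Agent.P.MP_746f10_nt.AZ
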