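import Pool.Agent.P.MP_746f10_nt.AZ.Base
import Pool.Agent.P.MP_746f10_nt.AP.Rows

/-! A lower bound on the rough reduced entries of a row, and the count of primes and of rough
numbers in a dyadic interval. -/

namespace Pool.Agent.P.MP_746f10_nt.AZ

open Finset Filter
open Pool.Agent.P.MP_746f10_nt.AP
open Pool.Agent.P.MP_746f10_nt.AP.RowsP
open scoped ArithmeticFunction.vonMangoldt

namespace RowLP

lemma point {a : ℕ} (ha : a ≠ 0) (w n b : ℕ) :
    rr w (a * n + b) - ∑ p ∈ a.primeFactors.filter (fun p => w < p), dd b p ≤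
      rr w (a * n + b) * cp a b := by
  have h0 : ∀ p ∈ a.primeFactors.filter (fun p => w < p), 0 ≤ dd b p := fun p _ => (dd_bd b p).1
  by_cases hc : b.Coprime a
  · rw [cp_of hc, mul_one]
    linarith [sum_nonneg h0]
  rw [cp_of_not hc, mul_zero]
  by_cases hr : rr w (a * n + b) = 0
  · rw [hr]
    linarith [sum_nonneg h0]
  obtain ⟨p, hp, h1, h2⟩ := Nat.Prime.not_coprime_iff_dvd.1 hc
  have h3 : w < p := rough_of_rr hr p hp (dvd_add (h2.mul_right n) h1)
  have h4 : p ∈ a.primeFactors.filter (fun p => w < p) :=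
    mem_filter.2 ⟨Nat.mem_primeFactors.2 ⟨hp, h2, ha⟩, h3⟩
  have h5 := single_le_sum h0 h4
  have h6 : dd b p = 1 := if_pos h1
  linarith [(rr_bd w (a * n + b)).2]

lemma sum_dd_le (a p : ℕ) : ∑ b ∈ Ico 1 a, dd b p ≤ (a : ℝ) / p := by
  have h1 : ∑ b ∈ Ico 1 a, dd b p ≤ ∑ b ∈ Ioc 0 a, dd b p :=
    sum_le_sum_of_subset_of_nonneg (fun b hb => by
      have := mem_Ico.1 hb
      exact mem_Ioc.2 ⟨by omega, by omega⟩) fun b _ _ => (dd_bd b p).1
  refine h1.trans ?_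
  unfold dd
  rw [sum_boole, Nat.Ioc_filter_dvd_card_eq_div]
  exact Nat.cast_div_le

lemma lg_sq {N a : ℕ} (h : a ≤ N ^ 2) : lg a ≤ 2 * lg N + 1 := by
  rcases Nat.eq_zero_or_pos a with rfl | ha
  · simp [lg]
  have h1 : 2 ^ lg a < 2 ^ (2 * lg N + 2) := by
    calc 2 ^ lg a ≤ N ^ 2 := (two_pow_lg_le ha).trans h
      _ < (2 ^ (lg N + 1)) ^ 2 := Nat.pow_lt_pow_left (lt_two_pow_lg N) (by norm_num)
      _ = _ := by ring
  have := (Nat.pow_lt_pow_iff_right (by norm_num)).1 h1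
  omega

/-- the density of the rough numbers times the logarithm is large -/
lemma ev_V (Cw : ℕ) : ∀ᶠ g : ℕ in atTop, ∀ w : ℕ, 2 ≤ w → w ≤ g ^ Cw → 100 ≤ VV w * g := by
  have hC : 1 ≤ ⌈CM⌉₊ := Nat.one_le_iff_ne_zero.2 (Nat.ceil_pos.2 (by linarith [one_le_CM])).ne'
  filter_upwards [ev_pow_le_div 1 Cw (100 * ⌈CM⌉₊) (by omega)] with g h1 w hw hwg
  have h2 := inv_VV_le_g (g := g / 100) hw (by
    rw [Nat.div_div_eq_div_mul]
    omega)
  have h3 : ((g / 100 : ℕ) : ℝ) ≤ g / 100 := by exact_mod_cast Nat.cast_div_le (α := ℝ)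
  have h4 := VV_pos w
  have h5 : VV w * ((g / 100 : ℕ) : ℝ) ≤ VV w * (g / 100) := by gcongr
  linarith

/-- the remainder of the sieve is small -/
lemma ev_W (Cw s : ℕ) : ∀ᶠ g : ℕ in atTop, ∀ w y : ℕ, 2 ≤ w → w ≤ g ^ Cw → 2 ^ g ≤ y →
    16 * (w : ℝ) ^ s ≤ y * VV w := by
  filter_upwards [ev_V Cw, ev_pow_le_two_pow 1 (Cw * s + 1)] with g h1 h2 w y hw hwg hy
  have h3 : w ^ s * g ≤ y := by
    calc w ^ s * g ≤ (g ^ Cw) ^ s * g := by gcongr
      _ = 1 * g ^ (Cw * s + 1) := by rw [← pow_mul, pow_succ, one_mul]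
      _ ≤ y := h2.trans hy
  have h4 : (w : ℝ) ^ s * g ≤ y := by exact_mod_cast h3
  have h5 := h1 w hw hwg
  have h6 := VV_pos w
  have h7 : (0 : ℝ) ≤ (w : ℝ) ^ s := by positivity
  calc 16 * (w : ℝ) ^ s ≤ (w : ℝ) ^ s * (VV w * g) := by nlinarith
    _ = (w : ℝ) ^ s * g * VV w := by ring
    _ ≤ _ := by gcongr

end RowLP

open RowLP

theorem zRowL (h : S_Int) : T_RowL := by
  obtain ⟨k0, hk⟩ := h
  intro Cw
  obtain ⟨Q0, hQ0⟩ := ev_lg ((ev_V Cw).and ((ev_W Cw (4 * (k0 + 3) + 6)).and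
    (eventually_ge_atTop 2)))
  refine ⟨max Q0 2, fun N w a n hN hw1 hw2 ha ha2 => ?_⟩
  obtain ⟨e1, e2, e3⟩ := hQ0 N (le_of_max_le_left hN)
  have hN2 : 2 ≤ N := le_of_max_le_right hN
  have hNg := two_pow_lg_le (Q := N) (by omega)
  have hla := lg_sq ha2
  set g := lg N with hg
  have hw : 2 ≤ w := le_trans (by nlinarith) hw1
  have hg0 : (2 : ℝ) ≤ g := by exact_mod_cast e3
  have hV := e1 w hw hw2
  have hW := e2 w a hw hw2 (hNg.trans ha)
  have hV1 := VV_le_one w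
  have hV0 := VV_pos w
  have hw0 : (0 : ℝ) < w := by exact_mod_cast (by omega : 0 < w)
  have ha0 : (0 : ℝ) ≤ a := Nat.cast_nonneg _
  have hW1 : (1 : ℝ) ≤ (w : ℝ) ^ (4 * (k0 + 3) + 6) :=
    one_le_pow₀ (by exact_mod_cast (by omega : 1 ≤ w))
  refine le_trans ?_ (sum_le_sum fun b _ => point (by omega) w n b)
  rw [sum_sub_distrib, sum_comm]
  have h1 : ∑ b ∈ Ico 1 a, rr w (a * n + b) = ∑ m ∈ Ico (a * n + 1) (a * n + 1 + (a - 1)), rr w m := by
    rw [sum_Ico_eq_sum_range, sum_Ico_eq_sum_range, Nat.add_sub_cancel_left]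
    exact sum_congr rfl fun b _ => by rw [add_assoc]
  have h2 := (abs_le.1 (hk 3 w (a * n + 1) (a - 1) hw)).1
  rw [← h1, Nat.cast_sub (by omega), Nat.cast_one] at h2
  have h3 : ∑ p ∈ a.primeFactors.filter (fun p => w < p), ∑ b ∈ Ico 1 a, dd b p ≤
      (2 * g + 1) * (a / w) := by
    refine (sum_le_card_nsmul _ _ ((a : ℝ) / w) fun p hp => ?_).trans ?_
    · have h4 := (mem_filter.1 hp).2
      refine (sum_dd_le a p).trans ?_
      have : (w : ℝ) ≤ p := by exact_mod_cast h4.le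
      gcongr
    · rw [nsmul_eq_mul]
      have h4 : (a.primeFactors.filter (fun p => w < p)).card ≤ 2 * g + 1 :=
        (card_filter_le _ _).trans ((card_primeFactors_le_lg (by omega)).trans hla)
      have h5 : ((a.primeFactors.filter (fun p => w < p)).card : ℝ) ≤ 2 * g + 1 := by
        exact_mod_cast h4
      gcongr
  have h4 : (2 * g + 1) * ((a : ℝ) / w) ≤ a * VV w / 8 := by
    have h5 : (g : ℝ) ^ 2 ≤ w := by exact_mod_cast hw1
    rw [← mul_div_assoc, div_le_div_iff₀ hw0 (by norm_num)]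
    have h6 : (2 * g + 1) * 8 ≤ VV w * (w : ℝ) := by
      calc (2 * g + 1) * 8 ≤ 100 * (g : ℝ) := by linarith
        _ ≤ VV w * g * g := by gcongr
        _ = VV w * g ^ 2 := by ring
        _ ≤ _ := by gcongr
    calc _ = a * ((2 * g + 1) * 8 : ℝ) := by ring
      _ ≤ a * (VV w * w) := by gcongr
      _ = _ := by ring
  norm_num at h2
  nlinarith

theorem zPN (h1 : Pool.Agent.P.MP_0ad054_nt.An.S_PNT) (h2 : S_Int) : T_PN := by
  obtain ⟨k0, hk⟩ := h2
  obtain ⟨C, hC, hP⟩ := h1 1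
  intro Cw
  obtain ⟨Q0, hQ0⟩ := ev_lg ((ev_W Cw (4 * (k0 + 3) + 6)).and ((ev_pow_le_two_pow 512 2).and
    ((eventually_ge_atTop ⌈24 * C⌉₊).and (eventually_ge_atTop 5))))
  refine ⟨max Q0 2, fun N X w hN hX hX2 hw hw2 => ?_⟩
  obtain ⟨e1, e2, e3, e4⟩ := hQ0 N (le_of_max_le_left hN)
  have hN2 : 2 ≤ N := le_of_max_le_right hN
  have hNg := two_pow_lg_le (Q := N) (by omega)
  have hlt := (lt_two_pow_lg N).le
  have hl := lg_le_log (Q := N) (by omega)
  set g := lg N with hg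
  have hg5 : (5 : ℝ) ≤ g := by exact_mod_cast e4
  have hX0 : (0 : ℝ) < X := by exact_mod_cast (by omega : 0 < X)
  refine ⟨?_, ?_⟩
  · have l3 : Real.log (2 * X : ℕ) ≤ 2 * g := by
      have h5 : 2 * X ≤ 2 ^ (2 * g + 3) := by
        calc 2 * X ≤ 2 * N ^ 2 := by omega
          _ ≤ 2 * (2 ^ (g + 1)) ^ 2 := by gcongr
          _ = _ := by ring
      have h6 : ((2 * X : ℕ) : ℝ) ≤ 2 ^ (2 * g + 3) := by exact_mod_cast h5
      have h7 := Real.log_le_log (by push_cast; positivity) h6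
      rw [Real.log_pow] at h7
      have := Real.log_two_lt_d9
      refine h7.trans ?_
      push_cast
      nlinarith
    have t1 := theta_sub_le (x := X) (y := 2 * X) (by omega) (by omega)
      (Nat.not_prime_mul (by omega) (by omega)) l3
    have hE : ∀ x : ℕ, N ≤ x → |Chebyshev.psi x - x| ≤ x / 12 := by
      intro x hx
      rw [psi_nat]
      refine (hP x (by omega)).trans ?_
      have h3 : Real.log N ≤ Real.log x :=
        Real.log_le_log (by exact_mod_cast (by omega : 0 < N)) (by exact_mod_cast hx)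
      have h4 : 24 * C ≤ g := (Nat.le_ceil _).trans (by exact_mod_cast e3)
      rw [pow_one, div_le_div_iff₀ (by linarith) (by norm_num)]
      have h5 : (0 : ℝ) ≤ x := Nat.cast_nonneg _
      calc C * x * 12 = x * (12 * C) := by ring
        _ ≤ _ := by gcongr; linarith
    have p1 := (abs_le.1 (hE X hX)).2
    have p2 := (abs_le.1 (hE (2 * X) (by omega))).1
    have p3 := Chebyshev.theta_le_psi (X : ℝ)
    have p4 := Chebyshev.psi_sub_theta_le (x := ((2 * X : ℕ) : ℝ))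
      (by exact_mod_cast (by omega : 1 ≤ 2 * X))
    have p5 : √((2 * X : ℕ) : ℝ) ≤ X / (16 * g) := by
      rw [Real.sqrt_le_left (by positivity), div_pow, le_div_iff₀ (by positivity)]
      have h3 : 512 * (g : ℝ) ^ 2 ≤ X := by exact_mod_cast e2.trans (hNg.trans hX)
      push_cast
      calc 2 * (X : ℝ) * (16 * g) ^ 2 = (X : ℝ) * (512 * (g : ℝ) ^ 2) := by ring
        _ ≤ (X : ℝ) * X := by gcongr
        _ = _ := by ring
    have p7 : 2 * √((2 * X : ℕ) : ℝ) * Real.log (2 * X : ℕ) ≤ X / 4 := by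
      calc _ ≤ 2 * (X / (16 * g)) * (2 * g : ℝ) := by gcongr
        _ = _ := by field_simp; norm_num
    rw [div_le_iff₀ (by positivity)]
    have p8 : ((2 * X : ℕ) : ℝ) = 2 * X := by push_cast; ring
    rw [p8] at p2 p4 p7 t1
    linarith
  · have h3 := (abs_le.1 (hk 3 w X X hw)).2
    have h4 := e1 w X hw hw2 (hNg.trans hX)
    have h5 : (0 : ℝ) ≤ (w : ℝ) ^ (4 * (k0 + 3) + 6) := by positivity
    rw [two_mul]
    norm_num at h3
    linarith

end Pool.Agent.P.MP_746f10_nt.AZ
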