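import Pool.Agent.P.MP_746f10_nt.AZ.Defs
import Pool.Agent.P.MP_26a8c3_nt.QE.Psi

/-! Twisted sums of the von Mangoldt function from a zero free half plane. -/

namespace Pool.Agent.P.MP_746f10_nt.AZ

open Finset Complex DirichletCharacter
open scoped ArithmeticFunction.vonMangoldt
open Pool.Agent.P.MP_a14ce1_nt.Ch (nit)
open Pool.Agent.P.MP_0ad054_nt Pool.Agent.P.MP_0ad054_nt.An Pool.Agent.P.MP_26a8c3_nt

namespace TwP

lemma nit_eq (t : ℝ) {n : ℕ} (hn : n ≠ 0) : nit t n = ((n : ℂ) ^ (I * t))⁻¹ := by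
  rw [cpow_def_of_ne_zero (Nat.cast_ne_zero.2 hn), ← exp_neg, ← natCast_log]
  unfold nit Pool.Agent.P.MP_a14ce1_nt.Ch.ex
  congr 1
  push_cast
  ring

lemma norm_nit (t : ℝ) {n : ℕ} (hn : n ≠ 0) : ‖nit t n‖ = 1 := by
  rw [nit_eq t hn, norm_inv, norm_natCast_cpow_of_pos (Nat.pos_of_ne_zero hn)]
  simp

lemma shift (f : ℕ → ℂ) (t : ℝ) (s : ℂ) :
    LSeries f (s + I * t) = LSeries (fun n => f n * nit t n) s := by
  refine tsum_congr fun n => ?_
  rcases eq_or_ne n 0 with rfl | hn
  · simp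
  · rw [LSeries.term_of_ne_zero hn, LSeries.term_of_ne_zero hn, nit_eq t hn,
      cpow_add _ _ (Nat.cast_ne_zero.2 hn), div_eq_mul_inv, div_eq_mul_inv, mul_inv]
    ring

end TwP

theorem zTw {θ : ℝ} (hθ : θ < 1) (hZ : Pool.Agent.P.MP_26a8c3_nt.QE.ZF θ) : T_Tw := by
  set ρ := min ((1 - θ) / 2) (1 / 4) with hρ
  have r0 : 0 < ρ := lt_min (by linarith) (by norm_num)
  have r1 : ρ ≤ 1 / 4 := min_le_right _ _
  have r2 : θ ≤ 1 - 2 * ρ := by linarith [min_le_left ((1 - θ) / 2) (1 / 4)]
  have r3 : 1 ≤ 16 / ρ ^ 2 := by rw [one_le_div (by positivity)]; nlinarith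
  clear_value ρ
  obtain ⟨C1, hC1, hL, -⟩ := lup (1 / 2) (by norm_num) le_rfl
  obtain ⟨C, hC, h⟩ := QE.key r0 (by linarith)
  set D := Real.log (2 * C1 + 1) + 8 with hD
  have D7 : 8 ≤ D := by have := Real.log_nonneg (show 1 ≤ 2 * C1 + 1 by linarith); linarith
  refine ⟨ρ / 8, C * (16 / ρ ^ 2 * D), by positivity, by linarith, by positivity,
    fun q _ χ t Y X hχ hq ht hX => ?_⟩
  have q1 : 1 ≤ q := Nat.pos_of_ne_zero (NeZero.ne q)
  have q1' : (1 : ℝ) ≤ q := by exact_mod_cast q1
  have hY : 1 ≤ Y := q1'.trans hq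
  have lY := Real.log_nonneg hY
  rcases Nat.eq_zero_or_pos X with rfl | X1
  · rw [Icc_eq_empty (by norm_num), sum_empty, norm_zero]
    positivity
  have t0 := abs_nonneg t
  have hd0 := differentiable_LFunction hχ
  have hd : Differentiable ℂ fun z => LFunction χ (z + I * t) :=
    hd0.comp (differentiable_id.add_const _)
  have hre : ∀ z : ℂ, (z + I * t).re = z.re := fun z => by simp
  have hne : ∀ z : ℂ, 1 - 2 * ρ < z.re → LFunction χ (z + I * t) ≠ 0 := fun z hz => by
    rcases eq_or_ne (z + I * t) 1 with h1 | hz1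
    · rw [h1]
      exact LFunction_apply_one_ne_zero hχ
    · exact hZ q χ _ (by rw [hre]; linarith) hz1
  have h1 := h (fun n => (Λ n : ℂ) * χ n * nit t n)
    (fun s => -(deriv (fun z => LFunction χ (z + I * t)) s / LFunction χ (s + I * t)))
    (16 / ρ ^ 2 * D * (1 + Real.log Y) ^ 3) X X
    (one_le_mul_of_one_le_of_one_le (one_le_mul_of_one_le_of_one_le r3 (by linarith))
      (one_le_pow₀ (by linarith))) (by exact_mod_cast X1) le_rfl (fun n hn => ?_) (fun s hs => ?_)
      fun s h1 h2 => ?_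
  · exact h1.trans_eq (by ring)
  · rw [norm_mul, TwP.norm_nit t (by omega), mul_one, norm_mul, norm_real, Real.norm_eq_abs,
      abs_of_nonneg ArithmeticFunction.vonMangoldt_nonneg]
    have h1 := χ.norm_le_one (n : ZMod q)
    have h2 := ArithmeticFunction.vonMangoldt_le_log (n := n)
    have h3 := ArithmeticFunction.vonMangoldt_nonneg (n := n)
    nlinarith
  · have hs' : 1 < (s + I * t).re := by rwa [hre]
    rw [deriv_comp_add_const (LFunction χ), deriv_LFunction_eq_deriv_LSeries χ hs',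
      LFunction_eq_LSeries χ hs', ← neg_div, ← LSeries_twist_vonMangoldt_eq χ hs', TwP.shift]
    congr 1
    funext n
    simp [mul_comm]
  · refine ⟨((hd.deriv s).div (hd s) (hne s (by linarith))).neg, ?_⟩
    rw [norm_neg]
    have c1 : 1 ≤ (2 * C1 + 1) * q := by nlinarith
    refine (QE.logder' hd r0 r1 (C := (2 * C1 + 1) * q * (1 + |t|)) (by nlinarith) hne
      (fun t' => ?_) (fun z a1 _ => (hL q χ hχ _ (by rw [hre]; linarith)).trans ?_) h1 h2).trans ?_
    · have := QE.half_le χ (t' + t)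
      rwa [ofReal_add, mul_add, ← add_assoc] at this
    · have a2 := QE.cond_le q1 (z + I * t)
      have a3 := abs_nonneg z.im
      have a4 : |(z + I * t).im| + 3 ≤ (1 + |t|) * (|z.im| + 3) := by
        have : (z + I * t).im = z.im + t := by simp
        rw [this]
        nlinarith [abs_add_le z.im t]
      calc _ ≤ C1 * (q * ((1 + |t|) * (|z.im| + 3))) := by
            gcongr
            exact a2.trans (by gcongr)
        _ = C1 * q * (1 + |t|) * (|z.im| + 3) ^ 1 := by ring
        _ ≤ _ := by gcongr <;> [linarith; linarith; norm_num]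
    · rw [Real.log_mul (by linarith) (by linarith), Real.log_mul (by linarith) (by linarith),
        mul_div_right_comm, mul_assoc (16 / ρ ^ 2) D]
      gcongr
      have a1 := Real.log_le_log (by linarith) hq
      have a2 : Real.log (1 + |t|) ≤ 1 + Real.log Y := by
        refine (Real.log_le_log (by linarith) (show 1 + |t| ≤ 2 * Y by linarith)).trans ?_
        rw [Real.log_mul (by norm_num) (by linarith)]
        linarith [Real.log_two_lt_d9]
      have a3 : 1 + 3 * Real.log Y ≤ (1 + Real.log Y) ^ 3 := by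
        nlinarith [sq_nonneg (Real.log Y), pow_nonneg lY 3]
      nlinarith [mul_le_mul_of_nonneg_left a3 (show 0 ≤ D by linarith)]

end Pool.Agent.P.MP_746f10_nt.AZ
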