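import Pool.Agent.P.MP_746f10_nt.AZ.Base
import Pool.Agent.P.MP_746f10_nt.AP.TIM

/-! The model is replaced by the primes in a form with a small modulus. -/

namespace Pool.Agent.P.MP_746f10_nt.AZ

open Finset Filter
open Pool.Agent.P.MP_746f10_nt.AP

namespace ZeroP

lemma row_le {F : ℕ → ℝ} (hF : ∀ m, 0 ≤ F m) (a x : ℕ) :
    ∑ b ∈ Ico 1 a, F (x + b) ≤ ∑ m ∈ Ico x (x + a), F m := by
  rw [sum_Ico_eq_sum_range F x, Nat.add_sub_cancel_left]
  exact sum_le_sum_of_subset_of_nonneg (fun b hb => mem_range.2 (mem_Ico.1 hb).2)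
    fun _ _ _ => hF _

lemma prod_sub_le {ι : Type*} (s : Finset ι) {x y a : ι → ℝ} {δ : ℝ} (hδ : 0 ≤ δ)
    (h0 : ∀ i, 0 ≤ y i) (h1 : ∀ i, y i ≤ x i) (h2 : ∀ i, x i ≤ a i)
    (h3 : ∀ i, x i - y i ≤ δ * a i) :
    ∏ i ∈ s, x i - ∏ i ∈ s, y i ≤ s.card * δ * ∏ i ∈ s, a i := by
  classical
  induction s using Finset.induction_on with
  | empty => simp
  | insert j s hj ih =>
    rw [prod_insert hj, prod_insert hj, prod_insert hj, card_insert_of_notMem hj]
    have a0 : 0 ≤ ∏ i ∈ s, y i := prod_nonneg fun i _ => h0 i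
    have a1 : ∏ i ∈ s, y i ≤ ∏ i ∈ s, x i := prod_le_prod (fun i _ => h0 i) fun i _ => h1 i
    have a2 : ∏ i ∈ s, y i ≤ ∏ i ∈ s, a i :=
      prod_le_prod (fun i _ => h0 i) fun i _ => (h1 i).trans (h2 i)
    have a3 : 0 ≤ a j := (h0 j).trans ((h1 j).trans (h2 j))
    have a4 : x j * (∏ i ∈ s, x i - ∏ i ∈ s, y i) ≤ a j * (s.card * δ * ∏ i ∈ s, a i) :=
      mul_le_mul (h2 j) ih (sub_nonneg.2 a1) a3
    have a5 : (x j - y j) * ∏ i ∈ s, y i ≤ δ * a j * ∏ i ∈ s, a i :=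
      mul_le_mul (h3 j) a2 a0 (mul_nonneg hδ a3)
    push_cast
    nlinarith

variable {k : ℕ}

/-- the sum over the vectors is split into the first coordinate and the others -/
lemma sum_BB {B0 : Finset ℕ} {s : Fin k → Finset ℕ} {BB : Finset (Fin (k + 1) → ℕ)}
    (hB : ∀ b ∈ BB, b 0 ∈ B0 ∧ ∀ i : Fin k, b i.succ ∈ s i) (F : ℕ → (Fin k → ℕ) → ℝ) :
    ∑ b ∈ BB, F (b 0) (fun i => b i.succ) = ∑ t ∈ Fintype.piFinset s,
      ∑ x ∈ B0.filter (fun x => (Fin.cons x t : Fin (k + 1) → ℕ) ∈ BB), F x t := by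
  simp only [sum_filter]
  rw [← sum_product', ← sum_filter]
  refine sum_nbij' (fun b => (fun i => b i.succ, b 0)) (fun p => Fin.cons p.2 p.1) ?_ ?_ ?_ ?_
    fun _ _ => rfl
  · intro b hb
    refine mem_filter.2 ⟨mem_product.2 ⟨Fintype.mem_piFinset.2 (hB b hb).2, (hB b hb).1⟩, ?_⟩
    exact (Fin.cons_self_tail b).symm ▸ hb
  · intro p hp
    exact (mem_filter.1 hp).2
  · intro b _
    exact Fin.cons_self_tail b
  · intro p _
    rfl

/-- the combinatorial core -/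
lemma core {N E : ℕ} {a : Fin (k + 1) → ℕ} {B0 : Finset ℕ} {BB : Finset (Fin (k + 1) → ℕ)}
    {r ν p err H : ℕ → ℝ} {c : ℕ → ℕ → ℝ} {Z δ ρ η θ : ℝ} (hZ : (B0.card : ℝ) ≤ Z)
    (hB : ∀ b ∈ BB, b 0 ∈ B0 ∧ ∀ i : Fin k, b i.succ ∈ Ico 1 (a i.succ))
    (hδ : 0 ≤ δ) (hρ : 0 ≤ ρ) (hρ1 : ρ ≤ 1) (hθ : 0 ≤ θ)
    (hr : ∀ m, 0 ≤ r m) (hν : ∀ m, r m ≤ ν m) (hp : ∀ m, 0 ≤ p m ∧ p m ≤ 1) (he : ∀ m, 0 ≤ err m)
    (hc : ∀ m, ν m = ∑ d ∈ Icc 1 E, c d m)
    (h1 : ∀ i : Fin k, ∀ n ∈ Ico N (2 * N),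
      ∑ b ∈ Ico 1 (a i.succ), ν (a i.succ * n + b) ≤ ρ * a i.succ ∧
      ∑ b ∈ Ico 1 (a i.succ), ν (a i.succ * n + b) -
        ∑ b ∈ Ico 1 (a i.succ), r (a i.succ * n + b) ≤ δ * a i.succ)
    (h2 : ∑ b ∈ B0, ∑ n ∈ Ico N (2 * N), err (a 0 * n + b) ≤ η)
    (h3 : ∀ b ∈ B0, ∀ n ∈ Ico N (2 * N),
      r (a 0 * n + b) ≤ p (a 0 * n + b) + err (a 0 * n + b) + H (a 0 * n + b))
    (h4 : ∀ t : Fin k → ℕ, ∀ d ∈ Fintype.piFinset fun _ : Fin k => Icc 1 E,
      ∑ b ∈ B0, |∑ n ∈ Ico N (2 * N), H (a 0 * n + b) * ∏ i, c (d i) (a i.succ * n + t i)| ≤ θ) :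
    ∑ b ∈ BB, ∑ n ∈ Ico N (2 * N), r (a 0 * n + b 0) * ∏ i : Fin k, r (a i.succ * n + b i.succ) ≤
      ∑ b ∈ BB, ∑ n ∈ Ico N (2 * N), p (a 0 * n + b 0) * ∏ i : Fin k, r (a i.succ * n + b i.succ) +
        (Z * N * (k * δ) + η * ρ ^ k + E ^ k * θ) * ∏ i : Fin k, (a i.succ : ℝ) := by
  have hν0 : ∀ m, 0 ≤ ν m := fun m => (hr m).trans (hν m)
  let M : (Fin k → ℕ) → ℕ → ℝ := fun t n => ∏ i : Fin k, r (a i.succ * n + t i)
  let M' : (Fin k → ℕ) → ℕ → ℝ := fun t n => ∏ i : Fin k, ν (a i.succ * n + t i)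
  have m1 : ∀ t n, M t n ≤ M' t n := fun t n =>
    prod_le_prod (fun _ _ => hr _) fun _ _ => hν _
  have m2 : ∀ t n, 0 ≤ M' t n := fun t n => prod_nonneg fun _ _ => hν0 _
  have hA : (0 : ℝ) ≤ ∏ i : Fin k, (a i.succ : ℝ) := prod_nonneg fun _ _ => Nat.cast_nonneg _
  have t1 : ∑ b ∈ BB, ∑ n ∈ Ico N (2 * N), r (a 0 * n + b 0) * M (fun i => b i.succ) n ≤
      ∑ b ∈ BB, ∑ n ∈ Ico N (2 * N), p (a 0 * n + b 0) * M (fun i => b i.succ) n +
      ∑ b ∈ BB, ∑ n ∈ Ico N (2 * N), (M' (fun i => b i.succ) n - M (fun i => b i.succ) n) +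
      ∑ b ∈ BB, ∑ n ∈ Ico N (2 * N), err (a 0 * n + b 0) * M' (fun i => b i.succ) n +
      ∑ b ∈ BB, ∑ n ∈ Ico N (2 * N), H (a 0 * n + b 0) * M' (fun i => b i.succ) n := by
    simp only [← sum_add_distrib]
    refine sum_le_sum fun b hb => sum_le_sum fun n hn => ?_
    have a1 := mul_le_mul_of_nonneg_left (m1 (fun i => b i.succ) n) (hr (a 0 * n + b 0))
    have a2 := mul_le_mul_of_nonneg_right (h3 _ (hB b hb).1 n hn) (m2 (fun i => b i.succ) n)
    have a3 := mul_le_of_le_one_left (sub_nonneg.2 (m1 (fun i => b i.succ) n))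
      (hp (a 0 * n + b 0)).2
    linarith
  have t2 : ∑ b ∈ BB, ∑ n ∈ Ico N (2 * N),
      (M' (fun i => b i.succ) n - M (fun i => b i.succ) n) ≤
      Z * N * (k * δ) * ∏ i : Fin k, (a i.succ : ℝ) := by
    rw [sum_BB hB fun _ t => ∑ n ∈ Ico N (2 * N), (M' t n - M t n)]
    calc _ ≤ ∑ t ∈ Fintype.piFinset fun i : Fin k => Ico 1 (a i.succ),
          Z * ∑ n ∈ Ico N (2 * N), (M' t n - M t n) := by
          refine sum_le_sum fun t _ => ?_
          rw [sum_const, nsmul_eq_mul]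
          refine mul_le_mul_of_nonneg_right (le_trans ?_ hZ)
            (sum_nonneg fun n _ => sub_nonneg.2 (m1 t n))
          exact_mod_cast card_filter_le _ _
      _ ≤ Z * ∑ n ∈ Ico N (2 * N), k * δ * ∏ i : Fin k, (a i.succ : ℝ) := by
          rw [← mul_sum, sum_comm]
          refine mul_le_mul_of_nonneg_left (sum_le_sum fun n hn => ?_)
            ((Nat.cast_nonneg _).trans hZ)
          rw [sum_sub_distrib, ← prod_univ_sum (fun i : Fin k => Ico 1 (a i.succ))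
            fun i x => ν (a i.succ * n + x), ← prod_univ_sum (fun i : Fin k => Ico 1 (a i.succ))
            fun i x => r (a i.succ * n + x)]
          simpa using prod_sub_le univ (a := fun i : Fin k => (a i.succ : ℝ)) hδ
            (fun i => sum_nonneg fun _ _ => hr _) (fun i => sum_le_sum fun _ _ => hν _)
            (fun i => (h1 i n hn).1.trans (mul_le_of_le_one_left (Nat.cast_nonneg _) hρ1))
            fun i => (h1 i n hn).2
      _ = _ := by
          rw [sum_const, Nat.card_Ico, show 2 * N - N = N by omega, nsmul_eq_mul]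
          ring
  have t3 : ∑ b ∈ BB, ∑ n ∈ Ico N (2 * N), err (a 0 * n + b 0) * M' (fun i => b i.succ) n ≤
      η * ρ ^ k * ∏ i : Fin k, (a i.succ : ℝ) := by
    rw [sum_BB hB fun x t => ∑ n ∈ Ico N (2 * N), err (a 0 * n + x) * M' t n]
    calc _ ≤ ∑ t ∈ Fintype.piFinset fun i : Fin k => Ico 1 (a i.succ),
          ∑ x ∈ B0, ∑ n ∈ Ico N (2 * N), err (a 0 * n + x) * M' t n :=
          sum_le_sum fun t _ => sum_le_sum_of_subset_of_nonneg (filter_subset _ _)
            fun _ _ _ => sum_nonneg fun n _ => mul_nonneg (he _) (m2 t n)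
      _ ≤ ∑ x ∈ B0, ∑ n ∈ Ico N (2 * N), err (a 0 * n + x) * ∏ i : Fin k, ρ * a i.succ := by
          rw [sum_comm]
          refine sum_le_sum fun x _ => ?_
          rw [sum_comm]
          refine sum_le_sum fun n hn => ?_
          rw [← mul_sum, ← prod_univ_sum (fun i : Fin k => Ico 1 (a i.succ))
            fun i x => ν (a i.succ * n + x)]
          exact mul_le_mul_of_nonneg_left (prod_le_prod (fun i _ => sum_nonneg fun _ _ => hν0 _)
            fun i _ => (h1 i n hn).1) (he _)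
      _ ≤ _ := by
          simp only [← sum_mul]
          rw [prod_mul_distrib, prod_const, card_univ, Fintype.card_fin, mul_assoc]
          exact mul_le_mul_of_nonneg_right h2 (by positivity)
  have t4 : ∑ b ∈ BB, ∑ n ∈ Ico N (2 * N), H (a 0 * n + b 0) * M' (fun i => b i.succ) n ≤
      E ^ k * θ * ∏ i : Fin k, (a i.succ : ℝ) := by
    rw [sum_BB hB fun x t => ∑ n ∈ Ico N (2 * N), H (a 0 * n + x) * M' t n]
    calc _ ≤ ∑ t ∈ Fintype.piFinset fun i : Fin k => Ico 1 (a i.succ), (E : ℝ) ^ k * θ := by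
          refine sum_le_sum fun t _ => ?_
          have e : ∀ x, ∑ n ∈ Ico N (2 * N), H (a 0 * n + x) * M' t n =
              ∑ d ∈ Fintype.piFinset fun _ : Fin k => Icc 1 E, ∑ n ∈ Ico N (2 * N),
                H (a 0 * n + x) * ∏ i, c (d i) (a i.succ * n + t i) := fun x => by
            rw [sum_comm]
            refine sum_congr rfl fun n _ => ?_
            rw [← mul_sum, ← prod_univ_sum (fun _ : Fin k => Icc 1 E)
              fun i d => c d (a i.succ * n + t i)]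
            simp only [M', hc]
          simp only [e]
          rw [sum_comm]
          refine (sum_le_card_nsmul _ _ θ fun d hd => le_trans ?_ (h4 t d hd)).trans (by simp)
          exact (sum_le_sum fun _ _ => le_abs_self _).trans
            (sum_le_sum_of_subset_of_nonneg (filter_subset _ _) fun _ _ _ => abs_nonneg _)
      _ ≤ _ := by
          rw [sum_const, Fintype.card_piFinset, nsmul_eq_mul, mul_comm, Nat.cast_prod]
          gcongr with i
          rw [Nat.card_Ico]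
          exact Nat.sub_le _ _
  simp only [add_mul]
  linarith

end ZeroP

open ZeroP TIMP

theorem zZero (h : S_Rows) : T_Zero := by
  obtain ⟨C, -, h⟩ := h
  obtain ⟨k0, hs⟩ := exists_sieve 1 zero_le_one
  intro k Cw
  obtain ⟨Q0, h⟩ := h Cw
  obtain ⟨Q1, hQ⟩ := ev_lg ((ev_lev_o2 Cw k0 (k + 4) k (k + 3)).and
    ((ev_lev_o2 Cw k0 (k + 4) 1 (k + 4)).and (eventually_ge_atTop (k + 4))))
  refine ⟨Q0 + Q1 + 1, fun N w a B0 BB Z ε h0 hw1 hw2 ha hε hZ hB hK => ?_⟩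
  obtain ⟨err, H, k1, k2, k3, k4⟩ := hK
  obtain ⟨hk, hrow⟩ := h N w (by omega) hw1 hw2
  obtain ⟨e1, e2, e3⟩ := hQ N (by omega)
  replace e1 := e1 w hw2
  replace e2 := e2 w hw2
  rw [← o2_eq] at e1 e2
  have e4 : o2 N ≤ N := (Nat.pow_le_pow_right two_pos
    ((Nat.sqrt_le_self _).trans (Nat.sqrt_le_self _))).trans (two_pow_lg_le (by omega))
  have e5 : lg N ^ (k + 4) ≤ 2 ^ ((k + 4) * (lg (lg N) + 1)) := by
    rw [mul_comm, pow_mul]
    exact Nat.pow_le_pow_left (lt_two_pow_lg _).le _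
  obtain ⟨s⟩ := hs ((k + 4) * (lg (lg N) + 1)) w (PP 0 w) hw1
    fun p hp => ⟨PP_prime hp, (mem_PP.1 hp).2.1⟩
  generalize w ^ (4 * (k0 + (k + 4) * (lg (lg N) + 1)) + 6) = E at *
  generalize (k + 4) * (lg (lg N) + 1) = mm at *
  rw [pow_one] at e2
  have hV := VV_pos w
  have hg : (4 : ℝ) + k ≤ lg N := by exact_mod_cast (by omega : 4 + k ≤ lg N)
  have hk0 : (0 : ℝ) ≤ k := Nat.cast_nonneg k
  have hg0 : (0 : ℝ) < lg N := by linarith
  have hkap : kap N w * VV w = 1 / (4 * lg N) := by unfold kap; field_simp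
  have hκ : 0 ≤ kap N w := by unfold kap; positivity
  have hZ0 : 0 ≤ Z := (Nat.cast_nonneg _).trans hZ
  have ho : (0 : ℝ) < o2 N := by exact_mod_cast one_le_o2 N
  have hE : E ^ k ≤ o2 N := (Nat.le_mul_of_pos_right _ (pow_pos (by omega) _)).trans e1
  have hG : (0 : ℝ) < (lg N : ℝ) ^ (k + 4) := by positivity
  have hd : 2 / (lg N : ℝ) ^ (k + 4) ≤ 1 / (2 * lg N) := by
    rw [div_le_div_iff₀ hG (by positivity), pow_succ, one_mul]
    have : (4 : ℝ) ≤ (lg N : ℝ) ^ (k + 3) :=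
      le_trans (by linarith) (le_self_pow₀ (by linarith) (by omega))
    nlinarith
  refine (core (r := fun m => kap N w / 2 * rr w m) (ν := fun m => kap N w / 2 * s.U (dd m))
    (c := fun d m => kap N w / 2 * (lam s d * dd m d)) (E := E) (δ := 2 / (lg N : ℝ) ^ (k + 4))
    (ρ := 1 / lg N) (θ := Z * N / o2 N) hZ hB (by positivity) (by positivity)
    ((div_le_one hg0).2 (by linarith)) (by positivity)
    (fun m => mul_nonneg (by positivity) (rr_bd w m).1)
    (fun m => mul_le_mul_of_nonneg_left (sub_nonneg.1 (err_nonneg s m)) (by positivity))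
    pr1_bd k1 (fun m => by rw [← mul_sum, sum_lam]) (fun i n hn => ?_) k2 k3
    fun t d hd => ?_).trans (add_le_add le_rfl ?_)
  · have a0 : (N : ℝ) ≤ a i.succ := by exact_mod_cast ha i
    have a1 := (hrow _ n (ha i) (mem_Ico.1 hn).1).1
    have a2 := (row_le (err_nonneg s) (a i.succ) (a i.succ * n)).trans (le_of_eq_of_le
      (sum_congr rfl fun m _ => by simp [dd]) (err_sum s (by positivity) le_rfl
        (fun p hp h => absurd (Nat.dvd_one.1 h) hp.ne_one) (a i.succ * n) (a i.succ)))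
    have a3 : 1 / (2 : ℝ) ^ mm ≤ 1 / (lg N : ℝ) ^ (k + 4) :=
      one_div_le_one_div_of_le hG (by exact_mod_cast e5)
    have a4 : (E : ℝ) ≤ 1 / (lg N : ℝ) ^ (k + 4) * a i.succ := by
      rw [one_div, ← div_eq_inv_mul, le_div_iff₀ hG]
      exact le_trans (by exact_mod_cast e2.trans e4) a0
    have a5 := mul_le_mul_of_nonneg_right a3 (Nat.cast_nonneg (α := ℝ) (a i.succ))
    rw [sum_sub_distrib, Nat.cast_one, div_one] at a2
    have a6 : 0 ≤ ∑ b ∈ Ico 1 (a i.succ), s.U (dd (a i.succ * n + b)) -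
        ∑ b ∈ Ico 1 (a i.succ), rr w (a i.succ * n + b) := by
      rw [← sum_sub_distrib]
      exact sum_nonneg fun _ _ => err_nonneg s _
    have a7 := mul_le_of_le_one_left a6 hk
    have a8 := mul_le_mul_of_nonneg_left a1 hκ
    have a9 := mul_le_mul_of_nonneg_right hd (Nat.cast_nonneg (α := ℝ) (a i.succ))
    have b1 : kap N w * (5 / 4 * VV w * a i.succ) = 5 / 16 * (1 / lg N * a i.succ) := by
      rw [show kap N w * (5 / 4 * VV w * a i.succ) = 5 / 4 * (kap N w * VV w) * a i.succ by ring,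
        hkap]
      ring
    have b2 : 1 / (2 * (lg N : ℝ)) * a i.succ = 1 / 2 * (1 / lg N * a i.succ) := by field_simp
    have b3 : 2 / (lg N : ℝ) ^ (k + 4) * a i.succ =
        2 * (1 / (lg N : ℝ) ^ (k + 4) * a i.succ) := by ring
    have b4 : (0 : ℝ) ≤ 1 / lg N * a i.succ := by positivity
    simp only [← mul_sum]
    constructor <;> linarith
  · have hd' := fun i => mem_Icc.1 (Fintype.mem_piFinset.1 hd i)
    by_cases h0 : ∃ i, lam s (d i) = 0
    · obtain ⟨i, hi⟩ := h0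
      rw [sum_eq_zero fun b _ => by
        rw [sum_eq_zero fun n _ => by rw [prod_eq_zero (mem_univ i) (by simp [hi]), mul_zero],
          abs_zero]]
      positivity
    refine k4 (∏ i, d i) _ (Nat.succ_le_of_lt (prod_pos fun i _ => (hd' i).1))
      (le_trans ?_ hE) (fun p hp hd => ?_) (fun n n' hn => prod_congr rfl fun i _ => ?_)
      fun n => ?_
    · simpa using prod_le_pow_card univ d E fun i _ => (hd' i).2
    · obtain ⟨i, -, hi⟩ := (hp.prime.dvd_finsetProd_iff _).1 hd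
      exact smooth_lam s _ (fun h => h0 ⟨i, h⟩) p hp hi
    · have := ((hn.of_dvd (dvd_prod_of_mem d (mem_univ i))).mul_left (a i.succ)).add_right (t i)
      simp only [dd, this.dvd_iff dvd_rfl]
    · rw [abs_prod]
      refine prod_le_one (fun _ _ => abs_nonneg _) fun i _ => ?_
      rw [abs_mul, abs_mul, abs_of_nonneg (dd_bd _ _).1, abs_of_nonneg (by positivity)]
      exact mul_le_one₀ (by linarith) (mul_nonneg (abs_nonneg _) (dd_bd _ _).1)
        (mul_le_one₀ (abs_lam s _) (dd_bd _ _).1 (dd_bd _ _).2)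
  · rw [← mul_assoc (ε + _)]
    refine mul_le_mul_of_nonneg_right ?_ (by positivity)
    have a1 : (k : ℝ) * (2 / (lg N : ℝ) ^ (k + 4)) ≤ 1 / (2 * (lg N : ℝ) ^ (k + 2)) := by
      rw [← mul_div_assoc, div_le_div_iff₀ hG (by positivity), show k + 4 = k + 2 + 2 from rfl,
        pow_add _ (k + 2) 2]
      have : 4 * (k : ℝ) ≤ (lg N : ℝ) ^ 2 := by nlinarith
      nlinarith [mul_le_mul_of_nonneg_left this (by positivity : 0 ≤ (lg N : ℝ) ^ (k + 2))]
    have a2 : (E : ℝ) ^ k / o2 N ≤ 1 / (2 * (lg N : ℝ) ^ (k + 2)) := by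
      rw [div_le_div_iff₀ ho (by positivity), one_mul]
      refine le_trans ?_ (show (E : ℝ) ^ k * (lg N : ℝ) ^ (k + 3) ≤ o2 N by exact_mod_cast e1)
      rw [pow_succ' _ (k + 2)]
      gcongr
      linarith
    have a3 := mul_le_mul_of_nonneg_left (add_le_add a1 a2) (by positivity : 0 ≤ Z * N)
    calc _ = Z * N * (k * (2 / (lg N : ℝ) ^ (k + 4)) + (E : ℝ) ^ k / o2 N) +
          ε * (Z * N / (lg N : ℝ) ^ (k + 1)) := by rw [one_div_pow]; field_simp; ring
      _ ≤ _ := (add_le_add a3 le_rfl).trans (le_of_eq (by field_simp; ring))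

end Pool.Agent.P.MP_746f10_nt.AZ
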