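import Pool.Agent.P.MP_746f10_nt.AZ.Base
import Pool.Agent.P.MP_746f10_nt.AP.QRed

/-! The model is replaced by the primes in the first form when its modulus is large. -/

namespace Pool.Agent.P.MP_746f10_nt.AZ

open Finset Filter
open Pool.Agent.P.MP_746f10_nt.AP

namespace ZeroLP

lemma num {ε C g N : ℝ} (k : ℕ) (hC : 1 ≤ C) (hg : C ≤ g) (h2 : 2 ≤ g) (hN : 0 ≤ N) :
    N / g ^ (k + 3) + (ε / C ^ k * N / g + N / g ^ (k + 3)) * (C / g) ^ k ≤
      (ε + 1 / g) * (N / g ^ (k + 1)) := by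
  have g0 : 0 < g := by linarith
  have c0 : 0 < C := by linarith
  have h1 : (C / g) ^ k ≤ 1 := pow_le_one₀ (by positivity) ((div_le_one g0).2 hg)
  have h3 : N / g ^ (k + 3) * (C / g) ^ k ≤ N / g ^ (k + 3) :=
    mul_le_of_le_one_right (by positivity) h1
  have h4 : ε / C ^ k * N / g * (C / g) ^ k = ε * (N / g ^ (k + 1)) := by
    rw [div_pow]; field_simp; ring
  have h5 : 2 * (N / g ^ (k + 3)) ≤ 1 / g * (N / g ^ (k + 1)) := by
    calc _ ≤ g * (N / g ^ (k + 3)) := by gcongr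
      _ = _ := by field_simp; ring
  rw [add_mul, add_mul, h4]
  linarith

end ZeroLP

theorem zZeroL (h1 : T_KP2) (h2 : S_Rows) : T_ZeroL := by
  intro k ε hε
  obtain ⟨C, hC, h2⟩ := h2
  obtain ⟨Cw0, h1⟩ := h1 (ε / C ^ k) (k + 3) (by positivity)
  refine ⟨Cw0 + 1, fun Cw => ?_⟩
  obtain ⟨N1, h1⟩ := h1 Cw
  obtain ⟨N2, h2⟩ := h2 Cw
  obtain ⟨N3, h3⟩ := ev_lg ((eventually_ge_atTop 2).and (eventually_ge_atTop ⌈C⌉₊))
  refine ⟨N1 + N2 + N3, fun N w a BB hN w1 w2 ha ha0 hB => ?_⟩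
  obtain ⟨g2, gC⟩ := h3 N (by omega)
  have p1 : 1 ≤ lg N ^ Cw0 := Nat.one_le_pow _ _ (by omega)
  have p2 : lg N ^ Cw0 * 2 ≤ w := le_trans (by rw [pow_succ]; gcongr) w1
  obtain ⟨k1, h2⟩ := h2 N w (by omega) (by omega) w2
  obtain ⟨Bad, b0, b1, b2⟩ := h1 N w (a 0) (by omega) (by omega) w2 (ha 0) ha0
  have g0 : (2 : ℝ) ≤ lg N := by exact_mod_cast g2
  have gC' : C ≤ lg N := Nat.ceil_le.1 gC
  have v0 := VV_pos w
  have k0 : 0 ≤ kap N w / 2 := div_nonneg (RedP.kap_nonneg N w) zero_le_two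
  have k2 : kap N w / 2 ≤ 1 := by linarith
  have b3 := b1 (fun _ => 1) 1 (fun _ => ⟨zero_le_one, le_rfl⟩) zero_le_one (blk_one N)
  simp only [one_mul] at b3
  have := QRedP.step 0 a N BB ?_ (fun b hb => (mem_RU.1 (hB b hb).1).2)
    (fun _ x => kap N w / 2 * rr w x) (Fin.cons pr1 fun _ x => kap N w / 2 * rr w x) Bad
    (δ := N / (lg N : ℝ) ^ (k + 3)) (ρ := C / lg N)
    (η := ε / C ^ k * N / lg N + N / (lg N : ℝ) ^ (k + 3)) (by positivity) (by positivity)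
    (fun i => rfl) (fun i x => ?_) (fun i n hn => ?_) b0 (b3.trans_eq (by ring))
    fun u v hu hv hv' => ?_
  · unfold ZS Md
    simp only [Fin.prod_univ_succ, Fin.cons_zero, Fin.cons_succ] at this
    refine this.trans (add_le_add le_rfl ?_)
    calc _ ≤ (ε + 1 / lg N) * (N / (lg N : ℝ) ^ (k + 1)) *
          ((a 0 : ℝ) * ∏ i : Fin k, (a i.succ : ℝ)) := by
          gcongr
          exact ZeroLP.num k hC gC' g0 (by positivity)
      _ = _ := by ring
  · intro b hb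
    refine Fintype.mem_piFinset.2 fun i => ?_
    refine Fin.cases ?_ (fun i => ?_) i
    exacts [(mem_RU.1 (hB b hb).1).1, (hB b hb).2 i]
  · refine Fin.cases ?_ (fun i => ?_) i
    exacts [pr1_bd _, ⟨mul_nonneg k0 (rr_bd _ _).1, mul_le_one₀ k2 (rr_bd _ _).1 (rr_bd _ _).2⟩]
  · refine Fin.cases ?_ (fun i => ?_) i
    · exact (h2 _ n (ha 0) hn).2.trans_eq (by ring)
    · simp only [Fin.cons_succ, ← mul_sum]
      calc _ ≤ kap N w / 2 * (5 / 4 * VV w * a i.succ) := by gcongr; exact (h2 _ n (ha _) hn).1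
        _ = 5 / 32 / lg N * a i.succ := by unfold kap; field_simp; ring
        _ ≤ _ := by gcongr; linarith
  · refine le_of_eq_of_le ?_ ((b2 u v hu hv hv').trans_eq ?_)
    · simp only [Br, mul_sum, mul_assoc]
    · rw [Fin.cons_zero]; ring

end Pool.Agent.P.MP_746f10_nt.AZ
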