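import Pool.Agent.P.MP_746f10_nt.AP.QAll
import Pool.Agent.P.MP_26a8c3_nt.QE.All
import Pool.Agent.P.MP_746f10_nt.AZ.Tw
import Pool.Agent.P.MP_746f10_nt.AZ.Pr
import Pool.Agent.P.MP_746f10_nt.AZ.RV
import Pool.Agent.P.MP_746f10_nt.AZ.Maj
import Pool.Agent.P.MP_746f10_nt.AZ.Bad2
import Pool.Agent.P.MP_746f10_nt.AZ.A2
import Pool.Agent.P.MP_746f10_nt.AZ.G2
import Pool.Agent.P.MP_746f10_nt.AZ.RowL
import Pool.Agent.P.MP_746f10_nt.AZ.KP2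
import Pool.Agent.P.MP_746f10_nt.AZ.AP
import Pool.Agent.P.MP_746f10_nt.AZ.PI
import Pool.Agent.P.MP_746f10_nt.AZ.Bil
import Pool.Agent.P.MP_746f10_nt.AZ.PII
import Pool.Agent.P.MP_746f10_nt.AZ.Per
import Pool.Agent.P.MP_746f10_nt.AZ.K1
import Pool.Agent.P.MP_746f10_nt.AZ.K2
import Pool.Agent.P.MP_746f10_nt.AZ.Zero
import Pool.Agent.P.MP_746f10_nt.AZ.ZeroL
import Pool.Agent.P.MP_746f10_nt.AZ.Chain
import Pool.Agent.P.MP_746f10_nt.AZ.Core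
import Pool.Agent.P.MP_746f10_nt.AZ.Main
import Pool.Agent.P.MP_746f10_nt.AZ.Adm

/-! Assembly of all pieces for an arbitrary first modulus. -/

namespace Pool.Agent.P.MP_746f10_nt.AZ

open Finset
open Pool.Agent.P.MP_746f10_nt.AP

theorem pr_all : T_Pr := zPr (zTw (by norm_num) Pool.Agent.P.MP_26a8c3_nt.QE.zf)

theorem kp_all : T_KP2 :=
  zKP2 (zG2 (qIdent pCS) (zBad2 zRV (zMaj (pUp pInt))) (zA2 pInt) qtim_all qii_all (zGd pr_all))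
    (pRows pInt) (zRowL pInt) (qBlk pnt0)

theorem main_all : T_Main :=
  zMain (zCore kp_all zChain qPos (pRows pInt)) (zZero (pRows pInt)) (zZeroL kp_all (pRows pInt))
    (zK1 (qIdent pCS) (pBad (pUp pInt)) (pA pInt) pCS (zPI zAP) (zPII pr_all (zBil qPlA) pCS)
      (zPR zAP) (zPN pnt0 pInt) zPer)
    (zK2 pr_all (zPR zAP) (zPN pnt0 pInt) zPer) (zBT zAP)

open Classical in
/-- almost all admissible tuples -/
theorem main_avg (k : ℕ) : ∃ c : ℝ, 0 < c ∧ ∀ ε : ℝ, 0 < ε → ∃ Q0 : ℕ,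
    ∀ (Q : ℕ) (a : Fin (k + 1) → ℕ), Q0 ≤ Q → (∀ i, a i ^ 2 ≤ Q ^ 3) →
    (∀ i : Fin k, Q ≤ a i.succ) →
    (((Fintype.piFinset fun i => Ico 1 (a i)).filter (Bd c Q a)).card : ℝ) ≤
      ε * ((Fintype.piFinset fun i => Ico 1 (a i)).filter (Adm a)).card := by
  obtain ⟨c, δ, hc, -, h⟩ := main_all k
  obtain ⟨c1, Q1, hc1, h1⟩ := adm_all k
  refine ⟨c, hc, fun ε hε => ?_⟩
  obtain ⟨Q0, h⟩ := h (ε * c1) (by positivity)
  refine ⟨Q0 + Q1, fun Q a hQ ha ha' => ?_⟩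
  rcases le_or_gt 2 (a 0) with h2 | h2
  · refine (h Q a (by omega) ha ha').1.trans ?_
    rw [mul_assoc]
    exact mul_le_mul_of_nonneg_left (h1 a (fun i => le_trans (by omega) (ha' i)) h2) hε.le
  · have e : (Fintype.piFinset fun i => Ico 1 (a i)) = ∅ :=
      eq_empty_of_forall_notMem fun b hb => by
        have := mem_Ico.1 (Fintype.mem_piFinset.1 hb 0)
        omega
    rw [e]
    simp

open Classical in
/-- every first residue -/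
theorem main_fix (k : ℕ) : ∃ c δ : ℝ, 0 < c ∧ 0 < δ ∧ ∀ ε : ℝ, 0 < ε → ∃ Q0 : ℕ,
    ∀ (Q : ℕ) (a : Fin (k + 1) → ℕ) (b0 : ℕ), Q0 ≤ Q → (a 0 : ℝ) ≤ (Q : ℝ) ^ δ →
    (∀ i : Fin k, Q ≤ a i.succ ∧ a i.succ ^ 2 ≤ Q ^ 3) →
    (((Fintype.piFinset fun i => Ico 1 (a i)).filter fun b => b 0 = b0 ∧ Bd c Q a b).card : ℝ) ≤
      ε * ((Fintype.piFinset fun i => Ico 1 (a i)).filter fun b => b 0 = b0 ∧ Adm a b).card := by
  obtain ⟨c, δ, hc, hδ, h⟩ := main_all k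
  obtain ⟨c1, Q1, hc1, h1⟩ := adm_fix k
  refine ⟨c, min δ 1, hc, lt_min hδ one_pos, fun ε hε => ?_⟩
  obtain ⟨Q0, h⟩ := h (ε * c1) (by positivity)
  refine ⟨Q0 + Q1 + 1, fun Q a b0 hQ h0 ha => ?_⟩
  have q1 : (1 : ℝ) ≤ Q := by exact_mod_cast (by omega : 1 ≤ Q)
  have h2 : a 0 ≤ Q := by
    have := h0.trans (Real.rpow_le_rpow_of_exponent_le q1 (min_le_right _ _))
    rw [Real.rpow_one] at this
    exact_mod_cast this
  have h3 := (h Q a (by omega) (Fin.cases ((Nat.pow_le_pow_left h2 2).trans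
    (Nat.pow_le_pow_right (by omega) (by norm_num))) fun i => (ha i).2) fun i => (ha i).1).2
    (h0.trans (Real.rpow_le_rpow_of_exponent_le q1 (min_le_left _ _))) b0
  by_cases hb : b0 ∈ RU (a 0)
  · refine h3.trans ?_
    rw [mul_assoc]
    exact mul_le_mul_of_nonneg_left (h1 a b0 (fun i => le_trans (by omega) (ha i).1) hb) hε.le
  · rw [filter_false_of_mem (p := fun b => b 0 = b0 ∧ Bd c Q a b) fun b hb1 hb2 => hb (hb2.1 ▸
      mem_RU.2 ⟨Fintype.mem_piFinset.1 hb1 0, QRedP.adm_cop hb2.2.1 0⟩), card_empty, Nat.cast_zero]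
    positivity

end Pool.Agent.P.MP_746f10_nt.AZ
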