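import Pool.Agent.P.MP_746f10_nt.AZ.Defs

/-! Small facts on the definitions for an arbitrary first modulus. -/

namespace Pool.Agent.P.MP_746f10_nt.AZ

open Finset Filter
open Pool.Agent.P.MP_746f10_nt.AP

/-! ### Sizes -/

/-- the exponent of `o2` -/
def ss (g : ℕ) : ℕ := Nat.sqrt (Nat.sqrt g)

lemma o2_eq (N : ℕ) : o2 N = 2 ^ ss (lg N) := rfl

lemma one_le_o2 (N : ℕ) : 1 ≤ o2 N := Nat.one_le_two_pow

lemma tendsto_ss : Tendsto ss atTop atTop := tendsto_sqrt.comp tendsto_sqrt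

lemma lt_ss (g : ℕ) : g < (ss g + 1) ^ 4 := by
  have h1 := Nat.lt_succ_sqrt g
  have h2 : Nat.sqrt g + 1 ≤ (ss g + 1) * (ss g + 1) := Nat.lt_succ_sqrt (Nat.sqrt g)
  simp only [Nat.succ_eq_add_one] at h1
  calc g < (Nat.sqrt g + 1) * (Nat.sqrt g + 1) := h1
    _ ≤ ((ss g + 1) * (ss g + 1)) * ((ss g + 1) * (ss g + 1)) := Nat.mul_le_mul h2 h2
    _ = _ := by ring

lemma ss_sq (g : ℕ) : ss g * ss g ≤ Nat.sqrt g := Nat.sqrt_le _

lemma ev_pow_ss (c C n : ℕ) (hn : 1 ≤ n) : ∀ᶠ g : ℕ in atTop, c * g ^ C ≤ 2 ^ (ss g / n) := by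
  filter_upwards [tendsto_ss.eventually (ev_pow_le_div (c * 16 ^ C) (4 * C) n hn),
    tendsto_ss.eventually_ge_atTop 1] with g h1 h2
  refine le_trans ?_ h1
  have h3 : g ≤ 16 * ss g ^ 4 := by
    calc g ≤ (ss g + 1) ^ 4 := (lt_ss g).le
      _ ≤ (2 * ss g) ^ 4 := Nat.pow_le_pow_left (by omega) _
      _ = _ := by ring
  calc c * g ^ C ≤ c * (16 * ss g ^ 4) ^ C := by gcongr
    _ = _ := by rw [mul_pow, ← pow_mul]; ring

/-- powers of the logarithm are below `o2` -/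
lemma ev_o2_pow (c C : ℕ) : ∀ᶠ g : ℕ in atTop, c * g ^ C ≤ 2 ^ ss g := by
  simpa using ev_pow_ss c C 1 le_rfl

/-- the sieve level for the accuracy `o2 ^ 8` is below `om` -/
lemma ev_o2_om (c Cw k0 : ℕ) : ∀ᶠ g : ℕ in atTop, ∀ w g' : ℕ, w ≤ g ^ Cw → g ≤ 2 * g' + 4 →
    c * w ^ (4 * (k0 + 8 * ss g) + 6) * 2 ^ (8 * ss g) ≤ 2 ^ Nat.sqrt g' := by
  filter_upwards [ev_pow_ss 1 Cw 160 (by norm_num), ev_o2_pow c 0,
    tendsto_ss.eventually_ge_atTop (k0 + 40)] with g h1 h2 h3 w g' hw hg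
  rw [one_mul] at h1
  rw [pow_zero, mul_one] at h2
  have h4 : Nat.sqrt g ≤ 2 * Nat.sqrt g' + 3 := by
    have a1 := Nat.sqrt_le g
    have a2 := Nat.lt_succ_sqrt g'
    simp only [Nat.succ_eq_add_one] at a2
    by_contra h
    have a3 : 2 * Nat.sqrt g' + 4 ≤ Nat.sqrt g := by omega
    nlinarith [Nat.mul_le_mul a3 a3]
  have h5 := ss_sq g
  calc _ ≤ 2 ^ ss g * (2 ^ (ss g / 160)) ^ (4 * (k0 + 8 * ss g) + 6) * 2 ^ (8 * ss g) := by
        gcongr
        exact hw.trans h1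
    _ ≤ _ := by
        rw [← pow_mul, ← pow_add, ← pow_add]
        refine Nat.pow_le_pow_right (by norm_num) ?_
        have a1 := Nat.div_mul_le_self (ss g) 160
        generalize ss g / 160 = t at *
        generalize ss g = s at *
        have a2 : t * (4 * (k0 + 8 * s) + 6) ≤ t * (40 * s) := Nat.mul_le_mul_left _ (by omega)
        nlinarith [Nat.mul_le_mul_right s a1, Nat.mul_le_mul_right s h3]

/-- the sieve level for a logarithmic accuracy is below `o2` -/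
lemma ev_lev_o2 (Cw k0 A k B : ℕ) : ∀ᶠ g : ℕ in atTop, ∀ w : ℕ, w ≤ g ^ Cw →
    (w ^ (4 * (k0 + A * (lg g + 1)) + 6)) ^ k * g ^ B ≤ 2 ^ ss g := by
  obtain ⟨c, hc⟩ : ∃ c, c = Cw * (4 * k0 + 4 * A + 6) * k + B := ⟨_, rfl⟩
  filter_upwards [tendsto_lg.eventually (ev_pow_le_two_pow ((4 * c + 1) ^ 4) 8),
    tendsto_lg.eventually_ge_atTop 1, eventually_ge_atTop 1] with g h1 h2 h3 w hw
  have h4 := (lt_two_pow_lg g).le
  have h5 := two_pow_lg_le h3
  have h6 := lt_ss g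
  generalize lg g = t at *
  have h7 : c * (t + 1) ^ 2 ≤ ss g := by
    have a1 : ((4 * c + 1) * t ^ 2) ^ 4 < (ss g + 1) ^ 4 := by
      rw [mul_pow, ← pow_mul]
      exact (h1.trans h5).trans_lt h6
    have a2 := lt_of_pow_lt_pow_left₀ 4 (Nat.zero_le _) a1
    have a3 : (t + 1) ^ 2 ≤ 4 * t ^ 2 := by nlinarith
    nlinarith [Nat.mul_le_mul_left c a3]
  calc _ ≤ (((2 ^ (t + 1)) ^ Cw) ^ (4 * (k0 + A * (t + 1)) + 6)) ^ k * (2 ^ (t + 1)) ^ B := by
        gcongr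
        exact hw.trans (Nat.pow_le_pow_left h4 _)
    _ ≤ _ := by
        simp only [← pow_mul, ← pow_add]
        refine Nat.pow_le_pow_right (by norm_num) (le_trans ?_ h7)
        have a1 : 4 * (k0 + A * (t + 1)) + 6 ≤ (4 * k0 + 4 * A + 6) * (t + 1) := by nlinarith
        have a2 : B ≤ B * (t + 1) := Nat.le_mul_of_pos_right _ (by omega)
        calc _ = (t + 1) * Cw * ((4 * (k0 + A * (t + 1)) + 6) * k) + (t + 1) * B := by ring
          _ ≤ (t + 1) * Cw * ((4 * k0 + 4 * A + 6) * (t + 1) * k) + (t + 1) * (B * (t + 1)) :=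
              add_le_add (Nat.mul_le_mul_left _ (Nat.mul_le_mul_right _ a1))
                (Nat.mul_le_mul_left _ a2)
          _ = _ := by rw [hc]; ring

/-- powers of `o2` are below every power of the parameter -/
lemma ev_o2_div (c C n : ℕ) (hn : 1 ≤ n) : ∀ᶠ g : ℕ in atTop, ∀ g' : ℕ, g ≤ 2 * g' + 4 →
    c * g ^ C * (2 ^ ss g) ^ C ≤ 2 ^ (g' / n) := by
  filter_upwards [ev_o2_pow c C, tendsto_ss.eventually_ge_atTop (2 * n * (C + 1) + 4)]
    with g h1 h2 g' hg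
  refine (Nat.mul_le_mul_right _ h1).trans ?_
  rw [← pow_mul, ← pow_add]
  refine Nat.pow_le_pow_right (by norm_num) ((Nat.le_div_iff_mul_le hn).2 ?_)
  have a1 := (ss_sq g).trans (Nat.sqrt_le_self g)
  nlinarith [Nat.mul_le_mul_right (ss g) h2]

/-! ### The range for a small modulus -/

section rs
variable {Q a N : ℕ}

lemma Rs.Q_le (h : Rs Q a N) : Q ≤ N := by
  obtain ⟨h1, -, -, h4⟩ := h
  by_contra hn
  have : a * N < Q ^ 2 := by nlinarith
  omega

lemma Rs.N_le (h : Rs Q a N) : N ≤ 2 * Q ^ 2 := (Nat.le_mul_of_pos_left N h.2.2.1).trans h.2.1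

lemma Rs.a_le (h : Rs Q a N) : a ≤ 2 * Q := by
  obtain ⟨-, h2, -, h4⟩ := h
  by_contra hn
  have : 2 * Q ^ 2 < a * N := by nlinarith
  omega

lemma Rs.lg_le (h : Rs Q a N) : lg Q ≤ lg N := lg_mono h.Q_le

lemma Rs.lg_le_two (h : Rs Q a N) : lg N ≤ 2 * lg Q + 2 := by
  have hN : 1 ≤ N := h.2.2.1.trans h.2.2.2
  have h1 : 2 ^ lg N < 2 ^ (2 * lg Q + 3) := by
    have hQ : 1 ≤ Q := by
      have := h.N_le
      rcases Nat.eq_zero_or_pos Q with rfl | h0
      · omega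
      · exact h0
    calc 2 ^ lg N ≤ 2 * Q ^ 2 := (two_pow_lg_le hN).trans h.N_le
      _ < 2 * (2 ^ (lg Q + 1)) ^ 2 := by gcongr; exact lt_two_pow_lg Q
      _ = _ := by ring
  have := (Nat.pow_lt_pow_iff_right (by norm_num)).1 h1
  omega

/-- the numbers between `a N` and `2 a N` -/
lemma Rs.entry (h : Rs Q a N) {m : ℕ} (hm : m ∈ Ico (a * N) (2 * (a * N))) :
    Q ^ 2 ≤ m ∧ m < 4 * Q ^ 2 := by
  have h1 := mem_Ico.1 hm
  have h5 := h.1
  have h6 := h.2.1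
  omega

lemma rs_sqrt (h9 : 9 ≤ N) (h1 : 1 ≤ a) (h2 : a ≤ N) : Rs (Nat.sqrt (a * N)) a N := by
  have h4 : 3 ≤ Nat.sqrt (a * N) := Nat.le_sqrt.2 (h9.trans (Nat.le_mul_of_pos_left N h1))
  have h5 := Nat.lt_succ_sqrt (a * N)
  refine ⟨Nat.sqrt_le' _, ?_, h1, h2⟩
  simp only [Nat.succ_eq_add_one] at h5
  nlinarith

lemma row_mem {n b : ℕ} (hn : n ∈ Ico N (2 * N)) (hb : b < a) :
    a * n + b ∈ Ico (a * N) (2 * (a * N)) := by
  have h1 := mem_Ico.1 hn
  have h3 : a * N ≤ a * n := Nat.mul_le_mul_left a h1.1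
  have h4 : a * (n + 1) ≤ a * (2 * N) := Nat.mul_le_mul_left a h1.2
  exact mem_Ico.2 ⟨by omega, by nlinarith⟩

end rs

/-- one column of the matrix is a residue class -/
lemma sum_col {M : Type*} [AddCommMonoid M] {a b : ℕ} (hb : b < a) (x y : ℕ) (F : ℕ → M) :
    ∑ n ∈ Ico x y, F (a * n + b) = ∑ m ∈ (Ico (a * x) (a * y)).filter (fun m => m % a = b), F m := by
  have ha : 0 < a := by omega
  refine sum_nbij' (fun n => a * n + b) (fun m => m / a) ?_ ?_ ?_ ?_ fun _ _ => rfl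
  · intro n hn
    have h1 := mem_Ico.1 hn
    have h3 : a * x ≤ a * n := Nat.mul_le_mul_left a h1.1
    have h4 : a * (n + 1) ≤ a * y := Nat.mul_le_mul_left a h1.2
    refine mem_filter.2 ⟨mem_Ico.2 ⟨by omega, by nlinarith⟩, ?_⟩
    rw [Nat.mul_add_mod, Nat.mod_eq_of_lt hb]
  · intro m hm
    have h1 := mem_Ico.1 (mem_filter.1 hm).1
    exact mem_Ico.2 ⟨(Nat.le_div_iff_mul_le ha).2 (by rw [mul_comm]; exact h1.1),
      (Nat.div_lt_iff_lt_mul ha).2 (by rw [mul_comm]; exact h1.2)⟩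
  · intro n _
    show (a * n + b) / a = n
    rw [Nat.mul_add_div ha, Nat.div_eq_of_lt hb, add_zero]
  · intro m hm
    show a * (m / a) + b = m
    rw [← (mem_filter.1 hm).2, Nat.div_add_mod]

/-! ### Reduced residues -/

lemma mem_RR {q c : ℕ} : c ∈ RR q ↔ c < q ∧ c.Coprime q := by simp [RR]

lemma mem_RU {a b : ℕ} : b ∈ RU a ↔ b ∈ Ico 1 a ∧ b.Coprime a := mem_filter

lemma card_RR (q : ℕ) : (RR q).card = q.totient := by
  rw [Nat.totient_eq_card_coprime]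
  exact congrArg _ (filter_congr fun _ _ => Nat.coprime_comm)

lemma card_RU_le (a : ℕ) : (RU a).card ≤ a :=
  (card_filter_le _ _).trans (by rw [Nat.card_Ico]; omega)

open Classical in
/-- the reduced residues as units -/
lemma sum_RR {M : Type*} [AddCommMonoid M] {q : ℕ} [NeZero q] (F : ZMod q → M) :
    ∑ c ∈ RR q, F c = ∑ x ∈ univ.filter IsUnit, F x := by
  refine sum_nbij' (fun c => (c : ZMod q)) (fun x => x.val) ?_ ?_ ?_ ?_ fun _ _ => rfl
  · intro c hc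
    exact mem_filter.2 ⟨mem_univ _, (ZMod.isUnit_iff_coprime _ _).2 (mem_RR.1 hc).2⟩
  · intro x hx
    refine mem_RR.2 ⟨ZMod.val_lt x, (ZMod.isUnit_iff_coprime _ _).1 ?_⟩
    rw [ZMod.natCast_zmod_val]
    exact (mem_filter.1 hx).2
  · intro c hc
    exact ZMod.val_cast_of_lt (mem_RR.1 hc).1
  · intro x _
    exact ZMod.natCast_zmod_val x

lemma mod_eq_iff {q c m : ℕ} (hc : c < q) : m % q = c ↔ m ≡ c [MOD q] := by
  unfold Nat.ModEq
  rw [Nat.mod_eq_of_lt hc]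

lemma mod_eq_iff_cast {q c m : ℕ} (hc : c < q) : m % q = c ↔ (m : ZMod q) = c := by
  rw [mod_eq_iff hc, ZMod.natCast_eq_natCast_iff]

lemma coprime_mod (q m : ℕ) : (m % q).Coprime q ↔ m.Coprime q := by
  conv_rhs => rw [← Nat.div_add_mod m q, coprime_row]

lemma coprime_of_mod {q c m : ℕ} (hc : c ∈ RR q) (h : m % q = c) : m.Coprime q :=
  (coprime_mod q m).1 (h ▸ (mem_RR.1 hc).2)

variable {X q w : ℕ}

lemma tot_eq (hq : 1 ≤ q) (h : ℕ → ℝ) : tot X q h = ∑ c ∈ RR q, cl X q h c := by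
  unfold tot cl
  simp_rw [sum_filter]
  rw [sum_comm]
  refine sum_congr rfl fun m _ => ?_
  rw [sum_ite_eq]
  by_cases h0 : m.Coprime q
  · rw [cp_of h0, one_mul,
      if_pos (mem_RR.2 ⟨Nat.mod_lt _ hq, (coprime_mod _ _).2 h0⟩)]
  · rw [cp_of_not h0, zero_mul, if_neg fun h1 => h0 (coprime_of_mod h1 rfl)]

lemma cl_add (h h' : ℕ → ℝ) (c : ℕ) : cl X q (fun m => h m + h' m) c = cl X q h c + cl X q h' c :=
  sum_add_distrib

lemma cl_sub (h h' : ℕ → ℝ) (c : ℕ) : cl X q (fun m => h m - h' m) c = cl X q h c - cl X q h' c :=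
  sum_sub_distrib _ _

lemma cl_smul (t : ℝ) (h : ℕ → ℝ) (c : ℕ) : cl X q (fun m => t * h m) c = t * cl X q h c :=
  (mul_sum _ _ _).symm

/-- only the values at the numbers coprime to the modulus matter -/
lemma cl_congr {h h' : ℕ → ℝ} {c : ℕ} (hc : c ∈ RR q)
    (H : ∀ m ∈ Ico X (2 * X), m.Coprime q → h m = h' m) : cl X q h c = cl X q h' c :=
  sum_congr rfl fun m hm => H m (mem_filter.1 hm).1 (coprime_of_mod hc (mem_filter.1 hm).2)

lemma SmQ.mono {h : ℕ → ℝ} {δ δ' : ℝ} (H : SmQ X q h δ) (hδ : δ ≤ δ') : SmQ X q h δ' :=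
  le_trans H (by gcongr)

lemma SmQ.congr {h h' : ℕ → ℝ} {δ : ℝ} (H : SmQ X q h δ)
    (hc : ∀ m ∈ Ico X (2 * X), m.Coprime q → h' m = h m) : SmQ X q h' δ :=
  le_trans (le_of_eq (sum_congr rfl fun _ h1 => by rw [cl_congr h1 hc])) H

lemma SmQ.add {h h' : ℕ → ℝ} {δ δ' : ℝ} (H : SmQ X q h δ) (H' : SmQ X q h' δ') :
    SmQ X q (fun m => h m + h' m) (δ + δ') := by
  unfold SmQ at *
  simp only [cl_add]
  refine (sum_le_sum fun c _ => abs_add_le _ _).trans ?_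
  rw [sum_add_distrib]
  linarith

lemma SmQ.smul {h : ℕ → ℝ} {δ B t : ℝ} (H : SmQ X q h δ) (ht : |t| ≤ B) :
    SmQ X q (fun m => t * h m) (B * δ) := by
  unfold SmQ at *
  simp only [cl_smul, abs_mul]
  rw [← mul_sum, mul_assoc]
  exact mul_le_mul ht H (sum_nonneg fun _ _ => abs_nonneg _) ((abs_nonneg _).trans ht)

lemma smQ_sum {ι : Type*} (s : Finset ι) (h : ι → ℕ → ℝ) (δ : ι → ℝ)
    (H : ∀ i ∈ s, SmQ X q (h i) (δ i)) : SmQ X q (fun m => ∑ i ∈ s, h i m) (∑ i ∈ s, δ i) := by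
  classical
  induction s using Finset.induction_on with
  | empty => simp [SmQ, cl]
  | insert i s hi ih =>
    rw [sum_insert hi]
    exact ((H i (mem_insert_self _ _)).add (ih fun j hj => H j (mem_insert_of_mem hj))).congr
      fun _ _ _ => by rw [sum_insert hi]

lemma SmQ.tot {h : ℕ → ℝ} {δ : ℝ} (H : SmQ X q h δ) (hq : 1 ≤ q) : |tot X q h| ≤ δ * X := by
  rw [tot_eq hq]
  exact (abs_sum_le_sum_abs _ _).trans H

/-- a smooth factor of the modulus is invisible to functions on rough numbers -/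
lemma tot_smo {a e : ℕ} (he : Smo w e) {h : ℕ → ℝ} (hr : ∀ m, h m ≠ 0 → rough w m) :
    tot X (a * e) h = tot X a h := by
  refine sum_congr rfl fun m _ => ?_
  by_cases h0 : h m = 0
  · rw [h0, mul_zero, mul_zero]
  have h1 : m.Coprime e := Nat.coprime_of_dvd fun p hp h1 h2 =>
    absurd (hr m h0 p hp h1) (not_lt.2 (he p hp h2))
  unfold cp
  rw [if_congr (Nat.coprime_mul_iff_right.trans (and_iff_left h1)) rfl rfl]

/-- the density of `f` relative to the model -/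
noncomputable def den (X a w : ℕ) (f : ℕ → ℝ) : ℝ := tot X a f / tot X a (rr w)

section den
variable {a e : ℕ} {f : ℕ → ℝ}

lemma tot_bd (hf : ∀ m ∈ Ico X (2 * X), 0 ≤ f m ∧ f m ≤ rr w m) :
    0 ≤ tot X a f ∧ tot X a f ≤ tot X a (rr w) :=
  ⟨sum_nonneg fun m hm => mul_nonneg (cp_bd _ _).1 (hf m hm).1,
    sum_le_sum fun m hm => mul_le_mul_of_nonneg_left (hf m hm).2 (cp_bd _ _).1⟩

lemma den_bd (hf : ∀ m ∈ Ico X (2 * X), 0 ≤ f m ∧ f m ≤ rr w m) :
    0 ≤ den X a w f ∧ den X a w f ≤ 1 :=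
  have h := tot_bd (a := a) hf
  ⟨div_nonneg h.1 (h.1.trans h.2), div_le_one_of_le₀ h.2 (h.1.trans h.2)⟩

lemma den_mul (hf : ∀ m ∈ Ico X (2 * X), 0 ≤ f m ∧ f m ≤ rr w m) :
    den X a w f * tot X a (rr w) = tot X a f := by
  have h := tot_bd (a := a) hf
  by_cases h0 : tot X a (rr w) = 0
  · rw [h0, mul_zero]
    exact le_antisymm h.1 (h0 ▸ h.2)
  · exact div_mul_cancel₀ _ h0

/-- comparison with the model in one class -/
lemma cl_den (he : Smo w e) (hf : ∀ m, 0 ≤ f m ∧ f m ≤ rr w m) (c : ℕ) :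
    |cl X (a * e) (fun m => f m - den X a w f * rr w m) c| ≤
      |cl X (a * e) f c - tot X (a * e) f / (a * e).totient| +
        |cl X (a * e) (rr w) c - tot X (a * e) (rr w) / (a * e).totient| := by
  have h1 := den_bd (X := X) (a := a) fun m _ => hf m
  rw [cl_sub, cl_smul, tot_smo he fun m hm => rough_of_le_rr (hf m) hm,
    tot_smo he fun m hm => rough_of_rr hm, ← den_mul fun m _ => hf m]
  generalize den X a w f = ν at *
  rw [show cl X (a * e) f c - ν * cl X (a * e) (rr w) c =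
    (cl X (a * e) f c - ν * tot X a (rr w) / (a * e).totient) -
      ν * (cl X (a * e) (rr w) c - tot X a (rr w) / (a * e).totient) by ring]
  refine (abs_sub _ _).trans (add_le_add le_rfl ?_)
  rw [abs_mul, abs_of_nonneg h1.1]
  exact mul_le_of_le_one_left (abs_nonneg _) h1.2

/-- comparison with the model on average -/
lemma smQ_den {δ δ' : ℝ} (he : Smo w e) (hf : ∀ m, 0 ≤ f m ∧ f m ≤ rr w m)
    (H : EqQ X (a * e) f δ) (H' : EqQ X (a * e) (rr w) δ') :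
    SmQ X (a * e) (fun m => f m - den X a w f * rr w m) (δ + δ') := by
  unfold SmQ EqQ at *
  refine (sum_le_sum fun c _ => cl_den he hf c).trans ?_
  rw [sum_add_distrib]
  linarith

end den

/-! ### The density in a progression -/

lemma VM_pos (w M : ℕ) : 0 < VM w M :=
  prod_pos fun _ hp => one_sub_inv_pos (PP_two (mem_filter.1 hp).1)

lemma VM_le_one (w M : ℕ) : VM w M ≤ 1 :=
  prod_le_one (fun _ hp => (one_sub_inv_pos (PP_two (mem_filter.1 hp).1)).le) fun p _ => by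
    have : (0 : ℝ) ≤ 1 / p := by positivity
    linarith

lemma VM_mul {g : ℕ} (hg : rough w g) (M : ℕ) : VM w (M * g) = VM w M := by
  unfold VM
  refine prod_congr (filter_congr fun p hp => ?_) fun _ _ => rfl
  have h1 := mem_PP.1 hp
  have h2 : ¬ p ∣ g := fun h => absurd (hg p h1.2.2 h) (by omega)
  rw [h1.2.2.dvd_mul]
  simp only [h2, or_false]

lemma VM_le {M : ℕ} (hM : 1 ≤ M) (w : ℕ) : VM w M ≤ VV w * (M / M.totient) := by
  have t0 : (0 : ℝ) < M.totient := by exact_mod_cast Nat.totient_pos.2 hM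
  have M0 : (0 : ℝ) < M := by exact_mod_cast hM
  have h1 : (M.totient : ℝ) = M * ∏ p ∈ M.primeFactors, (1 - 1 / (p : ℝ)) := by
    have := congrArg (Rat.cast : ℚ → ℝ) (Nat.totient_eq_mul_prod_factors M)
    simpa using this
  have h2 : VV w = (∏ p ∈ (PP 0 w).filter (fun p => p ∣ M), (1 - 1 / (p : ℝ))) * VM w M :=
    (prod_filter_mul_prod_filter_not _ _ _).symm
  have h3 : ∏ p ∈ M.primeFactors, (1 - 1 / (p : ℝ)) ≤
      ∏ p ∈ (PP 0 w).filter (fun p => p ∣ M), (1 - 1 / (p : ℝ)) := by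
    refine prod_le_prod_of_subset_of_le_one (fun p hp => ?_) (fun p hp => ?_) fun p _ _ => ?_
    · exact Nat.mem_primeFactors.2 ⟨PP_prime (mem_filter.1 hp).1, (mem_filter.1 hp).2, by omega⟩
    · exact (one_sub_inv_pos (by exact_mod_cast (Nat.prime_of_mem_primeFactors hp).two_le)).le
    · have : (0 : ℝ) ≤ 1 / p := by positivity
      linarith
  rw [← mul_div_assoc, le_div_iff₀ t0, h1, h2]
  have := VM_pos w M
  calc _ = (∏ p ∈ M.primeFactors, (1 - 1 / (p : ℝ))) * VM w M * M := by ring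
    _ ≤ _ := by gcongr

lemma one_le_div_totient {a : ℕ} (ha : 1 ≤ a) : (1 : ℝ) ≤ a / a.totient := by
  rw [one_le_div (by exact_mod_cast Nat.totient_pos.2 ha)]
  exact_mod_cast Nat.totient_le a

lemma Blk.mono {N : ℕ} {U : ℕ → ℝ} {ρ ρ' : ℝ} (H : Blk N U ρ) (h : ρ ≤ ρ') : Blk N U ρ' :=
  fun x y hy => (H x y hy).trans (by gcongr)

lemma blk_one (N : ℕ) : Blk N (fun _ => 1) 1 := fun x y _ => by simp

end Pool.Agent.P.MP_746f10_nt.AZ
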