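import Pool.Agent.P.MP_746f10_nt.AZ.Base
import Pool.Agent.P.MP_746f10_nt.AP.QRed

/-! The counting argument for the tuples with few prime points. -/

namespace Pool.Agent.P.MP_746f10_nt.AZ

open Finset Filter
open Pool.Agent.P.MP_746f10_nt.AP

namespace CoreP

/-- the lower bound for the model -/
theorem low {k N w : ℕ} {c0 : ℝ} (a : Fin (k + 1) → ℕ) (BB : Finset (Fin (k + 1) → ℕ))
    (hg : (0 : ℝ) < lg N)
    (h : ∀ b ∈ BB, c0 * N * VV w ^ (k + 1) * ∏ i, ((a i : ℝ) / (a i).totient) ≤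
      ∑ n ∈ Ico N (2 * N), ∏ i, rr w (a i * n + b i)) :
    BB.card * (c0 * (∏ i, (a i : ℝ) / (a i).totient) * N / (8 * lg N) ^ (k + 1)) ≤
      ∑ b ∈ BB, ∑ n ∈ Ico N (2 * N), kap N w / 2 * rr w (a 0 * n + b 0) * Md N w a b n := by
  have v0 := VV_pos w
  rw [← nsmul_eq_mul]
  refine card_nsmul_le_sum _ _ _ fun b hb => ?_
  have e : ∀ n, kap N w / 2 * rr w (a 0 * n + b 0) * Md N w a b n =
      (kap N w / 2) ^ (k + 1) * ∏ i, rr w (a i * n + b i) := fun n => by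
    unfold Md
    rw [Fin.prod_univ_succ, prod_mul_distrib, prod_const, card_univ, Fintype.card_fin]
    ring
  simp only [e, ← mul_sum]
  refine le_of_eq_of_le ?_ (mul_le_mul_of_nonneg_left (h b hb)
    (pow_nonneg (div_nonneg (RedP.kap_nonneg N w) zero_le_two) (k + 1)))
  generalize ∏ i, (a i : ℝ) / (a i).totient = P
  have e4 : kap N w / 2 = 1 / (8 * lg N * VV w) := by unfold kap; field_simp; ring
  rw [e4, one_div_pow, mul_pow _ (VV w)]
  field_simp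

/-- the upper bound for the tuples with few prime points -/
theorem up {k N : ℕ} {c0 : ℝ} (c0p : 0 < c0) (a : Fin k → ℕ) (BB : Finset (Fin k → ℕ))
    (hg : (0 : ℝ) < lg N) (hN : 1 ≤ N) (h : ∀ b ∈ BB, Bd (c0 / (2 * 16 ^ k)) N a b) :
    ∑ b ∈ BB, ∑ n ∈ Ico N (2 * N), ∏ i, pr1 (a i * n + b i) ≤
      BB.card * (c0 * (∏ i, (a i : ℝ) / (a i).totient) * N / (8 * lg N) ^ k / 2) := by
  classical
  have l1 := lg_le_log hN
  rw [← nsmul_eq_mul]
  refine sum_le_card_nsmul _ _ _ fun b hb => ?_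
  have := (h b hb).2
  simp only [pr1, prod_boole, mem_univ, forall_true_left, sum_boole]
  refine le_trans (by convert this.le) ?_
  have p1 : 0 ≤ ∏ i, (a i : ℝ) / (a i).totient := by positivity
  generalize ∏ i, (a i : ℝ) / (a i).totient = P at p1
  calc _ ≤ c0 / (2 * 16 ^ k) * P * N / (lg N / 2 : ℝ) ^ k := by gcongr
    _ = _ := by
      rw [show (16 : ℝ) = 8 * 2 by norm_num, mul_pow, mul_pow, div_pow]
      field_simp

end CoreP

open CoreP in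
theorem zCore (h1 : T_KP2) (h2 : T_Chain) (h3 : T_Pos) (h4 : S_Rows) : T_Core := by
  intro k
  obtain ⟨c0, c0p, h3⟩ := h3 (k + 1)
  obtain ⟨Cr, hCr, h4⟩ := h4
  refine ⟨c0 / (2 * 16 ^ (k + 1)), by positivity, fun C ε hC hε => ?_⟩
  obtain ⟨D, hD⟩ : ∃ D, D = max C Cr := ⟨_, rfl⟩
  have d1 : C ≤ D := hD ▸ le_max_left _ _
  have d2 : Cr ≤ D := hD ▸ le_max_right _ _
  have d3 : 1 ≤ D := hC.trans d1
  obtain ⟨η, hη⟩ : ∃ η, η = ε * c0 / (2 * 8 ^ (k + 1)) := ⟨_, rfl⟩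
  have η0 : 0 < η := by rw [hη]; positivity
  obtain ⟨Cw0, h1⟩ := h1 (η / (3 * (k + 1) * D ^ k)) (k + 2) (by positivity)
  refine ⟨η / 3, Cw0 + 2, by positivity, fun Cw => ?_⟩
  obtain ⟨N1, h1⟩ := h1 Cw
  obtain ⟨N3, h3⟩ := h3 Cw
  obtain ⟨N4, h4⟩ := h4 Cw
  obtain ⟨N5, h5⟩ := ev_lg ((eventually_ge_atTop 4).and ((eventually_ge_atTop ⌈D⌉₊).and
    (eventually_ge_atTop ⌈3 * (2 * k + 1) / η⌉₊)))
  refine ⟨N1 + N3 + N4 + N5 + 1, fun N w a B0 BB Z hN w1 w3 a0 a3 aN hZ hBlk hB hZS => ?_⟩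
  obtain ⟨g4, g5, g6⟩ := h5 N (by omega)
  have g0 : (4 : ℝ) ≤ lg N := by exact_mod_cast g4
  have gp : (0 : ℝ) < lg N := by linarith
  have w2 : lg N ^ 2 ≤ w := (Nat.pow_le_pow_right (by omega) (by omega)).trans w1
  have w0 : lg N ^ Cw0 ≤ w := (Nat.pow_le_pow_right (by omega) (by omega)).trans w1
  obtain ⟨k1, h4⟩ := h4 N w (by omega) (by nlinarith) w3
  have q0 : (0 : ℝ) < N := by exact_mod_cast (show 0 < N by omega)
  have Z0 : 0 ≤ Z := (Nat.cast_nonneg _).trans hZ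
  have a1 : ∀ i, 1 ≤ a i := fun i =>
    Fin.cases a0 (fun j => le_trans (by omega) (aN j)) i
  have a2 : ∀ i, a i ≤ N ^ 2 := fun i => by
    have h5 : N ^ 3 ≤ (N ^ 2) ^ 2 := by
      rw [← pow_mul]
      exact Nat.pow_le_pow_right (by omega) (by norm_num)
    exact (Nat.pow_le_pow_iff_left two_ne_zero).1 ((a3 i).trans h5)
  have t0 : ∀ i, (0 : ℝ) < (a i).totient := fun i => by
    exact_mod_cast Nat.totient_pos.2 (a1 i)
  have h6 := h2 k N w a B0 BB D Z (η / (3 * (k + 1) * D ^ k)) d3 (Nat.ceil_le.1 g5)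
    (by positivity) k1 hZ (hBlk.mono (by gcongr))
    (fun b hb => ⟨(hB b hb).1, fun i =>
      mem_RU.2 ⟨(hB b hb).2.1 i, QRedP.adm_cop (hB b hb).2.2.1 _⟩⟩)
    (fun i n hn => ⟨(h4 _ n (aN i) hn).1, (h4 _ n (aN i) hn).2.trans (by gcongr)⟩)
    (fun i => h1 N w _ (by omega) w0 w3 (aN i) (a3 _))
  have h7 := low a BB gp fun b hb =>
    h3 N w a b (by omega) w2 w3 (fun i => ⟨a1 i, a2 i⟩) (hB b hb).2.2.1
  have h8 := up c0p a BB gp (by omega) fun b hb => (hB b hb).2.2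
  unfold ZS at hZS
  have e3 : ∏ i : Fin k, (a i.succ : ℝ) = (∏ i : Fin k, (a i.succ : ℝ) / (a i.succ).totient) *
      ∏ i : Fin k, ((a i.succ).totient : ℝ) := by
    rw [← prod_mul_distrib]
    exact prod_congr rfl fun i _ => (div_mul_cancel₀ _ (t0 _).ne').symm
  have p1 : 0 < ∏ i : Fin k, (a i.succ : ℝ) / (a i.succ).totient :=
    prod_pos fun i _ => div_pos (by exact_mod_cast a1 _) (t0 _)
  have p0 : 0 < ∏ i : Fin k, ((a i.succ).totient : ℝ) := prod_pos fun i _ => t0 _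
  rw [Fin.prod_univ_succ (fun i => (a i : ℝ) / (a i).totient)] at h7 h8
  rw [e3] at h6 hZS
  generalize ∏ i : Fin k, (a i.succ : ℝ) / (a i.succ).totient = P at *
  generalize ∏ i : Fin k, ((a i.succ).totient : ℝ) = T at *
  have t1 := t0 0
  have a4 : (0 : ℝ) < a 0 := by exact_mod_cast a0
  have h9 : 3 * (2 * k + 1) / η ≤ (lg N : ℝ) := Nat.ceil_le.1 g6
  rw [div_le_iff₀ η0] at h9
  have h10 : (k : ℝ) * (η / (3 * (k + 1) * D ^ k) * D ^ k + 2 / lg N) + (η / 3 + 1 / lg N) ≤ η := by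
    have e1 : (k : ℝ) * (η / (3 * (k + 1) * D ^ k) * D ^ k) ≤ η / 3 := by
      calc _ ≤ ((k : ℝ) + 1) * (η / (3 * (k + 1) * D ^ k) * D ^ k) := by gcongr; linarith
        _ = _ := by field_simp
    have e2 : (2 * k + 1 : ℝ) / lg N ≤ η / 3 := by
      rw [div_le_div_iff₀ gp (by norm_num)]
      linarith
    have e4 : (k : ℝ) * (2 / lg N) + 1 / lg N = (2 * k + 1 : ℝ) / lg N := by ring
    linarith [mul_add (k : ℝ) (η / (3 * (k + 1) * D ^ k) * D ^ k) (2 / lg N)]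
  have x0 : 0 ≤ Z * N / (lg N : ℝ) ^ (k + 1) * (P * T) := by positivity
  refine le_of_mul_le_mul_right
    (a := c0 * (a 0 / (a 0).totient * P) * N / (8 * lg N) ^ (k + 1) / 2) ?_ (by positivity)
  calc _ ≤ ((k : ℝ) * (η / (3 * (k + 1) * D ^ k) * D ^ k + 2 / lg N) + (η / 3 + 1 / lg N)) *
        (Z * N / (lg N : ℝ) ^ (k + 1) * (P * T)) := by linarith
    _ ≤ η * (Z * N / (lg N : ℝ) ^ (k + 1) * (P * T)) := mul_le_mul_of_nonneg_right h10 x0
    _ = _ := by rw [hη, mul_pow]; field_simp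

end Pool.Agent.P.MP_746f10_nt.AZ
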