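import Pool.Agent.P.MP_746f10_nt.AP.QBase

/-! Interface of the theorem on prime values of forms when one modulus is arbitrary. -/

namespace Pool.Agent.P.MP_746f10_nt.AZ

open Finset
open Pool.Agent.P.MP_746f10_nt.AP
open Pool.Agent.P.MP_a14ce1_nt.Ch (nit)
open scoped ArithmeticFunction.vonMangoldt

/-! ### Definitions -/

/-- a quantity far above the powers of the logarithm and far below `om` -/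
def o2 (N : ℕ) : ℕ := 2 ^ Nat.sqrt (Nat.sqrt (lg N))

/-- all prime factors are at most `w` -/
def Smo (w e : ℕ) : Prop := ∀ p, p.Prime → p ∣ e → p ≤ w

/-- the density of the rough numbers in a progression -/
noncomputable def VM (w M : ℕ) : ℝ := ∏ p ∈ (PP 0 w).filter (fun p => ¬ p ∣ M), (1 - 1 / (p : ℝ))

/-- the reduced residues -/
def RR (q : ℕ) : Finset ℕ := (range q).filter fun c => c.Coprime q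

/-- the positive reduced residues -/
def RU (a : ℕ) : Finset ℕ := (Ico 1 a).filter fun b => b.Coprime a

/-- the sum over one residue class -/
noncomputable def cl (X q : ℕ) (h : ℕ → ℝ) (c : ℕ) : ℝ :=
  ∑ m ∈ (Ico X (2 * X)).filter (fun m => m % q = c), h m

/-- the sum over all reduced classes -/
noncomputable def tot (X q : ℕ) (h : ℕ → ℝ) : ℝ := ∑ m ∈ Ico X (2 * X), cp q m * h m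

/-- small on average over the reduced classes -/
def SmQ (X q : ℕ) (h : ℕ → ℝ) (δ : ℝ) : Prop := ∑ c ∈ RR q, |cl X q h c| ≤ δ * X

/-- equidistributed on average over the reduced classes -/
def EqQ (X q : ℕ) (h : ℕ → ℝ) (δ : ℝ) : Prop :=
  ∑ c ∈ RR q, |cl X q h c - tot X q h / q.totient| ≤ δ * X

/-- the range of the parameters for a small modulus -/
def Rs (Q a N : ℕ) : Prop := Q ^ 2 ≤ a * N ∧ a * N ≤ 2 * Q ^ 2 ∧ 1 ≤ a ∧ a ≤ N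

/-- density at most `ρ` on all long intervals -/
def Blk (N : ℕ) (U : ℕ → ℝ) (ρ : ℝ) : Prop :=
  ∀ x y : ℕ, N ≤ y ^ 2 → ∑ n ∈ Ico x (x + y), U n ≤ ρ * y

/-- the primes dominate the model in cut norm, with an error term that is smooth along blocks -/
def KP (N w a A : ℕ) (ε : ℝ) : Prop := ∃ Bad : ℕ → ℝ, (∀ n, 0 ≤ Bad n) ∧
  (∀ (U : ℕ → ℝ) (ρ : ℝ), (∀ n, 0 ≤ U n ∧ U n ≤ 1) → 0 ≤ ρ → Blk N U ρ →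
    ∑ n ∈ Ico N (2 * N), U n * Bad n ≤ ε * ρ * a * N / lg N + a * N / (lg N : ℝ) ^ A) ∧
  ∀ u v : ℕ → ℝ, (∀ n, 0 ≤ u n ∧ u n ≤ 1) → (∀ b, 0 ≤ v b ∧ v b ≤ 1) →
    (∀ b, v b ≠ 0 → b.Coprime a) → kap N w / 2 * Br a N (rr w) u v ≤
      Br a N pr1 u v + a * N / (lg N : ℝ) ^ A + ∑ n ∈ Ico N (2 * N), u n * Bad n

/-- the primes dominate the model against periodic functions, for the columns in `B0` -/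
def KZ (N w a : ℕ) (B0 : Finset ℕ) (Z ε : ℝ) : Prop := ∃ err H : ℕ → ℝ, (∀ m, 0 ≤ err m) ∧
  ∑ b ∈ B0, ∑ n ∈ Ico N (2 * N), err (a * n + b) ≤ ε * Z * N / lg N ∧
  (∀ b ∈ B0, ∀ n ∈ Ico N (2 * N),
    kap N w / 2 * rr w (a * n + b) ≤ pr1 (a * n + b) + err (a * n + b) + H (a * n + b)) ∧
  ∀ (e : ℕ) (φ : ℕ → ℝ), 1 ≤ e → e ≤ o2 N → Smo w e → (∀ n n', n ≡ n' [MOD e] → φ n = φ n') →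
    (∀ n, |φ n| ≤ 1) →
    ∑ b ∈ B0, |∑ n ∈ Ico N (2 * N), H (a * n + b) * φ n| ≤ Z * N / o2 N

/-- the model in all forms but the first -/
noncomputable def Md {k : ℕ} (N w : ℕ) (a b : Fin (k + 1) → ℕ) (n : ℕ) : ℝ :=
  ∏ i : Fin k, kap N w / 2 * rr w (a i.succ * n + b i.succ)

/-- the model is replaced by the primes in the first form -/
def ZS {k : ℕ} (N w : ℕ) (a : Fin (k + 1) → ℕ) (BB : Finset (Fin (k + 1) → ℕ)) (β : ℝ) : Prop :=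
  ∑ b ∈ BB, ∑ n ∈ Ico N (2 * N), kap N w / 2 * rr w (a 0 * n + b 0) * Md N w a b n ≤
    ∑ b ∈ BB, ∑ n ∈ Ico N (2 * N), pr1 (a 0 * n + b 0) * Md N w a b n + β

open Classical in
/-- admissible with few prime points -/
def Bd {k : ℕ} (c : ℝ) (Q : ℕ) (a b : Fin k → ℕ) : Prop :=
  Adm a b ∧ (((Ico Q (2 * Q)).filter (fun n => ∀ i, (a i * n + b i).Prime)).card : ℝ) <
    c * (∏ i, (a i : ℝ) / (a i).totient) * Q / Real.log Q ^ k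

/-! ### Consequences of the half plane -/

def T_Tw : Prop := ∃ κ C : ℝ, 0 < κ ∧ κ ≤ 1 / 2 ∧ 0 < C ∧
  ∀ (q : ℕ) [NeZero q] (χ : DirichletCharacter ℂ q) (t Y : ℝ) (X : ℕ), χ ≠ 1 → q ≤ Y → |t| ≤ Y →
    X ≤ Y → ‖∑ n ∈ Icc 1 X, (Λ n : ℂ) * χ n * nit t n‖ ≤
      C * (X : ℝ) ^ (1 - κ) * (1 + Real.log Y) ^ 3

def T_Pr : Prop := ∃ κ C : ℝ, 0 < κ ∧ κ ≤ 1 / 2 ∧ 0 < C ∧
  ∀ (q : ℕ) [NeZero q] (χ : DirichletCharacter ℂ q) (t Y : ℝ) (P x y : ℕ), χ ≠ 1 → q ≤ Y →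
    |t| ≤ Y → 2 * (P : ℝ) ≤ Y → 2 ≤ P → P ≤ x → x ≤ y → y ≤ 2 * P →
    ‖∑ p ∈ PP x y, χ p * nit t p‖ ≤ C * (P : ℝ) ^ (1 - κ) * (1 + Real.log Y) ^ 3

def T_Gd : Prop := ∀ u A B : ℕ, 1 ≤ u → ∃ Q0 : ℕ, ∀ Q a N : ℕ, Q0 ≤ Q → Rg Q a N → Gd2 u A B Q a

/-! ### Large moduli -/

def T_RV : Prop := ∃ C : ℝ, 0 < C ∧ ∀ (X H D : ℕ) (γ u : ℕ → ℝ), 1 ≤ D → (∀ d, |γ d| ≤ 1) →
  (∀ y, |u y| ≤ 1) →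
  |∑ y ∈ Icc 1 X, u y * ∑ j ∈ range H, ∑ d ∈ Icc 1 D, γ d * (dd (y + j) d - 1 / d)| ≤
    C * (1 + Real.log D) ^ 2 * √((X + (D : ℝ) ^ 2) * X * H)

def T_Maj : Prop := ∀ (u : ℕ) (ε : ℝ), 1 ≤ u → 0 < ε → ∃ Q0 : ℕ, ∀ Q : ℕ, Q0 ≤ Q →
  ∃ S : Finset ℕ, (∀ d ∈ S, 1 ≤ d ∧ d ≤ 2 ^ (4 * lg Q / 3 + 7)) ∧ ∑ d ∈ S, 1 / (d : ℝ) ≤ ε ∧
    ∀ m, Q ^ 2 ≤ m → m < 4 * Q ^ 2 → bad u Q m ≠ 0 → rough (zz u Q) m ∧ ∃ d ∈ S, d ∣ m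

def T_Bad2 : Prop := ∀ (u A : ℕ) (ε : ℝ), 1 ≤ u → 0 < ε → ∃ Q0 : ℕ,
  ∀ (Q a N : ℕ) (U : ℕ → ℝ), Q0 ≤ Q → Rg Q a N → (∀ n, 0 ≤ U n ∧ U n ≤ 1) →
    ∑ n ∈ Ico N (2 * N), U n * ∑ b ∈ Ico 1 a, bad u Q (a * n + b) ≤
      ε * a / lg Q * ∑ n ∈ Ico N (2 * N), U n + a * N / (lg Q : ℝ) ^ A

def T_A2 : Prop := ∀ ε : ℝ, 0 < ε → ∃ u : ℕ, 1 ≤ u ∧ ∀ Cw : ℕ, ∃ Q0 : ℕ, ∀ Q w : ℕ, Q0 ≤ Q →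
  2 ≤ w → w ≤ lg Q ^ Cw → ∃ (D2 : ℕ) (lam' err : ℕ → ℝ), D2 * om Q ≤ Q ∧ (∀ g, |lam' g| ≤ 1) ∧
    (∀ g, lam' g ≠ 0 → rough w g) ∧ (∀ m, 0 ≤ err m) ∧
    (∀ x y : ℕ, Q ≤ y → ∑ m ∈ Ico x (x + y), err m ≤ ε * y / lg Q) ∧
    ∀ m, 1 ≤ m →
      |rr (zz u Q) m * sigD Q m - rr w m * ∑ g ∈ Icc 1 D2, lam' g * dd m g| ≤ err m

def T_G2 : Prop := ∀ (ε : ℝ) (A : ℕ), 0 < ε → ∃ Ch Cw0 : ℕ, ∀ Cw : ℕ, ∃ Q0 : ℕ,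
  ∀ Q w : ℕ, Q0 ≤ Q → lg Q ^ Cw0 ≤ w → w ≤ lg Q ^ Cw → ∃ G err : ℕ → ℝ, (∀ m, 0 ≤ err m) ∧
    (∀ m, Q ^ 2 ≤ m → m < 4 * Q ^ 2 → |pr1 m - G m| ≤ err m) ∧
    ∀ a N : ℕ, Rg Q a N → ApproxC a N w (N / lg Q ^ Ch) G (1 / (lg Q : ℝ) ^ A) ∧
      ∀ U : ℕ → ℝ, (∀ n, 0 ≤ U n ∧ U n ≤ 1) →
        ∑ n ∈ Ico N (2 * N), U n * ∑ b ∈ Ico 1 a, err (a * n + b) ≤
          ε * a / lg Q * ∑ n ∈ Ico N (2 * N), U n + a * N / (lg Q : ℝ) ^ A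

def T_RowL : Prop := ∀ Cw : ℕ, ∃ N0 : ℕ, ∀ N w a n : ℕ, N0 ≤ N → lg N ^ 2 ≤ w → w ≤ lg N ^ Cw →
  N ≤ a → a ≤ N ^ 2 → VV w * a / 2 ≤ ∑ b ∈ Ico 1 a, rr w (a * n + b) * cp a b

def T_KP2 : Prop := ∀ (ε : ℝ) (A : ℕ), 0 < ε → ∃ Cw0 : ℕ, ∀ Cw : ℕ, ∃ N0 : ℕ, ∀ N w a : ℕ,
  N0 ≤ N → lg N ^ Cw0 ≤ w → w ≤ lg N ^ Cw → N ≤ a → a ^ 2 ≤ N ^ 3 → KP N w a A ε

/-! ### A small modulus -/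

def T_AP : Prop := ∃ k0 : ℕ, ∀ mm w x y M c : ℕ, 2 ≤ w → 1 ≤ M →
  (∀ p, p.Prime → p ≤ w → p ∣ M → ¬ p ∣ c) →
  |∑ m ∈ (Ico x (x + y)).filter (fun m => m ≡ c [MOD M]), rr w m - y / M * VM w M| ≤
    y / M * VM w M / 2 ^ mm + (w : ℝ) ^ (4 * (k0 + mm) + 6)

def T_BT : Prop := ∃ (C : ℝ) (N0 : ℕ), 1 ≤ C ∧ ∀ N a : ℕ, N0 ≤ N → 1 ≤ a →
  Blk N (fun n => ∑ b ∈ RU a, pr1 (a * n + b)) (C * a / lg N) ∧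
    ∀ b, b.Coprime a → Blk N (fun n => pr1 (a * n + b)) (C * (a / a.totient) / lg N)

def T_PN : Prop := ∀ Cw : ℕ, ∃ N0 : ℕ, ∀ N X w : ℕ, N0 ≤ N → N ≤ X → X ≤ N ^ 2 → 2 ≤ w →
  w ≤ lg N ^ Cw → (X : ℝ) / (4 * lg N) ≤ ∑ m ∈ Ico X (2 * X), pr1 m ∧
    ∑ m ∈ Ico X (2 * X), rr w m ≤ 5 / 4 * VV w * X

def T_PR : Prop := ∀ Cw : ℕ, ∃ N0 : ℕ, ∀ a N w e c : ℕ, N0 ≤ N → 1 ≤ a → 2 ≤ w → w ≤ lg N ^ Cw →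
  1 ≤ e → e ≤ o2 N → c ∈ RR (a * e) →
  |cl (a * N) (a * e) (rr w) c - tot (a * N) (a * e) (rr w) / (a * e).totient| ≤
    N / (e * (o2 N : ℝ) ^ 3)

def T_PI : Prop := ∀ Cw : ℕ, ∃ N0 : ℕ, ∀ (Q a N w e D2 : ℕ) (lam : ℕ → ℝ), N0 ≤ N → Rs Q a N →
  2 ≤ w → w ≤ lg N ^ Cw → 1 ≤ e → e ≤ o2 N → Smo w e → D2 * om Q ≤ Q → (∀ g, |lam g| ≤ 1) →
  (∀ g, lam g ≠ 0 → g.Coprime a ∧ rough w g) →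
  SmQ (a * N) (a * e) (fun m => rr w m * ∑ g ∈ Icc 1 D2, lam g * (dd m g - 1 / g))
    (1 / (o2 N : ℝ) ^ 2)

def T_Bil : Prop := ∀ (X q P L : ℕ) (K : ℝ) (β f : ℕ → ℝ), 1 ≤ q → 1 ≤ P → 1 ≤ L → 0 ≤ K →
  (∀ l, 0 ≤ β l ∧ β l ≤ 1) →
  (∀ χ : DirichletCharacter ℂ q, χ ≠ 1 → ∀ x y, P ≤ x → x ≤ y → y ≤ 2 * P →
    ‖∑ p ∈ PP x y, χ p‖ ≤ K) →
  (∀ m, f m = cv (fun p => if p ∈ PP P (2 * P) then (1 : ℝ) else 0) β m) →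
  ∑ c ∈ RR q, |cl X q f c - tot X q f / q.totient| ≤
    (2 * X / (P * L) + 1) * K * (L + q) + 8 * P * L

def T_PII : Prop := ∀ u : ℕ, 1 ≤ u → ∃ N0 : ℕ, ∀ (Q a N e : ℕ) (S : Finset ℕ), N0 ≤ N →
  Rs Q a N → 1 ≤ e → e ≤ o2 N → S ∈ Pats2 u Q →
  EqQ (a * N) (a * e) (CS S) (1 / (o2 N : ℝ) ^ 3)

def T_Per : Prop := ∀ (a N w e : ℕ) (B0 : Finset ℕ) (H φ : ℕ → ℝ), 1 ≤ e → Smo w e →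
  B0 ⊆ RU a → (∀ m, H m ≠ 0 → rough w m) → (∀ n n', n ≡ n' [MOD e] → φ n = φ n') →
  (∀ n, |φ n| ≤ 1) →
  ∑ b ∈ B0, |∑ n ∈ Ico N (2 * N), H (a * n + b) * φ n| ≤
    ∑ c ∈ (RR (a * e)).filter (fun c => c % a ∈ B0), |cl (a * N) (a * e) H c|

def T_K1 : Prop := ∀ (ε : ℝ) (Cw : ℕ), 0 < ε → ∃ N0 : ℕ, ∀ N w a : ℕ, N0 ≤ N → 2 ≤ w →
  w ≤ lg N ^ Cw → 1 ≤ a → a ≤ N → KZ N w a (RU a) a ε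

def T_K2 : Prop := ∃ δ : ℝ, 0 < δ ∧ δ ≤ 1 ∧ ∀ Cw : ℕ, ∃ N0 : ℕ, ∀ N w a b : ℕ, N0 ≤ N → 2 ≤ w →
  w ≤ lg N ^ Cw → (a : ℝ) ≤ (N : ℝ) ^ δ → b ∈ RU a → KZ N w a {b} (a / a.totient) 0

/-! ### Assembly -/

def T_Zero : Prop := ∀ k Cw : ℕ, ∃ N0 : ℕ, ∀ (N w : ℕ) (a : Fin (k + 1) → ℕ) (B0 : Finset ℕ)
  (BB : Finset (Fin (k + 1) → ℕ)) (Z ε : ℝ), N0 ≤ N → 2 ≤ w → w ≤ lg N ^ Cw →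
  (∀ i : Fin k, N ≤ a i.succ) → 0 ≤ ε → (B0.card : ℝ) ≤ Z →
  (∀ b ∈ BB, b 0 ∈ B0 ∧ ∀ i : Fin k, b i.succ ∈ Ico 1 (a i.succ)) → KZ N w (a 0) B0 Z ε →
  ZS N w a BB ((ε + 1 / lg N) * (Z * N / (lg N : ℝ) ^ (k + 1) * ∏ i : Fin k, (a i.succ : ℝ)))

def T_ZeroL : Prop := ∀ (k : ℕ) (ε : ℝ), 0 < ε → ∃ Cw0 : ℕ, ∀ Cw : ℕ, ∃ N0 : ℕ,
  ∀ (N w : ℕ) (a : Fin (k + 1) → ℕ) (BB : Finset (Fin (k + 1) → ℕ)), N0 ≤ N →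
  lg N ^ Cw0 ≤ w → w ≤ lg N ^ Cw → (∀ i, N ≤ a i) → a 0 ^ 2 ≤ N ^ 3 →
  (∀ b ∈ BB, b 0 ∈ RU (a 0) ∧ ∀ i : Fin k, b i.succ ∈ Ico 1 (a i.succ)) →
  ZS N w a BB ((ε + 1 / lg N) * (a 0 * N / (lg N : ℝ) ^ (k + 1) * ∏ i : Fin k, (a i.succ : ℝ)))

def T_Chain : Prop := ∀ (k N w : ℕ) (a : Fin (k + 1) → ℕ) (B0 : Finset ℕ)
  (BB : Finset (Fin (k + 1) → ℕ)) (C Z ε : ℝ), 1 ≤ C → C ≤ lg N → 0 ≤ ε → kap N w ≤ 1 →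
  (B0.card : ℝ) ≤ Z → Blk N (fun n => ∑ b ∈ B0, pr1 (a 0 * n + b)) (C * Z / lg N) →
  (∀ b ∈ BB, b 0 ∈ B0 ∧ ∀ i : Fin k, b i.succ ∈ RU (a i.succ)) →
  (∀ (i : Fin k) (n : ℕ), N ≤ n →
    ∑ b ∈ Ico 1 (a i.succ), rr w (a i.succ * n + b) ≤ 5 / 4 * VV w * a i.succ ∧
    ∑ b ∈ Ico 1 (a i.succ), pr1 (a i.succ * n + b) ≤ C * a i.succ / lg N) →
  (∀ i : Fin k, KP N w (a i.succ) (k + 2) ε) →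
  ∑ b ∈ BB, ∑ n ∈ Ico N (2 * N), pr1 (a 0 * n + b 0) * Md N w a b n ≤
    ∑ b ∈ BB, ∑ n ∈ Ico N (2 * N), ∏ i, pr1 (a i * n + b i) +
      k * (ε * C ^ k + 2 / lg N) * (Z * N / (lg N : ℝ) ^ (k + 1) * ∏ i : Fin k, (a i.succ : ℝ))

def T_Core : Prop := ∀ k : ℕ, ∃ c : ℝ, 0 < c ∧ ∀ C ε : ℝ, 1 ≤ C → 0 < ε →
  ∃ (ε1 : ℝ) (Cw0 : ℕ), 0 < ε1 ∧ ∀ Cw : ℕ, ∃ N0 : ℕ, ∀ (N w : ℕ) (a : Fin (k + 1) → ℕ)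
    (B0 : Finset ℕ) (BB : Finset (Fin (k + 1) → ℕ)) (Z : ℝ), N0 ≤ N → lg N ^ Cw0 ≤ w →
    w ≤ lg N ^ Cw → 1 ≤ a 0 → (∀ i, a i ^ 2 ≤ N ^ 3) → (∀ i : Fin k, N ≤ a i.succ) →
    (B0.card : ℝ) ≤ Z → Blk N (fun n => ∑ b ∈ B0, pr1 (a 0 * n + b)) (C * Z / lg N) →
    (∀ b ∈ BB, b 0 ∈ B0 ∧ (∀ i : Fin k, b i.succ ∈ Ico 1 (a i.succ)) ∧ Bd c N a b) →
    ZS N w a BB ((ε1 + 1 / lg N) * (Z * N / (lg N : ℝ) ^ (k + 1) * ∏ i : Fin k, (a i.succ : ℝ))) →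
    (BB.card : ℝ) ≤ ε * (Z * (a 0).totient / a 0) * ∏ i : Fin k, ((a i.succ).totient : ℝ)

open Classical in
def T_Main : Prop := ∀ k : ℕ, ∃ c δ : ℝ, 0 < c ∧ 0 < δ ∧ ∀ ε : ℝ, 0 < ε → ∃ Q0 : ℕ,
  ∀ (Q : ℕ) (a : Fin (k + 1) → ℕ), Q0 ≤ Q → (∀ i, a i ^ 2 ≤ Q ^ 3) →
    (∀ i : Fin k, Q ≤ a i.succ) →
    (((Fintype.piFinset fun i => Ico 1 (a i)).filter (Bd c Q a)).card : ℝ) ≤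
        ε * ∏ i, ((a i).totient : ℝ) ∧
      ((a 0 : ℝ) ≤ (Q : ℝ) ^ δ → ∀ b0 : ℕ,
        (((Fintype.piFinset fun i => Ico 1 (a i)).filter fun b => b 0 = b0 ∧ Bd c Q a b).card : ℝ) ≤
          ε * ∏ i : Fin k, ((a i.succ).totient : ℝ))

end Pool.Agent.P.MP_746f10_nt.AZ
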