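import Pool.Agent.P.MP_746f10_nt.AZ.Base
import Pool.Agent.P.MP_746f10_nt.AP.QKP

/-! The primes dominate the model in cut norm, with an error that is smooth along blocks. -/

namespace Pool.Agent.P.MP_746f10_nt.AZ

open Finset Filter
open Pool.Agent.P.MP_746f10_nt.AP

namespace KP2P

/-- the block of `n` lies inside the range -/
def Full (N hh n : ℕ) : Prop := N ≤ n / hh * hh ∧ (n / hh + 1) * hh ≤ 2 * N

instance (N hh : ℕ) : DecidablePred (Full N hh) := fun n => by unfold Full; infer_instance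

lemma fiber {N hh t : ℕ} (hpos : 1 ≤ hh) (h1 : N ≤ t * hh) (h2 : (t + 1) * hh ≤ 2 * N) :
    ((Ico N (2 * N)).filter (Full N hh)).filter (fun n => n / hh = t) =
      Ico (t * hh) (t * hh + hh) := by
  ext n
  simp only [mem_filter, mem_Ico]
  have e : (t + 1) * hh = t * hh + hh := by ring
  constructor
  · rintro ⟨-, rfl⟩
    exact ⟨Nat.div_mul_le_self n hh, by
      have := Nat.lt_div_mul_add (a := n) (b := hh) hpos
      omega⟩
  · rintro ⟨k1, k2⟩
    have k3 : n / hh = t := Nat.div_eq_of_lt_le k1 (by omega)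
    refine ⟨⟨⟨by omega, by omega⟩, ?_⟩, k3⟩
    unfold Full
    rw [k3]
    exact ⟨h1, h2⟩

/-- a function of the block against a weight of small density -/
lemma full_le {N hh : ℕ} {U m : ℕ → ℝ} {ρ : ℝ} (hpos : 1 ≤ hh) (hρ : 0 ≤ ρ) (hm : ∀ t, 0 ≤ m t)
    (hU : ∀ x, ∑ n ∈ Ico x (x + hh), U n ≤ ρ * hh) :
    ∑ n ∈ (Ico N (2 * N)).filter (Full N hh), U n * m (n / hh) ≤
      ρ * ∑ n ∈ Ico N (2 * N), m (n / hh) := by
  have hmap : ∀ n ∈ (Ico N (2 * N)).filter (Full N hh),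
      n / hh ∈ (range (2 * N)).filter (fun t => N ≤ t * hh ∧ (t + 1) * hh ≤ 2 * N) := by
    intro n hn
    obtain ⟨k1, k2⟩ := mem_filter.1 hn
    exact mem_filter.2 ⟨mem_range.2 ((Nat.div_le_self n hh).trans_lt (mem_Ico.1 k1).2), k2⟩
  calc _ ≤ ρ * ∑ n ∈ (Ico N (2 * N)).filter (Full N hh), m (n / hh) := by
        rw [← sum_fiberwise_of_maps_to hmap, ← sum_fiberwise_of_maps_to hmap
          (f := fun n => m (n / hh)), mul_sum]
        refine sum_le_sum fun t ht => ?_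
        obtain ⟨-, k1, k2⟩ := mem_filter.1 ht
        have e1 : ∑ n ∈ ((Ico N (2 * N)).filter (Full N hh)).filter (fun n => n / hh = t),
            U n * m (n / hh) = (∑ n ∈ Ico (t * hh) (t * hh + hh), U n) * m t := by
          rw [← fiber hpos k1 k2, sum_mul]
          exact sum_congr rfl fun n hn => by rw [(mem_filter.1 hn).2]
        have e2 : ∑ n ∈ ((Ico N (2 * N)).filter (Full N hh)).filter (fun n => n / hh = t),
            m (n / hh) = hh * m t := by
          rw [sum_congr rfl (g := fun _ => m t) fun n hn => by rw [(mem_filter.1 hn).2],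
            fiber hpos k1 k2, sum_const, Nat.card_Ico, nsmul_eq_mul, Nat.add_sub_cancel_left]
        rw [e1, e2, ← mul_assoc]
        exact mul_le_mul_of_nonneg_right (hU _) (hm t)
    _ ≤ _ := mul_le_mul_of_nonneg_left
        (sum_le_sum_of_subset_of_nonneg (filter_subset _ _) fun _ _ _ => hm _) hρ

/-- the rows in the two incomplete blocks -/
lemma nonfull_le {N hh : ℕ} {U : ℕ → ℝ} {ρ : ℝ} (hpos : 1 ≤ hh) (h0 : ∀ n, 0 ≤ U n)
    (hU : ∀ x, ∑ n ∈ Ico x (x + hh), U n ≤ ρ * hh) :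
    ∑ n ∈ (Ico N (2 * N)).filter (fun n => ¬ Full N hh n), U n ≤ 2 * (ρ * hh) := by
  have hs : (Ico N (2 * N)).filter (fun n => ¬ Full N hh n) ⊆
      Ico N (N + hh) ∪ Ico (2 * N - hh) (2 * N - hh + hh) := by
    intro n hn
    obtain ⟨k1, k2⟩ := mem_filter.1 hn
    have k3 := mem_Ico.1 k1
    have k4 := Nat.div_mul_le_self n hh
    have k5 := Nat.lt_div_mul_add (a := n) (b := hh) hpos
    have e : (n / hh + 1) * hh = n / hh * hh + hh := by ring
    unfold Full at k2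
    rw [e] at k2
    simp only [mem_union, mem_Ico]
    omega
  have h1 := sum_le_sum_of_subset_of_nonneg hs fun n _ _ => h0 n
  have h2 := sum_union_inter (s₁ := Ico N (N + hh)) (s₂ := Ico (2 * N - hh) (2 * N - hh + hh))
    (f := U)
  have h3 : 0 ≤ ∑ n ∈ Ico N (N + hh) ∩ Ico (2 * N - hh) (2 * N - hh + hh), U n :=
    sum_nonneg fun n _ => h0 n
  have h4 := hU N
  have h5 := hU (2 * N - hh)
  linarith

/-- removing rows from the model -/
lemma cut {a N w : ℕ} {κ W : ℝ} {u v : ℕ → ℝ} (P : ℕ → Prop) [DecidablePred P] (hκ : 0 ≤ κ)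
    (hrow : ∀ n, N ≤ n → ∑ b ∈ Ico 1 a, rr w (a * n + b) ≤ W)
    (hu : ∀ n, 0 ≤ u n ∧ u n ≤ 1) (hv : ∀ b, 0 ≤ v b ∧ v b ≤ 1) :
    κ * Br a N (rr w) u v ≤ κ * Br a N (rr w) (fun n => if P n then u n else 0) v +
      ∑ n ∈ Ico N (2 * N), u n * (if P n then 0 else κ * W) := by
  unfold Br
  rw [mul_sum, mul_sum, ← sum_add_distrib]
  refine sum_le_sum fun n hn => ?_
  by_cases h : P n
  · simp [h]
  · simp only [h, if_false, mul_zero, zero_mul, sum_const_zero, zero_add]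
    have h1 : ∑ b ∈ Ico 1 a, rr w (a * n + b) * u n * v b ≤ u n * W := by
      refine le_trans ?_ (mul_le_mul_of_nonneg_left (hrow n (mem_Ico.1 hn).1) (hu n).1)
      rw [mul_sum]
      refine sum_le_sum fun b _ => ?_
      rw [mul_comm (u n)]
      exact mul_le_of_le_one_right (mul_nonneg (rr_bd _ _).1 (hu n).1) (hv b).2
    calc _ ≤ κ * (u n * W) := mul_le_mul_of_nonneg_left h1 hκ
      _ = _ := by ring

lemma br_mono {a N : ℕ} {u v : ℕ → ℝ} (P : ℕ → Prop) [DecidablePred P]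
    (hu : ∀ n, 0 ≤ u n ∧ u n ≤ 1) (hv : ∀ b, 0 ≤ v b ∧ v b ≤ 1) :
    Br a N pr1 (fun n => if P n then u n else 0) v ≤ Br a N pr1 u v := by
  unfold Br
  refine sum_le_sum fun n _ => sum_le_sum fun b _ => ?_
  refine mul_le_mul_of_nonneg_right (mul_le_mul_of_nonneg_left ?_ (pr1_bd _).1) (hv b).1
  beta_reduce
  split_ifs
  · exact le_rfl
  · exact (hu n).1

end KP2P

open QKPP KP2P in
theorem zKP2 (h1 : T_G2) (h2 : S_Rows) (h3 : T_RowL) (h4 : T_Blk) : T_KP2 := by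
  intro ε A hε
  obtain ⟨Ch, Cw0, h1⟩ := h1 (ε / 8) (A + 2) (by positivity)
  refine ⟨Cw0 + 2, fun Cw => ?_⟩
  obtain ⟨Q1, h1⟩ := h1 Cw
  obtain ⟨_, -, h2⟩ := h2
  obtain ⟨Q2, h2⟩ := h2 Cw
  obtain ⟨Q3, h3⟩ := h3 Cw
  obtain ⟨Q4, h4⟩ := h4 (Ch + 2)
  obtain ⟨Q5, h5⟩ := ev_lg ((ev_pow_le_two_pow (4 * 2 ^ (2 * Ch)) (2 * Ch)).and
    ((eventually_ge_atTop 2).and
    ((eventually_ge_atTop ⌈32 / ε⌉₊).and (eventually_ge_atTop (2 ^ Cw0)))))
  refine ⟨max (max (max Q1 Q2) (max Q3 Q4)) (max Q5 3), fun N w a hN hw1 hw2 hNa ha => ?_⟩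
  simp only [max_le_iff] at hN
  obtain ⟨⟨⟨hQ1, hQ2⟩, hQ3, hQ4⟩, hQ5, hN⟩ := hN
  obtain ⟨hg1, hg2, hg3, hg4⟩ := h5 N hQ5
  have hw3 : lg N ^ 2 ≤ w := (Nat.pow_le_pow_right (by omega) (by omega)).trans hw1
  have hR := rg_sqrt hN hNa ha
  generalize Nat.sqrt (a * N) = Q at hR
  have hNQ : N ≤ Q := hR.2.2.2.2
  have hl1 := hR.lg_le
  have hl2 := hR.lg_le_two hg2
  have hrows := (h2 N w hQ2 (by nlinarith) hw2).2
  have hlow := fun n => h3 N w a n hQ3 hw3 hw2 hNa hR.a_le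
  obtain ⟨G, err, he, hG, hap⟩ := h1 Q w (hQ1.trans hNQ) (by
    calc lg Q ^ Cw0 ≤ (2 * lg N) ^ Cw0 := Nat.pow_le_pow_left hl2 _
      _ = lg N ^ Cw0 * 2 ^ Cw0 := by ring
      _ ≤ lg N ^ Cw0 * lg N ^ 2 := Nat.mul_le_mul_left _ (by nlinarith)
      _ = lg N ^ (Cw0 + 2) := by ring
      _ ≤ w := hw1) (hw2.trans (Nat.pow_le_pow_left hl1 _))
  obtain ⟨⟨ν, hν⟩, herr⟩ := hap a N hR
  have hblk := fun n1 n2 => h4 Q a N n1 n2 (hQ4.trans hNQ) hR
  have h2N := two_pow_lg_le (Q := N) (by omega)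
  have hkap : kap N w = 1 / (4 * VV w * lg N) := rfl
  unfold KP
  generalize kap N w = κ at hkap ⊢
  generalize lg N = g0 at *
  generalize lg Q = g at *
  have hV := VV_pos w
  have hg0R : (1 : ℝ) ≤ g0 := by exact_mod_cast (by omega : 1 ≤ g0)
  have hl1R : (g0 : ℝ) ≤ g := by exact_mod_cast hl1
  have hl2R : (g : ℝ) ≤ 2 * g0 := by exact_mod_cast hl2
  have hgR : (1 : ℝ) ≤ g := hg0R.trans hl1R
  have hgε : 32 / ε ≤ g0 := Nat.ceil_le.1 hg3
  have haQ : 0 ≤ (a : ℝ) * N := by positivity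
  have hκ : 0 ≤ κ / 2 := by rw [hkap]; positivity
  have hgC : 0 < g ^ Ch := Nat.pow_pos (by omega)
  have hbig : 4 * (g ^ Ch) ^ 2 ≤ N := by
    calc 4 * (g ^ Ch) ^ 2 ≤ 4 * ((2 * g0) ^ Ch) ^ 2 := by gcongr
      _ = 4 * 2 ^ (2 * Ch) * g0 ^ (2 * Ch) := by rw [← pow_mul, mul_pow, mul_comm Ch 2, mul_assoc]
      _ ≤ _ := hg1.trans h2N
  have hpos : 1 ≤ N / g ^ Ch := (Nat.one_le_div_iff hgC).2 (by nlinarith)
  have hM : 2 * N ≤ 4 * g ^ Ch * (N / g ^ Ch) := by
    have := Nat.lt_mul_div_succ N hgC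
    nlinarith
  have hsq : N ≤ (N / g ^ Ch) ^ 2 := by
    have k1 : N ≤ 2 * g ^ Ch * (N / g ^ Ch) := by linarith
    have k2 : N * N ≤ N * (N / g ^ Ch) ^ 2 := by
      calc N * N ≤ (2 * g ^ Ch * (N / g ^ Ch)) * (2 * g ^ Ch * (N / g ^ Ch)) :=
            Nat.mul_le_mul k1 k1
        _ = 4 * (g ^ Ch) ^ 2 * (N / g ^ Ch) ^ 2 := by ring
        _ ≤ _ := Nat.mul_le_mul_right _ hbig
    exact Nat.le_of_mul_le_mul_left k2 (by omega)
  have hnf : ∀ (U : ℕ → ℝ) (ρ : ℝ), (∀ n, 0 ≤ U n) → 0 ≤ ρ → Blk N U ρ →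
      ∑ n ∈ (Ico N (2 * N)).filter (fun n => ¬ Full N (N / g ^ Ch) n), U n ≤
        2 * (ρ * (N / g0)) := by
    intro U ρ hU hρ hB
    rcases Nat.eq_zero_or_pos Ch with rfl | hC
    · rw [filter_false_of_mem, sum_empty]
      · positivity
      · intro n hn
        have k := mem_Ico.1 hn
        have e : n / N = 1 := Nat.div_eq_of_lt_le (by omega) (by omega)
        simp only [Full, pow_zero, Nat.div_one, e, not_not]
        omega
    · refine (nonfull_le hpos hU fun x => hB x _ hsq).trans ?_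
      have k1 : ((N / g ^ Ch : ℕ) : ℝ) ≤ N / g0 := by
        refine Nat.cast_div_le.trans ?_
        push_cast
        have : (g0 : ℝ) ≤ (g : ℝ) ^ Ch := hl1R.trans (le_self_pow₀ hgR (by omega))
        gcongr
      gcongr
  generalize N / g ^ Ch = hh at *
  have hRle : ∀ n, N ≤ n → ∑ b ∈ Ico 1 a, rr w (a * n + b) * cp a b ≤ 5 / 4 * VV w * a :=
    fun n hn => (sum_le_sum fun b _ => mul_le_of_le_one_right (rr_bd _ _).1 (cp_bd _ _).2).trans
      (hrows a n hNa hn).1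
  have hW : 0 ≤ 5 / 4 * VV w * a := by positivity
  have hkW : κ / 2 * (5 / 4 * VV w * a) = 5 / 32 * (a / g0) := by
    rw [hkap]
    field_simp
    ring
  have eA : a * N / (g : ℝ) ^ (A + 2) ≤ a * N / (g0 : ℝ) ^ A := by
    have := inv_pow_le hg0R hl1R (by omega : A ≤ A + 2)
    calc _ = 1 / (g : ℝ) ^ (A + 2) * (a * N) := by ring
      _ ≤ 1 / (g0 : ℝ) ^ A * (a * N) := by gcongr
      _ = _ := by ring
  refine ⟨fun n => ∑ b ∈ Ico 1 a, err (a * n + b) +
    (if Full N hh n then max (κ / 2 - ν (n / hh)) 0 else κ / 2) * (5 / 4 * VV w * a),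
    fun n => ?_, fun U ρ hU hρ hB => ?_, fun u v hu hv hc => ?_⟩
  · refine add_nonneg (sum_nonneg fun _ _ => he _) (mul_nonneg ?_ hW)
    split_ifs
    · exact le_max_right _ _
    · exact hκ
  · have hd := defic (κ := κ / 2) (c := a / (2 * g)) (B := a * N / (g : ℝ) ^ (Ch + 2))
      hR (by omega) he hG hν (by positivity) hpos hM (fun n hn => ?_) fun n1 n2 k1 k2 k3 => ?_
    · have hinv : 1 / (g0 : ℝ) ≤ ε / 32 := by
        rw [div_le_iff₀ hε] at hgε
        rw [div_le_div_iff₀ (by linarith) (by norm_num)]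
        linarith
      obtain ⟨Y, hY⟩ : ∃ Y : ℝ, Y = a * N / g0 := ⟨_, rfl⟩
      have hY0 : 0 ≤ Y := by rw [hY]; positivity
      have e0 : 1 / (g0 : ℝ) ^ 2 * (a * N) = 1 / g0 * Y := by rw [hY]; field_simp
      have e3 : 1 / (g0 : ℝ) * Y ≤ ε / 32 * Y := by gcongr
      have e1 : ((4 * g ^ Ch : ℕ) : ℝ) * (a * N / (g : ℝ) ^ (Ch + 2)) ≤ 4 * (1 / g0 * Y) := by
        have := inv_pow_le hg0R hl1R (le_refl 2)
        calc _ = 4 * (1 / (g : ℝ) ^ 2 * (a * N)) := by
              push_cast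
              field_simp
              ring
          _ ≤ 4 * (1 / (g0 : ℝ) ^ 2 * (a * N)) := by gcongr
          _ = _ := by rw [e0]
      have e2 : 1 / (g : ℝ) ^ (A + 2) * a * N ≤ 1 / g0 * Y := by
        have := inv_pow_le hg0R hl1R (by omega : 2 ≤ A + 2)
        calc _ = 1 / (g : ℝ) ^ (A + 2) * (a * N) := by ring
          _ ≤ 1 / (g0 : ℝ) ^ 2 * (a * N) := by gcongr
          _ = _ := e0
      have e2' : a * N / (g : ℝ) ^ (A + 2) = 1 / (g : ℝ) ^ (A + 2) * a * N := by ring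
      have e4 : ε / 8 * a / g * N ≤ ε / 8 * Y := by
        calc _ = ε / 8 * (a * N / g) := by ring
          _ ≤ ε / 8 * (a * N / g0) := by gcongr
          _ = _ := by rw [hY]
      have f1 := herr (fun _ => 1) fun _ => ⟨zero_le_one, le_rfl⟩
      simp only [one_mul, sum_const, Nat.card_Ico, nsmul_eq_mul, mul_one,
        show 2 * N - N = N by omega] at f1
      have f2 := herr U hU
      have f3 : ∑ n ∈ Ico N (2 * N), U n ≤ ρ * N := by
        have := hB N N (by nlinarith)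
        rwa [← two_mul] at this
      have f4 : ε / 8 * a / g * ∑ n ∈ Ico N (2 * N), U n ≤ ρ * (ε / 8 * Y) := by
        calc _ ≤ ε / 8 * a / g * (ρ * N) := by gcongr
          _ = ρ * (ε / 8 * a / g * N) := by ring
          _ ≤ _ := by gcongr
      have f5 := full_le (N := N) (U := U)
        (m := fun t => max (κ / 2 - ν t) 0 * (5 / 4 * VV w * a)) hpos hρ
        (fun t => mul_nonneg (le_max_right _ _) hW) fun x => hB x _ hsq
      have f6 : ∑ n ∈ Ico N (2 * N), max (κ / 2 - ν (n / hh)) 0 * (5 / 4 * VV w * a) ≤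
          5 / 2 * ∑ n ∈ Ico N (2 * N), max (κ / 2 - ν (n / hh)) 0 *
            ∑ b ∈ Ico 1 a, rr w (a * n + b) * cp a b := by
        rw [mul_sum]
        refine sum_le_sum fun n _ => ?_
        have k1 := mul_le_mul_of_nonneg_left (hlow n) (le_max_right (κ / 2 - ν (n / hh)) 0)
        linarith
      have f7 : ∑ n ∈ Ico N (2 * N), max (κ / 2 - ν (n / hh)) 0 * (5 / 4 * VV w * a) ≤
          25 / 32 * (ε * Y) := by linarith
      have f8 := mul_le_mul_of_nonneg_left f7 hρ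
      have f9 : ∑ n ∈ (Ico N (2 * N)).filter (fun n => ¬ Full N hh n),
          U n * (κ / 2 * (5 / 4 * VV w * a)) ≤ ρ * (5 / 16 * (ε / 32 * Y)) := by
        rw [← sum_mul, hkW]
        calc _ ≤ 2 * (ρ * (N / g0)) * (5 / 32 * (a / g0)) := by
              have := hnf U ρ (fun n => (hU n).1) hρ hB
              gcongr
          _ = ρ * (5 / 16 * (1 / g0 * Y)) := by rw [hY]; ring
          _ ≤ _ := by gcongr
      have e5 : ε * ρ * a * N / g0 = ρ * (ε * Y) := by rw [hY]; ring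
      have e6 : 0 ≤ ρ * (ε * Y) := by positivity
      have e7 : ∑ n ∈ Ico N (2 * N), U n * (∑ b ∈ Ico 1 a, err (a * n + b) +
          (if Full N hh n then max (κ / 2 - ν (n / hh)) 0 else κ / 2) * (5 / 4 * VV w * a)) =
          ∑ n ∈ Ico N (2 * N), U n * ∑ b ∈ Ico 1 a, err (a * n + b) +
          (∑ n ∈ (Ico N (2 * N)).filter (Full N hh),
            U n * (max (κ / 2 - ν (n / hh)) 0 * (5 / 4 * VV w * a)) +
          ∑ n ∈ (Ico N (2 * N)).filter (fun n => ¬ Full N hh n),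
            U n * (κ / 2 * (5 / 4 * VV w * a))) := by
        rw [← sum_ite, ← sum_add_distrib]
        refine sum_congr rfl fun n _ => ?_
        split_ifs <;> ring
      rw [e7, e5]
      linarith
    · calc κ / 2 * _ ≤ κ / 2 * (5 / 4 * VV w * a) := mul_le_mul_of_nonneg_left (hRle n hn) hκ
        _ = 5 / 8 * (a / (2 * (2 * g0))) := by
            rw [hkW]
            field_simp
            ring
        _ ≤ a / (2 * (2 * g0)) := mul_le_of_le_one_left (by positivity) (by norm_num)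
        _ ≤ _ := by gcongr
    · have k := hblk n1 n2 k1 k2 k3
      rw [sum_sub_distrib, sum_const, Nat.card_Ico, nsmul_eq_mul, Nat.cast_sub k2]
      have e : ((n2 : ℝ) - n1) * (a / (2 * g)) = a * (n2 - n1) / (2 * g) := by ring
      rw [e]
      linarith
  · have hu' : ∀ n, 0 ≤ (if Full N hh n then u n else 0) ∧ (if Full N hh n then u n else 0) ≤ 1 :=
      fun n => by
        split_ifs
        · exact hu n
        · exact ⟨le_rfl, zero_le_one⟩
    have hm := main_le (κ := κ / 2) hR hG hν hu' hv hc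
    have k1 := cut (a := a) (N := N) (w := w) (Full N hh) hκ
      (fun n hn => (hrows a n hNa hn).1) hu hv
    have k2 := br_mono (a := a) (N := N) (Full N hh) hu hv
    have e2' : a * N / (g : ℝ) ^ (A + 2) = 1 / (g : ℝ) ^ (A + 2) * a * N := by ring
    have k3 : ∑ n ∈ Ico N (2 * N), (if Full N hh n then u n else 0) *
        (∑ b ∈ Ico 1 a, err (a * n + b) +
          max (κ / 2 - ν (n / hh)) 0 * ∑ b ∈ Ico 1 a, rr w (a * n + b) * cp a b) +
        ∑ n ∈ Ico N (2 * N), u n * (if Full N hh n then 0 else κ / 2 * (5 / 4 * VV w * a)) ≤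
        ∑ n ∈ Ico N (2 * N), u n * (∑ b ∈ Ico 1 a, err (a * n + b) +
          (if Full N hh n then max (κ / 2 - ν (n / hh)) 0 else κ / 2) * (5 / 4 * VV w * a)) := by
      rw [← sum_add_distrib]
      refine sum_le_sum fun n hn => ?_
      split_ifs
      · have := mul_le_mul_of_nonneg_left (hRle n (mem_Ico.1 hn).1)
          (le_max_right (κ / 2 - ν (n / hh)) 0)
        rw [mul_zero, add_zero]
        exact mul_le_mul_of_nonneg_left (by linarith) (hu n).1
      · have : 0 ≤ ∑ b ∈ Ico 1 a, err (a * n + b) := sum_nonneg fun _ _ => he _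
        rw [zero_mul, zero_add]
        exact mul_le_mul_of_nonneg_left (by linarith) (hu n).1
    linarith

end Pool.Agent.P.MP_746f10_nt.AZ
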